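import Mathlib
import Pool.Agent.H104R3.EG.Stmts2

/-!
# H104-EG, SecSimpR: simple subgroups as sections
-/

set_option autoImplicit false

namespace Pool.Agent.H886R3.EG

open Pool.Agent.H104R3.EG

theorem secSimpR : SecSimpR := by
  intro s G _ _ hG T hT hNA
  have e : (T ⧸ (⊥ : Subgroup T)) ≃* T := QuotientGroup.quotientBot
  have hs : IsSimpleGroup (T ⧸ (⊥ : Subgroup T)) := by
    have : Nontrivial (T ⧸ (⊥ : Subgroup T)) := e.toEquiv.nontrivial
    exact IsSimpleGroup.isSimpleGroup_of_surjective e.symm.toMonoidHom e.symm.surjective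
  have hna : ∃ x y : T ⧸ (⊥ : Subgroup T), x * y ≠ y * x := by
    obtain ⟨x, hx, y, hy, hxy⟩ := hNA
    refine ⟨e.symm ⟨x, hx⟩, e.symm ⟨y, hy⟩, ?_⟩
    rw [← map_mul, ← map_mul]
    intro h
    exact hxy (congrArg Subtype.val (e.symm.injective h))
  obtain ⟨x, hx⟩ := hG T ⊥ hs hna
  refine ⟨fun i => (e (x i) : G), ?_⟩
  have h1 : (Subgroup.closure (Set.range x)).map (T.subtype.comp e.toMonoidHom) = T := by
    rw [hx, ← MonoidHom.range_eq_map, MonoidHom.range_comp]
    have h2 : e.toMonoidHom.range = ⊤ := MonoidHom.range_eq_top.2 e.surjective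
    rw [h2, ← MonoidHom.range_eq_map, Subgroup.range_subtype]
  rw [MonoidHom.map_closure, ← Set.range_comp] at h1
  exact h1

end Pool.Agent.H886R3.EG
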