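import Mathlib
import Pool.Agent.H13R3.EM.Defs

/-!
# Task EM-C: the product of two entire elements of the Selberg class
-/

set_option autoImplicit false

open Finset

namespace Pool.Agent.H886R3.EMC

open Pool.Agent.H13R3.EM

theorem aux_pow (K e : ℕ) (hK : 0 < K) : (e + 1) ^ K ≤ K ^ K * 2 * 2 ^ e := by
  have h1 : e + 1 < K * ((e + 1) / K + 1) := by
    have := Nat.lt_mul_div_succ (e + 1) hK
    simpa using this
  have h2 : (e + 1) / K + 1 ≤ 2 ^ ((e + 1) / K) := Nat.lt_two_pow_self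
  have h3 : e + 1 ≤ K * 2 ^ ((e + 1) / K) := by
    calc e + 1 ≤ K * ((e + 1) / K + 1) := h1.le
      _ ≤ K * 2 ^ ((e + 1) / K) := Nat.mul_le_mul_left _ h2
  calc (e + 1) ^ K ≤ (K * 2 ^ ((e + 1) / K)) ^ K := Nat.pow_le_pow_left h3 K
    _ = K ^ K * 2 ^ ((e + 1) / K * K) := by rw [mul_pow, ← pow_mul]
    _ ≤ K ^ K * 2 ^ (e + 1) := by
        apply Nat.mul_le_mul_left
        exact Nat.pow_le_pow_right (by norm_num) (Nat.div_mul_le_self _ _)
    _ = K ^ K * 2 * 2 ^ e := by rw [pow_succ]; ring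

/-- `d(n) ^ K ≤ C_K n` -/
theorem card_divisors_pow_le (K : ℕ) (hK : 0 < K) (n : ℕ) (hn : n ≠ 0) :
    (n.divisors.card) ^ K ≤ (K ^ K * 2) ^ (2 ^ K) * n := by
  rw [Nat.card_divisors hn]
  set c : ℕ → ℕ := fun q => if q < 2 ^ K then K ^ K * 2 else 1 with hc
  have hc0 : 1 ≤ K ^ K * 2 := by
    have : 0 < K ^ K := Nat.pow_pos hK
    omega
  have key : ∀ q ∈ n.primeFactors, (n.factorization q + 1) ^ K ≤ c q * q ^ n.factorization q := by
    intro q hq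
    have hqp : q.Prime := Nat.prime_of_mem_primeFactors hq
    by_cases h : q < 2 ^ K
    · simp only [hc, h, if_true]
      refine (aux_pow K _ hK).trans ?_
      exact Nat.mul_le_mul_left _ (Nat.pow_le_pow_left hqp.two_le _)
    · simp only [hc, h, if_false, one_mul]
      push Not at h
      calc (n.factorization q + 1) ^ K ≤ (2 ^ n.factorization q) ^ K :=
            Nat.pow_le_pow_left Nat.lt_two_pow_self K
        _ = (2 ^ K) ^ n.factorization q := by rw [← pow_mul, ← pow_mul, mul_comm]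
        _ ≤ q ^ n.factorization q := Nat.pow_le_pow_left h _
  calc (∏ q ∈ n.primeFactors, (n.factorization q + 1)) ^ K
      = ∏ q ∈ n.primeFactors, (n.factorization q + 1) ^ K := by rw [Finset.prod_pow]
    _ ≤ ∏ q ∈ n.primeFactors, (c q * q ^ n.factorization q) :=
        Finset.prod_le_prod' key
    _ = (∏ q ∈ n.primeFactors, c q) * ∏ q ∈ n.primeFactors, q ^ n.factorization q :=
        Finset.prod_mul_distrib
    _ = (∏ q ∈ n.primeFactors, c q) * n := by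
        congr 1
        exact Nat.prod_factorization_pow_eq_self hn
    _ ≤ (K ^ K * 2) ^ (2 ^ K) * n := by
        apply Nat.mul_le_mul_right
        have : ∏ q ∈ n.primeFactors, c q
            = ∏ q ∈ n.primeFactors.filter (fun q => q < 2 ^ K), (K ^ K * 2) := by
          rw [Finset.prod_filter]
        rw [this, Finset.prod_const]
        apply Nat.pow_le_pow_right hc0
        calc (n.primeFactors.filter (fun q => q < 2 ^ K)).card ≤ (Finset.range (2 ^ K)).card := by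
              apply Finset.card_le_card
              intro q hq
              simp only [Finset.mem_filter] at hq
              exact Finset.mem_range.mpr hq.2
          _ = 2 ^ K := Finset.card_range _

/-- the divisor bound -/
theorem div_bound {δ : ℝ} (hδ : 0 < δ) : ∃ C : ℝ, 1 ≤ C ∧ ∀ n : ℕ, n ≠ 0 →
    (n.divisors.card : ℝ) ≤ C * (n : ℝ) ^ δ := by
  obtain ⟨K0, hK0⟩ := exists_nat_gt (1 / δ)
  set K := K0 + 1 with hKdef
  have hK : 0 < K := by omega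
  have hK' : (0 : ℝ) < K := by exact_mod_cast hK
  have hKδ : 1 / (K : ℝ) ≤ δ := by
    rw [div_le_iff₀ hK']
    rw [div_lt_iff₀ hδ] at hK0
    have : (K0 : ℝ) ≤ K := by exact_mod_cast (by omega : K0 ≤ K)
    nlinarith
  set c : ℕ := (K ^ K * 2) ^ (2 ^ K) with hc
  have hc1 : 1 ≤ c := by
    rw [hc]
    exact Nat.one_le_pow _ _ (by positivity)
  have hc1' : (1 : ℝ) ≤ c := by exact_mod_cast hc1
  refine ⟨c, hc1', ?_⟩
  intro n hn
  have hn1 : 1 ≤ n := Nat.one_le_iff_ne_zero.2 hn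
  have hn1' : (1 : ℝ) ≤ n := by exact_mod_cast hn1
  have h1 : ((n.divisors.card : ℝ)) ^ K ≤ c * n := by
    exact_mod_cast card_divisors_pow_le K hK n hn
  have h2 : (n.divisors.card : ℝ) ≤ (c * n : ℝ) ^ (1 / (K : ℝ)) := by
    have h3 := Real.rpow_le_rpow (by positivity) h1 (by positivity : (0 : ℝ) ≤ 1 / (K : ℝ))
    rwa [← Real.rpow_natCast, ← Real.rpow_mul (Nat.cast_nonneg _), mul_one_div_cancel hK'.ne',
      Real.rpow_one] at h3
  refine h2.trans ?_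
  rw [Real.mul_rpow (by positivity) (by positivity)]
  apply mul_le_mul
  · calc (c : ℝ) ^ (1 / (K : ℝ)) ≤ (c : ℝ) ^ (1 : ℝ) := by
          apply Real.rpow_le_rpow_of_exponent_le hc1'
          rw [div_le_one hK']
          exact_mod_cast hK
      _ = c := Real.rpow_one _
  · exact Real.rpow_le_rpow_of_exponent_le hn1' hKδ
  · positivity
  · positivity

/-- Dirichlet convolution of complex sequences -/
noncomputable def cc (f g : ℕ → ℂ) (n : ℕ) : ℂ := ∑ x ∈ n.divisorsAntidiagonal, f x.1 * g x.2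

theorem cc_one {f g : ℕ → ℂ} (hf : f 1 = 1) (hg : g 1 = 1) : cc f g 1 = 1 := by
  simp [cc, hf, hg]

theorem cc_ram {f g : ℕ → ℂ} (hf : ∀ ε : ℝ, 0 < ε → ∃ C : ℝ, ∀ n : ℕ, 1 ≤ n → ‖f n‖ ≤ C * (n : ℝ) ^ ε)
    (hg : ∀ ε : ℝ, 0 < ε → ∃ C : ℝ, ∀ n : ℕ, 1 ≤ n → ‖g n‖ ≤ C * (n : ℝ) ^ ε) :
    ∀ ε : ℝ, 0 < ε → ∃ C : ℝ, ∀ n : ℕ, 1 ≤ n → ‖cc f g n‖ ≤ C * (n : ℝ) ^ ε := by
  intro ε hε
  obtain ⟨C₁, h₁⟩ := hf (ε / 2) (by positivity)
  obtain ⟨C₂, h₂⟩ := hg (ε / 2) (by positivity)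
  obtain ⟨C₃, -, h₃⟩ := div_bound (δ := ε / 2) (by positivity)
  have hC₁ : 0 ≤ C₁ := by
    have := h₁ 1 le_rfl
    simp at this
    exact (norm_nonneg _).trans this
  have hC₂ : 0 ≤ C₂ := by
    have := h₂ 1 le_rfl
    simp at this
    exact (norm_nonneg _).trans this
  refine ⟨C₃ * (C₁ * C₂), fun n hn => ?_⟩
  have hn0 : n ≠ 0 := by omega
  have hterm : ∀ x ∈ n.divisorsAntidiagonal, ‖f x.1 * g x.2‖ ≤ C₁ * C₂ * (n : ℝ) ^ (ε / 2) := by
    intro x hx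
    rw [Nat.mem_divisorsAntidiagonal] at hx
    obtain ⟨hx, -⟩ := hx
    have hx1 : 1 ≤ x.1 := Nat.one_le_iff_ne_zero.2 (by rintro h; rw [h] at hx; simp at hx; omega)
    have hx2 : 1 ≤ x.2 := Nat.one_le_iff_ne_zero.2 (by rintro h; rw [h] at hx; simp at hx; omega)
    rw [norm_mul, ← hx, Nat.cast_mul, Real.mul_rpow (by positivity) (by positivity)]
    calc ‖f x.1‖ * ‖g x.2‖ ≤ (C₁ * (x.1 : ℝ) ^ (ε / 2)) * (C₂ * (x.2 : ℝ) ^ (ε / 2)) :=
          mul_le_mul (h₁ _ hx1) (h₂ _ hx2) (norm_nonneg _) (by positivity)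
      _ = _ := by ring
  have hn' : (0 : ℝ) < n := by exact_mod_cast hn
  calc ‖cc f g n‖ ≤ ∑ x ∈ n.divisorsAntidiagonal, ‖f x.1 * g x.2‖ := norm_sum_le _ _
    _ ≤ ∑ x ∈ n.divisorsAntidiagonal, C₁ * C₂ * (n : ℝ) ^ (ε / 2) := Finset.sum_le_sum hterm
    _ = (n.divisors.card : ℝ) * (C₁ * C₂ * (n : ℝ) ^ (ε / 2)) := by
        rw [Finset.sum_const, nsmul_eq_mul]
        congr 2
        rw [← Nat.map_div_right_divisors, Finset.card_map]
    _ ≤ (C₃ * (n : ℝ) ^ (ε / 2)) * (C₁ * C₂ * (n : ℝ) ^ (ε / 2)) :=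
        mul_le_mul_of_nonneg_right (h₃ n hn0) (by positivity)
    _ = C₃ * (C₁ * C₂) * ((n : ℝ) ^ (ε / 2) * (n : ℝ) ^ (ε / 2)) := by ring
    _ = C₃ * (C₁ * C₂) * (n : ℝ) ^ ε := by
        rw [← Real.rpow_add hn', add_halves]

theorem summable_of_ram {f : ℕ → ℂ}
    (hf : ∀ ε : ℝ, 0 < ε → ∃ C : ℝ, ∀ n : ℕ, 1 ≤ n → ‖f n‖ ≤ C * (n : ℝ) ^ ε) {s : ℂ} (hs : 1 < s.re) :
    LSeriesSummable f s := by
  obtain ⟨C, hC⟩ := hf ((s.re - 1) / 2) (by linarith)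
  refine LSeriesSummable_of_le_const_mul_rpow (x := 1 + (s.re - 1) / 2) (by linarith) ⟨C, fun n hn => ?_⟩
  have := hC n (Nat.one_le_iff_ne_zero.2 hn)
  convert this using 3
  ring

theorem LSeries_cc {f g : ℕ → ℂ} {s : ℂ} (hf : LSeriesSummable f s) (hg : LSeriesSummable g s) :
    LSeries (cc f g) s = LSeries f s * LSeries g s := by
  rw [← LSeries_convolution' hf hg]
  congr 1
  funext n
  simp [cc, LSeries.convolution_def]

theorem order_mul {F G : ℂ → ℂ} (dF : Differentiable ℂ F) (dG : Differentiable ℂ G)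
    (hF : ∃ ρ C : ℝ, ∀ s : ℂ, ‖F s‖ ≤ C * Real.exp (‖s‖ ^ ρ))
    (hG : ∃ ρ C : ℝ, ∀ s : ℂ, ‖G s‖ ≤ C * Real.exp (‖s‖ ^ ρ)) :
    ∃ ρ C : ℝ, ∀ s : ℂ, ‖F s * G s‖ ≤ C * Real.exp (‖s‖ ^ ρ) := by
  obtain ⟨ρ₁, C₁, h₁⟩ := hF
  obtain ⟨ρ₂, C₂, h₂⟩ := hG
  have hcont : Continuous (fun s : ℂ => F s * G s) := dF.continuous.mul dG.continuous
  obtain ⟨B, hB⟩ := (isCompact_closedBall (0 : ℂ) 2).exists_bound_of_continuousOn hcont.continuousOn
  set ρ : ℝ := max ρ₁ ρ₂ + 1 with hρ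
  refine ⟨ρ, max |B| (|C₁| * |C₂|), fun s => ?_⟩
  by_cases hs : ‖s‖ ≤ 2
  · calc ‖F s * G s‖ ≤ B := hB s (by simpa using hs)
      _ ≤ |B| := le_abs_self B
      _ ≤ max |B| (|C₁| * |C₂|) := le_max_left _ _
      _ = max |B| (|C₁| * |C₂|) * 1 := (mul_one _).symm
      _ ≤ _ := by
          apply mul_le_mul_of_nonneg_left _ ((abs_nonneg B).trans (le_max_left _ _))
          rw [← Real.exp_zero]
          apply Real.exp_le_exp.2
          positivity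
  · push Not at hs
    have hs1 : (1 : ℝ) ≤ ‖s‖ := by linarith
    have hs0 : (0 : ℝ) < ‖s‖ := by linarith
    have e₁ : ‖s‖ ^ ρ₁ ≤ ‖s‖ ^ (max ρ₁ ρ₂) := Real.rpow_le_rpow_of_exponent_le hs1 (le_max_left _ _)
    have e₂ : ‖s‖ ^ ρ₂ ≤ ‖s‖ ^ (max ρ₁ ρ₂) := Real.rpow_le_rpow_of_exponent_le hs1 (le_max_right _ _)
    have e₃ : ‖s‖ ^ ρ = ‖s‖ ^ (max ρ₁ ρ₂) * ‖s‖ := by
      rw [hρ, Real.rpow_add hs0, Real.rpow_one]
    have e₄ : ‖s‖ ^ ρ₁ + ‖s‖ ^ ρ₂ ≤ ‖s‖ ^ ρ := by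
      rw [e₃]
      have : (0 : ℝ) ≤ ‖s‖ ^ (max ρ₁ ρ₂) := by positivity
      nlinarith
    rw [norm_mul]
    calc ‖F s‖ * ‖G s‖ ≤ (|C₁| * Real.exp (‖s‖ ^ ρ₁)) * (|C₂| * Real.exp (‖s‖ ^ ρ₂)) := by
          apply mul_le_mul
          · exact (h₁ s).trans (mul_le_mul_of_nonneg_right (le_abs_self _) (Real.exp_pos _).le)
          · exact (h₂ s).trans (mul_le_mul_of_nonneg_right (le_abs_self _) (Real.exp_pos _).le)
          · exact norm_nonneg _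
          · positivity
      _ = (|C₁| * |C₂|) * Real.exp (‖s‖ ^ ρ₁ + ‖s‖ ^ ρ₂) := by rw [Real.exp_add]; ring
      _ ≤ (|C₁| * |C₂|) * Real.exp (‖s‖ ^ ρ) := by
          apply mul_le_mul_of_nonneg_left _ (by positivity)
          exact Real.exp_le_exp.2 e₄
      _ ≤ _ := mul_le_mul_of_nonneg_right (le_max_right _ _) (Real.exp_pos _).le

/-- the product -/
noncomputable def prodSel (F₁ F₂ : Sel) (h₁ : F₁.m0 = 0) (h₂ : F₂.m0 = 0) : Sel where
  a := cc F₁.a F₂.a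
  m0 := 0
  G := fun s => F₁.G s * F₂.G s
  r := F₁.r + F₂.r
  Q := F₁.Q * F₂.Q
  lam := Fin.append F₁.lam F₂.lam
  μ := Fin.append F₁.μ F₂.μ
  ω := F₁.ω * F₂.ω
  b := fun n => F₁.b n + F₂.b n
  one := cc_one F₁.one F₂.one
  ram := cc_ram F₁.ram F₂.ram
  diff := F₁.diff.mul F₂.diff
  order := order_mul F₁.diff F₂.diff F₁.order F₂.order
  cont := by
    intro s hs
    have e₁ := F₁.cont s hs
    have e₂ := F₂.cont s hs
    rw [h₁, pow_zero, one_mul] at e₁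
    rw [h₂, pow_zero, one_mul] at e₂
    rw [pow_zero, one_mul, LSeries_cc (summable_of_ram F₁.ram hs) (summable_of_ram F₂.ram hs), e₁, e₂]
  Qpos := mul_pos F₁.Qpos F₂.Qpos
  lampos := by
    intro j
    refine Fin.addCases (fun i => ?_) (fun i => ?_) j
    · rw [Fin.append_left]; exact F₁.lampos i
    · rw [Fin.append_right]; exact F₂.lampos i
  mu_re := by
    intro j
    refine Fin.addCases (fun i => ?_) (fun i => ?_) j
    · rw [Fin.append_left]; exact F₁.mu_re i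
    · rw [Fin.append_right]; exact F₂.mu_re i
  norm_omega := by rw [norm_mul, F₁.norm_omega, F₂.norm_omega, one_mul]
  fe := by
    intro s hs0 hs1 hp hq
    have e₁ := F₁.fe s hs0 hs1
      (fun j n => by have := hp (Fin.castAdd _ j) n; rwa [Fin.append_left, Fin.append_left] at this)
      (fun j n => by have := hq (Fin.castAdd _ j) n; rwa [Fin.append_left, Fin.append_left] at this)
    have e₂ := F₂.fe s hs0 hs1
      (fun j n => by have := hp (Fin.natAdd _ j) n; rwa [Fin.append_right, Fin.append_right] at this)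
      (fun j n => by have := hq (Fin.natAdd _ j) n; rwa [Fin.append_right, Fin.append_right] at this)
    rw [h₁] at e₁
    rw [h₂] at e₂
    simp only [pow_zero, div_one] at e₁ e₂ ⊢
    have hQ : ∀ z : ℂ, ((F₁.Q * F₂.Q : ℝ) : ℂ) ^ z = (F₁.Q : ℂ) ^ z * (F₂.Q : ℂ) ^ z := by
      intro z
      rw [Complex.ofReal_mul, Complex.mul_cpow_ofReal_nonneg F₁.Qpos.le F₂.Qpos.le]
    have hG : ∀ z : ℂ, ∏ j, Complex.Gamma (((Fin.append F₁.lam F₂.lam j : ℝ) : ℂ) * z + Fin.append F₁.μ F₂.μ j)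
        = (∏ j, Complex.Gamma ((F₁.lam j : ℂ) * z + F₁.μ j)) *
          ∏ j, Complex.Gamma ((F₂.lam j : ℂ) * z + F₂.μ j) := by
      intro z
      rw [Fin.prod_univ_add]
      simp only [Fin.append_left, Fin.append_right]
    rw [hQ, hQ, hG, hG]
    simp only [map_mul] at e₁ e₂ ⊢
    calc _ = ((F₁.Q : ℂ) ^ s * (∏ j, Complex.Gamma ((F₁.lam j : ℂ) * s + F₁.μ j)) * F₁.G s) *
          ((F₂.Q : ℂ) ^ s * (∏ j, Complex.Gamma ((F₂.lam j : ℂ) * s + F₂.μ j)) * F₂.G s) := by ring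
      _ = _ := by rw [e₁, e₂]; ring
  b_zero := by
    intro n hn
    rw [F₁.b_zero n hn, F₂.b_zero n hn, add_zero]
  b_bound := by
    obtain ⟨θ₁, hθ₁, C₁, h₁⟩ := F₁.b_bound
    obtain ⟨θ₂, hθ₂, C₂, h₂⟩ := F₂.b_bound
    refine ⟨max θ₁ θ₂, max_lt hθ₁ hθ₂, |C₁| + |C₂|, fun n hn => ?_⟩
    have hn' : (1 : ℝ) ≤ n := by exact_mod_cast hn
    have e₁ : (n : ℝ) ^ θ₁ ≤ (n : ℝ) ^ (max θ₁ θ₂) := Real.rpow_le_rpow_of_exponent_le hn' (le_max_left _ _)
    have e₂ : (n : ℝ) ^ θ₂ ≤ (n : ℝ) ^ (max θ₁ θ₂) := Real.rpow_le_rpow_of_exponent_le hn' (le_max_right _ _)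
    have p₁ : 0 ≤ (n : ℝ) ^ θ₁ := by positivity
    have p₂ : 0 ≤ (n : ℝ) ^ θ₂ := by positivity
    calc ‖F₁.b n + F₂.b n‖ ≤ ‖F₁.b n‖ + ‖F₂.b n‖ := norm_add_le _ _
      _ ≤ C₁ * (n : ℝ) ^ θ₁ + C₂ * (n : ℝ) ^ θ₂ := add_le_add (h₁ n hn) (h₂ n hn)
      _ ≤ |C₁| * (n : ℝ) ^ (max θ₁ θ₂) + |C₂| * (n : ℝ) ^ (max θ₁ θ₂) := by
          apply add_le_add
          · exact mul_le_mul (le_abs_self _) e₁ p₁ (abs_nonneg _)
          · exact mul_le_mul (le_abs_self _) e₂ p₂ (abs_nonneg _)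
      _ = _ := by ring
  euler := by
    intro s hs
    obtain ⟨s₁, e₁⟩ := F₁.euler s hs
    obtain ⟨s₂, e₂⟩ := F₂.euler s hs
    have hadd : (fun n => F₁.b n + F₂.b n) = F₁.b + F₂.b := rfl
    refine ⟨by rw [hadd]; exact s₁.add s₂, ?_⟩
    rw [hadd, LSeries_add s₁ s₂, Complex.exp_add,
      LSeries_cc (summable_of_ram F₁.ram hs) (summable_of_ram F₂.ram hs), e₁, e₂]

/-- **Task EM-C.** -/
theorem taskC : TaskC := by
  intro F₁ F₂ h₁ h₂
  refine ⟨prodSel F₁ F₂ h₁ h₂, rfl, ?_, fun n _ => rfl⟩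
  have key : ∑ j, Fin.append F₁.lam F₂.lam j = (∑ j, F₁.lam j) + ∑ j, F₂.lam j := by
    rw [Fin.sum_univ_add]
    simp only [Fin.append_left, Fin.append_right]
  have h : (prodSel F₁ F₂ h₁ h₂).deg = 2 * ∑ j, Fin.append F₁.lam F₂.lam j := rfl
  rw [h, key, Sel.deg, Sel.deg]
  ring

end Pool.Agent.H886R3.EMC
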