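import Mathlib
import Pool.Agent.H13R3.EM.Defs

/-!
# Task EM-B: correlation of a summatory function with the one of a Dirichlet convolution
-/

set_option autoImplicit false

open Finset MeasureTheory

namespace Pool.Agent.H886R3.EMB

open Pool.Agent.H13R3.EM

/-- hyperbola identity -/
theorem sum_antidiag (N : ℕ) (f : ℕ → ℕ → ℝ) :
    ∑ n ∈ Icc 1 N, ∑ x ∈ n.divisorsAntidiagonal, f x.1 x.2
      = ∑ k ∈ Icc 1 N, ∑ m ∈ Icc 1 (N / k), f k m := by
  rw [Finset.sum_sigma', Finset.sum_sigma']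
  refine Finset.sum_bij' (fun x _ => ⟨x.2.1, x.2.2⟩) (fun y _ => ⟨y.1 * y.2, (y.1, y.2)⟩) ?_ ?_ ?_ ?_ ?_
  · rintro ⟨n, k, m⟩ hx
    simp only [Finset.mem_sigma, Finset.mem_Icc, Nat.mem_divisorsAntidiagonal] at hx ⊢
    obtain ⟨⟨h1, h2⟩, h3, h4⟩ := hx
    have hk : 0 < k := Nat.pos_of_ne_zero (by rintro rfl; simp at h3; omega)
    have hm : 0 < m := Nat.pos_of_ne_zero (by rintro rfl; simp at h3; omega)
    refine ⟨⟨hk, ?_⟩, hm, ?_⟩
    · calc k ≤ k * m := Nat.le_mul_of_pos_right _ hm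
        _ ≤ N := by omega
    · rw [Nat.le_div_iff_mul_le hk]
      calc m * k = k * m := mul_comm _ _
        _ ≤ N := by omega
  · rintro ⟨k, m⟩ hy
    simp only [Finset.mem_sigma, Finset.mem_Icc, Nat.mem_divisorsAntidiagonal] at hy ⊢
    obtain ⟨⟨h1, h2⟩, h3, h4⟩ := hy
    have hk : 0 < k := h1
    rw [Nat.le_div_iff_mul_le hk] at h4
    refine ⟨⟨?_, ?_⟩, trivial, ?_⟩
    · exact Nat.mul_pos hk h3
    · calc k * m = m * k := mul_comm _ _
        _ ≤ N := h4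
    · exact (Nat.mul_pos hk h3).ne'
  · rintro ⟨n, k, m⟩ hx
    simp only [Finset.mem_sigma, Finset.mem_Icc, Nat.mem_divisorsAntidiagonal] at hx
    obtain ⟨-, h3, -⟩ := hx
    subst h3
    rfl
  · rintro ⟨k, m⟩ hy
    rfl
  · rintro ⟨n, k, m⟩ hx
    rfl

theorem EE_of_lt_one (a : ℕ → ℝ) {x : ℝ} (hx : x < 1) : EE a x = 0 := by
  unfold EE
  have : ⌊x⌋₊ = 0 := Nat.floor_eq_zero.2 hx
  rw [this]
  simp

theorem EE_cv (a g : ℕ → ℝ) (x : ℝ) :
    EE (cv g a) x = ∑ k ∈ Icc 1 ⌊x⌋₊, g k * EE a (x / k) := by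
  unfold EE cv
  rw [sum_antidiag ⌊x⌋₊ (fun k m => g k * a m)]
  refine Finset.sum_congr rfl fun k _ => ?_
  rw [Nat.floor_div_natCast, Finset.mul_sum]

theorem EE_cv_le (a g : ℕ → ℝ) {x T : ℝ} (hxT : x ≤ T) :
    EE (cv g a) x = ∑ k ∈ Icc 1 ⌊T⌋₊, g k * EE a (x / k) := by
  rw [EE_cv]
  apply Finset.sum_subset
  · exact Finset.Icc_subset_Icc le_rfl (Nat.floor_le_floor hxT)
  · intro k hk hk'
    simp only [Finset.mem_Icc] at hk hk'
    have h1 : ⌊x⌋₊ < k := by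
      by_contra h
      exact hk' ⟨hk.1, by omega⟩
    have hk0 : (0 : ℝ) < k := by exact_mod_cast hk.1
    have h2 : x / k < 1 := by
      rw [div_lt_one hk0]
      exact Nat.lt_of_floor_lt h1
    rw [EE_of_lt_one a h2, mul_zero]

/-- measurable and locally bounded -/
def Nice (f : ℝ → ℝ) : Prop := Measurable f ∧ ∀ T : ℝ, ∃ B : ℝ, ∀ x : ℝ, x ≤ T → |f x| ≤ B

theorem Nice.mul {f g : ℝ → ℝ} (hf : Nice f) (hg : Nice g) : Nice (fun x => f x * g x) := by
  refine ⟨hf.1.mul hg.1, fun T => ?_⟩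
  obtain ⟨B, hB⟩ := hf.2 T
  obtain ⟨B', hB'⟩ := hg.2 T
  refine ⟨B * B', fun x hx => ?_⟩
  rw [abs_mul]
  exact mul_le_mul (hB x hx) (hB' x hx) (abs_nonneg _) ((abs_nonneg _).trans (hB x hx))

theorem Nice.const_mul {f : ℝ → ℝ} (c : ℝ) (hf : Nice f) : Nice (fun x => c * f x) := by
  refine ⟨hf.1.const_mul c, fun T => ?_⟩
  obtain ⟨B, hB⟩ := hf.2 T
  refine ⟨|c| * B, fun x hx => ?_⟩
  rw [abs_mul]
  exact mul_le_mul_of_nonneg_left (hB x hx) (abs_nonneg _)

theorem Nice.add {f g : ℝ → ℝ} (hf : Nice f) (hg : Nice g) : Nice (fun x => f x + g x) := by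
  refine ⟨hf.1.add hg.1, fun T => ?_⟩
  obtain ⟨B, hB⟩ := hf.2 T
  obtain ⟨B', hB'⟩ := hg.2 T
  exact ⟨B + B', fun x hx => (abs_add_le _ _).trans (add_le_add (hB x hx) (hB' x hx))⟩

theorem Nice.comp_div {f : ℝ → ℝ} (hf : Nice f) {k : ℝ} (hk : 0 < k) : Nice (fun x => f (x / k)) := by
  refine ⟨hf.1.comp (measurable_id.div_const k), fun T => ?_⟩
  obtain ⟨B, hB⟩ := hf.2 (T / k)
  exact ⟨B, fun x hx => hB _ (by gcongr)⟩

theorem Nice.intervalIntegrable {f : ℝ → ℝ} (hf : Nice f) (s t : ℝ) :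
    IntervalIntegrable f volume s t := by
  obtain ⟨B, hB⟩ := hf.2 (max s t)
  rw [intervalIntegrable_iff]
  refine Measure.integrableOn_of_bounded (M := B) ?_ hf.1.aestronglyMeasurable ?_
  · rw [Set.uIoc, Real.volume_Ioc]
    exact ENNReal.ofReal_ne_top
  · refine (ae_restrict_iff' measurableSet_uIoc).2 (Filter.Eventually.of_forall fun x hx => ?_)
    rw [Real.norm_eq_abs]
    exact hB x (by rw [Set.uIoc] at hx; exact hx.2)

theorem nice_EE (a : ℕ → ℝ) : Nice (EE a) := by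
  refine ⟨?_, fun T => ?_⟩
  · have h : EE a = (fun N : ℕ => ∑ n ∈ Icc 1 N, a n) ∘ (fun x : ℝ => ⌊x⌋₊) := rfl
    rw [h]
    exact (measurable_from_nat).comp Nat.measurable_floor
  · refine ⟨∑ n ∈ Icc 1 ⌊T⌋₊, |a n|, fun x hx => ?_⟩
    unfold EE
    refine (Finset.abs_sum_le_sum_abs _ _).trans ?_
    exact Finset.sum_le_sum_of_subset_of_nonneg
      (Finset.Icc_subset_Icc le_rfl (Nat.floor_le_floor hx)) (fun _ _ _ => abs_nonneg _)

/-- mean square -/
noncomputable def II (a : ℕ → ℝ) (T : ℝ) : ℝ := ∫ x in (1:ℝ)..T, (EE a x) ^ 2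

theorem nice_sq (a : ℕ → ℝ) : Nice (fun x => (EE a x) ^ 2) := by
  have := (nice_EE a).mul (nice_EE a)
  simpa only [← sq] using this

theorem II_nonneg (a : ℕ → ℝ) {T : ℝ} (hT : 1 ≤ T) : 0 ≤ II a T :=
  intervalIntegral.integral_nonneg hT fun _ _ => sq_nonneg _

theorem II_cont (a : ℕ → ℝ) : Continuous (II a) :=
  intervalIntegral.continuous_primitive (fun s t => (nice_sq a).intervalIntegrable s t) 1

theorem integral_comp_div_sq (a : ℕ → ℝ) {T : ℝ} {k : ℕ} (hk : 1 ≤ k) :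
    ∫ x in (1:ℝ)..T, (EE a (x / k)) ^ 2 = k * II a (T / k) := by
  have hk0 : (k : ℝ) ≠ 0 := by positivity
  have hk1 : (1 : ℝ) ≤ k := by exact_mod_cast hk
  have h1 := intervalIntegral.integral_comp_div (a := 1) (b := T) (fun x => (EE a x) ^ 2) hk0
  simp only [smul_eq_mul] at h1
  rw [h1]
  congr 1
  have hle : (1 : ℝ) / k ≤ 1 := by rw [div_le_one (by positivity)]; exact hk1
  rw [← intervalIntegral.integral_add_adjacent_intervals
    ((nice_sq a).intervalIntegrable (1 / (k : ℝ)) 1) ((nice_sq a).intervalIntegrable 1 (T / k))]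
  have h0 : ∫ x in (1 / (k : ℝ))..1, (EE a x) ^ 2 = ∫ x in (1 / (k : ℝ))..1, (0 : ℝ) := by
    apply intervalIntegral.integral_congr_Ioo_of_le hle
    intro x hx
    simp only [EE_of_lt_one a hx.2]
    norm_num
  rw [h0, intervalIntegral.integral_zero, zero_add]
  rfl

/-- the single correlation -/
theorem corr_bound (a : ℕ → ℝ) {κ T : ℝ} {k : ℕ} (hk : 1 ≤ k) (hT : 1 ≤ T)
    (hmax : II a (T / k) ≤ (k : ℝ) ^ (-(1 + 2 * κ)) * II a T) :
    |∫ x in (1:ℝ)..T, EE a x * EE a (x / k)| ≤ (k : ℝ) ^ (-κ) * II a T := by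
  have hk0 : (0 : ℝ) < k := by exact_mod_cast hk
  set w : ℝ := (k : ℝ) ^ (-κ) with hw
  have hw0 : 0 < w := by positivity
  have hpt : ∀ x : ℝ, |EE a x * EE a (x / k)| ≤ w / 2 * (EE a x) ^ 2 + w⁻¹ / 2 * (EE a (x / k)) ^ 2 := by
    intro x
    rw [abs_mul]
    have h := sq_nonneg (w * |EE a x| - |EE a (x / k)|)
    have e1 : (EE a x) ^ 2 = |EE a x| ^ 2 := (sq_abs _).symm
    have e2 : (EE a (x / k)) ^ 2 = |EE a (x / k)| ^ 2 := (sq_abs _).symm
    rw [e1, e2]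
    have h3 : w / 2 * |EE a x| ^ 2 + w⁻¹ / 2 * |EE a (x / k)| ^ 2 - |EE a x| * |EE a (x / k)|
        = w⁻¹ / 2 * (w * |EE a x| - |EE a (x / k)|) ^ 2 := by
      field_simp
      ring
    have h4 : 0 ≤ w⁻¹ / 2 * (w * |EE a x| - |EE a (x / k)|) ^ 2 := by positivity
    linarith
  have n1 : Nice (fun x => w / 2 * (EE a x) ^ 2) := (nice_sq a).const_mul _
  have n2 : Nice (fun x => w⁻¹ / 2 * (EE a (x / k)) ^ 2) := ((nice_sq a).comp_div hk0).const_mul _
  calc |∫ x in (1:ℝ)..T, EE a x * EE a (x / k)|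
      ≤ ∫ x in (1:ℝ)..T, |EE a x * EE a (x / k)| := intervalIntegral.abs_integral_le_integral_abs hT
    _ ≤ ∫ x in (1:ℝ)..T, (w / 2 * (EE a x) ^ 2 + w⁻¹ / 2 * (EE a (x / k)) ^ 2) := by
        apply intervalIntegral.integral_mono_on hT
        · exact ((((nice_EE a).mul ((nice_EE a).comp_div hk0)).intervalIntegrable 1 T)).abs
        · exact (n1.add n2).intervalIntegrable 1 T
        · intro x _
          exact hpt x
    _ = w / 2 * II a T + w⁻¹ / 2 * (k * II a (T / k)) := by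
        rw [intervalIntegral.integral_add (n1.intervalIntegrable 1 T) (n2.intervalIntegrable 1 T),
          intervalIntegral.integral_const_mul, intervalIntegral.integral_const_mul,
          integral_comp_div_sq a hk]
        rfl
    _ ≤ w / 2 * II a T + w⁻¹ / 2 * (k * ((k : ℝ) ^ (-(1 + 2 * κ)) * II a T)) := by
        gcongr
    _ = w * II a T := by
        have e : w⁻¹ * (k * (k : ℝ) ^ (-(1 + 2 * κ))) = w := by
          rw [hw, ← Real.rpow_neg hk0.le]
          nth_rewrite 2 [← Real.rpow_one (k : ℝ)]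
          rw [← Real.rpow_add hk0, ← Real.rpow_add hk0]
          congr 1
          ring
        calc w / 2 * II a T + w⁻¹ / 2 * (k * ((k : ℝ) ^ (-(1 + 2 * κ)) * II a T))
            = w / 2 * II a T + (w⁻¹ * (k * (k : ℝ) ^ (-(1 + 2 * κ)))) / 2 * II a T := by ring
          _ = w * II a T := by rw [e]; ring

/-- **Task EM-B.** -/
theorem taskB : TaskB := by
  intro κ a g hκ hg1 hsum hquart hbig C
  set p : ℝ := 1 + 2 * κ with hp
  have hp0 : 0 < p := by positivity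
  obtain ⟨T₀, hT₀, hC₀⟩ := hbig (2 * |C|)
  -- the maximum
  have hcont : ContinuousOn (fun t : ℝ => II a t / t ^ p) (Set.Icc 1 T₀) := by
    apply ContinuousOn.div (II_cont a).continuousOn
    · intro t ht
      exact (Real.continuousAt_rpow_const t p (Or.inr hp0.le)).continuousWithinAt
    · intro t ht
      have : 0 < t := lt_of_lt_of_le one_pos ht.1
      positivity
  obtain ⟨T, hT, hmax⟩ := isCompact_Icc.exists_isMaxOn ⟨1, Set.left_mem_Icc.2 hT₀⟩ hcont
  have hT1 : 1 ≤ T := hT.1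
  have hTpos : 0 < T := lt_of_lt_of_le one_pos hT1
  have hTp : 0 < T ^ p := by positivity
  have hJ : ∀ t ∈ Set.Icc 1 T₀, II a t / t ^ p ≤ II a T / T ^ p := fun t ht => hmax ht
  have hbigT : 2 * |C| < II a T / T ^ p := by
    refine lt_of_lt_of_le ?_ (hJ T₀ (Set.right_mem_Icc.2 hT₀))
    have : 0 < T₀ := lt_of_lt_of_le one_pos hT₀
    rw [lt_div_iff₀ (by positivity)]
    exact hC₀
  rw [lt_div_iff₀ hTp] at hbigT
  have hIT : 0 < II a T := lt_of_le_of_lt (by positivity) hbigT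
  -- bound for the pieces
  have hpiece : ∀ k : ℕ, 1 ≤ k → k ≤ ⌊T⌋₊ → II a (T / k) ≤ (k : ℝ) ^ (-p) * II a T := by
    intro k hk hkT
    have hk0 : (0 : ℝ) < k := by exact_mod_cast hk
    have hk1 : (1 : ℝ) ≤ k := by exact_mod_cast hk
    have hkT' : (k : ℝ) ≤ T := (Nat.le_floor_iff hTpos.le).1 hkT
    have h1 : 1 ≤ T / k := by rw [le_div_iff₀ hk0]; linarith
    have h2 : T / k ≤ T₀ := (div_le_self hTpos.le hk1).trans hT.2
    have h3 := hJ (T / k) ⟨h1, h2⟩
    have h4 : 0 < (T / k) ^ p := by positivity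
    rw [div_le_iff₀ h4] at h3
    refine h3.trans (le_of_eq ?_)
    rw [Real.div_rpow hTpos.le hk0.le, Real.rpow_neg hk0.le]
    field_simp
  refine ⟨T, hT1, ?_⟩
  -- expansion
  have hexp : ∫ x in (1:ℝ)..T, EE a x * EE (cv g a) x
      = ∑ k ∈ Icc 1 ⌊T⌋₊, g k * ∫ x in (1:ℝ)..T, EE a x * EE a (x / k) := by
    have h1 : ∫ x in (1:ℝ)..T, EE a x * EE (cv g a) x
        = ∫ x in (1:ℝ)..T, ∑ k ∈ Icc 1 ⌊T⌋₊, g k * (EE a x * EE a (x / k)) := by
      apply intervalIntegral.integral_congr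
      intro x hx
      rw [Set.uIcc_of_le hT1] at hx
      simp only
      rw [EE_cv_le a g hx.2, Finset.mul_sum]
      refine Finset.sum_congr rfl fun k _ => ?_
      ring
    rw [h1, intervalIntegral.integral_finsetSum]
    · refine Finset.sum_congr rfl fun k _ => ?_
      rw [intervalIntegral.integral_const_mul]
    · intro k hk
      have hk0 : (0 : ℝ) < k := by
        have := (Finset.mem_Icc.1 hk).1
        exact_mod_cast this
      exact (((nice_EE a).mul ((nice_EE a).comp_div hk0)).const_mul (g k)).intervalIntegrable 1 T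
  have hfl : 1 ≤ ⌊T⌋₊ := (Nat.le_floor_iff hTpos.le).2 (by exact_mod_cast hT1)
  have hsplit : ∑ k ∈ Icc 1 ⌊T⌋₊, g k * ∫ x in (1:ℝ)..T, EE a x * EE a (x / k)
      = II a T + ∑ k ∈ Icc 2 ⌊T⌋₊, g k * ∫ x in (1:ℝ)..T, EE a x * EE a (x / k) := by
    rw [← Finset.add_sum_Ioc_eq_sum_Icc hfl, hg1]
    congr 1
    · rw [one_mul]
      unfold II
      congr 1
      funext x
      rw [Nat.cast_one, div_one, sq]
  have hrest : |∑ k ∈ Icc 2 ⌊T⌋₊, g k * ∫ x in (1:ℝ)..T, EE a x * EE a (x / k)| ≤ 1 / 4 * II a T := by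
    calc |∑ k ∈ Icc 2 ⌊T⌋₊, g k * ∫ x in (1:ℝ)..T, EE a x * EE a (x / k)|
        ≤ ∑ k ∈ Icc 2 ⌊T⌋₊, |g k * ∫ x in (1:ℝ)..T, EE a x * EE a (x / k)| :=
          Finset.abs_sum_le_sum_abs _ _
      _ ≤ ∑ k ∈ Icc 2 ⌊T⌋₊, (if 2 ≤ k then |g k| * (k : ℝ) ^ (-κ) else 0) * II a T := by
          apply Finset.sum_le_sum
          intro k hk
          rw [Finset.mem_Icc] at hk
          rw [if_pos hk.1, abs_mul, mul_assoc]
          apply mul_le_mul_of_nonneg_left _ (abs_nonneg _)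
          exact corr_bound a (by omega) hT1 (hpiece k (by omega) hk.2)
      _ = (∑ k ∈ Icc 2 ⌊T⌋₊, (if 2 ≤ k then |g k| * (k : ℝ) ^ (-κ) else 0)) * II a T := by
          rw [Finset.sum_mul]
      _ ≤ 1 / 4 * II a T := by
          apply mul_le_mul_of_nonneg_right _ hIT.le
          refine le_trans ?_ hquart
          refine Summable.sum_le_tsum _ (fun k _ => ?_) ?_
          · split_ifs <;> positivity
          · refine Summable.of_nonneg_of_le (fun k => ?_) (fun k => ?_) hsum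
            · split_ifs <;> positivity
            · split_ifs
              · exact le_rfl
              · positivity
  rw [hexp, hsplit]
  have h5 := (abs_le.1 hrest).1
  have h6 : C ≤ |C| := le_abs_self C
  have h7 : C * T ^ p ≤ |C| * T ^ p := mul_le_mul_of_nonneg_right h6 hTp.le
  have h8 : 0 ≤ |C| * T ^ p := by positivity
  have : C * T ^ (1 + 2 * κ) = C * T ^ p := rfl
  nlinarith

end Pool.Agent.H886R3.EMB
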