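import Pool.Agent.H336R4.PF.Defs

/-!
# TASK PF-S (periodicity) of SELBERG-PROJECT part 2
-/

set_option autoImplicit false

open Complex Filter Topology Set FormalMultilinearSeries

namespace Pool.Agent.H886R3.PFS

/-- a power series -/
noncomputable def g (b : ℕ → ℂ) (q : ℂ) : ℂ := ∑' n : ℕ, b n * q ^ n

lemma hasPS {b : ℕ → ℂ} {C : ℝ} (hb : ∀ n : ℕ, ‖b n‖ ≤ C * n) :
    HasFPowerSeriesOnBall (g b) (ofScalars ℂ b) 0 1 := by
  have hrad : 1 ≤ (ofScalars ℂ b).radius := by
    refine ENNReal.le_of_forall_nnreal_lt fun r hr => ?_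
    have hr1 : (r : ℝ) < 1 := by exact_mod_cast hr
    have hs : Summable (fun n : ℕ => C * ((n : ℝ) ^ 1 * (r : ℝ) ^ n)) :=
      (summable_pow_mul_geometric_of_norm_lt_one 1
        (by rw [Real.norm_of_nonneg r.coe_nonneg]; exact hr1)).mul_left C
    refine le_radius_of_summable_norm _ (Summable.of_nonneg_of_le (fun n => by positivity)
      (fun n => ?_) hs)
    rw [ofScalars_norm]
    calc ‖b n‖ * (r : ℝ) ^ n ≤ C * n * (r : ℝ) ^ n :=
          mul_le_mul_of_nonneg_right (hb n) (by positivity)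
      _ = _ := by ring
  have h1 := ((ofScalars ℂ b).hasFPowerSeriesOnBall (lt_of_lt_of_le one_pos hrad)).mono
    one_pos hrad
  have h2 : (ofScalars ℂ b).sum = g b := by
    funext x
    show ∑' n, (ofScalars ℂ b n (fun _ => x)) = _
    unfold g
    refine tsum_congr fun n => ?_
    rw [ofScalars_apply_eq]; rfl
  rwa [h2] at h1

lemma g_analyticAt {b : ℕ → ℂ} {C : ℝ} (hb : ∀ n : ℕ, ‖b n‖ ≤ C * n) {q : ℂ} (hq : ‖q‖ < 1) :
    AnalyticAt ℂ (g b) q := by
  refine (hasPS hb).analyticAt_of_mem ?_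
  simp only [Metric.mem_eball, edist_zero_right]
  rw [← ofReal_norm, ← ENNReal.ofReal_one]
  exact (ENNReal.ofReal_lt_ofReal_iff one_pos).2 hq

lemma norm_exp_neg_lt {z : ℂ} (hz : 0 < z.re) : ‖exp (-z)‖ < 1 := by
  rw [Complex.norm_exp, neg_re]
  rw [Real.exp_lt_one_iff]
  linarith

theorem taskS : Pool.Agent.H336R4.PF.TaskS := by
  intro a hRam H P hH hEq
  obtain ⟨C0, hC0⟩ := hRam 1 one_pos
  set b : ℕ → ℂ := fun n => if n = 0 then 0 else a n with hbdef
  have hb : ∀ n : ℕ, ‖b n‖ ≤ C0 * n := by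
    intro n
    by_cases hn : n = 0
    · simp [b, hn]
    · have := hC0 n (Nat.one_le_iff_ne_zero.2 hn)
      simpa [b, hn] using this
  have hps := hasPS hb
  have hUo : IsOpen {z : ℂ | 0 < z.re} := isOpen_lt continuous_const continuous_re
  -- the identity in the half plane
  have hreal : ∀ x : ℝ, 0 < x → g b (exp (-(x : ℂ))) = P.eval (log (x : ℂ)) / x + H x := by
    intro x hx
    have h := hEq x hx
    rw [ofReal_log hx.le] at h
    rw [← h]
    unfold g
    refine tsum_congr fun n => ?_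
    rw [← Complex.exp_nat_mul]
    congr 2
    ring
  have hfan : AnalyticOnNhd ℂ (fun z : ℂ => g b (exp (-z))) {z | 0 < z.re} := by
    intro z hz
    have h1 : AnalyticAt ℂ (g b) (exp (-z)) := g_analyticAt hb (norm_exp_neg_lt hz)
    have h2 : AnalyticAt ℂ (fun w : ℂ => exp (-w)) z := by fun_prop
    exact AnalyticAt.fun_comp h1 h2
  have hRan : AnalyticOnNhd ℂ (fun z : ℂ => P.eval (log z) / z + H z) {z | 0 < z.re} := by
    refine DifferentiableOn.analyticOnNhd (fun z hz => ?_) hUo
    have hz' : 0 < z.re := hz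
    have hsl : z ∈ slitPlane := Or.inl hz'
    have hz0 : z ≠ 0 := by rintro rfl; simp at hz'
    refine DifferentiableAt.differentiableWithinAt ?_
    refine DifferentiableAt.add ?_ (hH z)
    refine DifferentiableAt.div ?_ differentiableAt_id hz0
    exact (P.differentiable (x := log z)).comp z (Complex.differentiableAt_log hsl)
  have hfreq : ∃ᶠ z in 𝓝[≠] (1 : ℂ), (fun z : ℂ => g b (exp (-z))) z
      = (fun z : ℂ => P.eval (log z) / z + H z) z := by
    have ht : Tendsto (fun n : ℕ => (((1 : ℝ) + 1 / ((n : ℝ) + 1) : ℝ) : ℂ)) atTop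
        (𝓝[≠] (1 : ℂ)) := by
      refine tendsto_nhdsWithin_iff.2 ⟨?_, Eventually.of_forall fun n => ?_⟩
      · have h0 : Tendsto (fun n : ℕ => (1 : ℝ) + 1 / ((n : ℝ) + 1)) atTop (𝓝 (1 + 0)) :=
          tendsto_const_nhds.add tendsto_one_div_add_atTop_nhds_zero_nat
        rw [add_zero] at h0
        have h1 := (Complex.continuous_ofReal.tendsto 1).comp h0
        rw [ofReal_one] at h1
        exact h1
      · intro h
        have h' : (((1 : ℝ) + 1 / ((n : ℝ) + 1) : ℝ) : ℂ) = 1 := h
        have h1 : (1 : ℝ) + 1 / ((n : ℝ) + 1) = 1 := Complex.ofReal_eq_one.1 h'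
        have h2 : (0 : ℝ) < 1 / ((n : ℝ) + 1) := by positivity
        linarith
    refine ht.frequently (Eventually.frequently (Eventually.of_forall fun n => ?_))
    exact hreal _ (by positivity)
  have hpre : IsPreconnected {z : ℂ | 0 < z.re} := (convex_halfSpace_re_gt 0).isPreconnected
  have hkey : ∀ z : ℂ, 0 < z.re → g b (exp (-z)) = P.eval (log z) / z + H z := by
    have h := hfan.eqOn_of_preconnected_of_frequently_eq hRan hpre
      (show (1 : ℂ) ∈ {z : ℂ | 0 < z.re} by simp) hfreq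
    intro z hz
    exact h hz
  have hexp : ∀ z : ℂ, exp (-(z + 2 * Real.pi * I)) = exp (-z) := by
    intro z
    rw [show -(z + 2 * (Real.pi : ℂ) * I) = -z - 2 * Real.pi * I by ring, Complex.exp_sub,
      Complex.exp_two_pi_mul_I, div_one]
  -- P = 0
  have hlim : Tendsto (fun u : ℝ => P.eval (u : ℂ)) atBot (𝓝 0) := by
    have hK : ContinuousAt (fun z : ℂ => P.eval (log (z + 2 * Real.pi * I)) /
        (z + 2 * Real.pi * I) + H (z + 2 * Real.pi * I) - H z) 0 := by
      have hne : (0 : ℂ) + 2 * Real.pi * I ≠ 0 := by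
        rw [zero_add]; exact two_pi_I_ne_zero
      have hsl : (0 : ℂ) + 2 * Real.pi * I ∈ slitPlane := by
        refine Or.inr ?_
        simp [Real.pi_ne_zero]
      have hs : ContinuousAt (fun z : ℂ => z + 2 * Real.pi * I) 0 := by fun_prop
      have h1 : ContinuousAt (fun z : ℂ => log (z + 2 * Real.pi * I)) 0 := hs.clog hsl
      have h2 : ContinuousAt (fun z : ℂ => P.eval (log (z + 2 * Real.pi * I))) 0 :=
        P.continuous.continuousAt.comp' h1
      have h3 : ContinuousAt (fun z : ℂ => H (z + 2 * Real.pi * I)) 0 :=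
        (hH.continuous.continuousAt).comp' hs
      exact ((h2.div hs hne).add h3).sub hH.continuous.continuousAt
    have he : Tendsto (fun u : ℝ => ((Real.exp u : ℝ) : ℂ)) atBot (𝓝 0) := by
      have := (Complex.continuous_ofReal.tendsto 0).comp Real.tendsto_exp_atBot
      rwa [ofReal_zero] at this
    have hprod := he.mul (hK.tendsto.comp he)
    rw [zero_mul] at hprod
    refine hprod.congr fun u => ?_
    have hx : 0 < Real.exp u := Real.exp_pos u
    have hx0 : ((Real.exp u : ℝ) : ℂ) ≠ 0 := ofReal_ne_zero.2 hx.ne'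
    have h1 := hkey (Real.exp u : ℝ) (by rw [ofReal_re]; exact hx)
    have hre : ((((Real.exp u : ℝ) : ℂ) + 2 * Real.pi * I)).re = Real.exp u := by
      simp [-Complex.ofReal_exp]
    have h2 := hkey (((Real.exp u : ℝ) : ℂ) + 2 * Real.pi * I) (by rw [hre]; exact hx)
    rw [hexp, h1] at h2
    rw [← ofReal_log hx.le, Real.log_exp] at h1 h2
    have h3 : P.eval (log (((Real.exp u : ℝ) : ℂ) + 2 * Real.pi * I)) /
        (((Real.exp u : ℝ) : ℂ) + 2 * Real.pi * I) + H (((Real.exp u : ℝ) : ℂ) + 2 * Real.pi * I)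
        - H ((Real.exp u : ℝ) : ℂ) = P.eval (u : ℂ) / ((Real.exp u : ℝ) : ℂ) := by
      rw [← h2]; ring
    simp only [Function.comp_apply]
    rw [h3]
    field_simp
  have hP : P = 0 := by
    by_cases hd : 0 < P.degree
    · exfalso
      have h1 : Tendsto (fun u : ℝ => ‖P.eval (u : ℂ)‖) atBot atTop := by
        refine P.tendsto_norm_atTop hd ?_
        simp only [Complex.norm_real, Real.norm_eq_abs]
        exact tendsto_abs_atBot_atTop
      exact not_tendsto_nhds_of_tendsto_atTop h1 _ hlim.norm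
    · have hc := Polynomial.eq_C_of_degree_le_zero (not_lt.1 hd)
      rw [hc] at hlim
      simp only [Polynomial.eval_C] at hlim
      have := tendsto_nhds_unique hlim tendsto_const_nhds
      rw [hc, ← this, Polynomial.C_0]
  refine ⟨hP, ?_⟩
  -- periodicity of H
  have hgH : ∀ z : ℂ, 0 < z.re → g b (exp (-z)) = H z := by
    intro z hz
    rw [hkey z hz, hP]; simp
  have hper : ∀ z : ℂ, H (z + 2 * Real.pi * I) = H z := by
    have h1 : AnalyticOnNhd ℂ (fun z : ℂ => H (z + 2 * Real.pi * I)) univ :=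
      (hH.comp (by fun_prop : Differentiable ℂ (fun z : ℂ => z + 2 * Real.pi * I))).differentiableOn.analyticOnNhd isOpen_univ
    have h2 : AnalyticOnNhd ℂ H univ := hH.differentiableOn.analyticOnNhd isOpen_univ
    have h3 : (fun z : ℂ => H (z + 2 * Real.pi * I)) =ᶠ[𝓝 (1 : ℂ)] H := by
      filter_upwards [hUo.mem_nhds (show (1 : ℂ) ∈ {z : ℂ | 0 < z.re} by simp)] with z hz
      have hz' : 0 < z.re := hz
      rw [← hgH z hz', ← hgH (z + 2 * Real.pi * I) (by simpa using hz'), hexp]
    have := h1.eq_of_eventuallyEq h2 h3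
    intro z
    exact congrFun this z
  -- the cusp function
  set F : ℂ → ℂ := fun z => H (-(2 * Real.pi * I * z)) with hF
  have hFd : Differentiable ℂ F := hH.comp (by fun_prop)
  have hFp : Function.Periodic F ((1 : ℝ) : ℂ) := by
    intro z
    show H (-(2 * Real.pi * I * (z + ((1 : ℝ) : ℂ)))) = H (-(2 * Real.pi * I * z))
    rw [← hper (-(2 * Real.pi * I * (z + ((1 : ℝ) : ℂ))))]
    congr 1
    push_cast
    ring
  have hFg : ∀ z : ℂ, 0 < z.im → F z = g b (Function.Periodic.qParam 1 z) := by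
    intro z hz
    have h1 : 0 < (-(2 * Real.pi * I * z) : ℂ).re := by
      have : (-(2 * Real.pi * I * z) : ℂ).re = 2 * Real.pi * z.im := by
        simp [mul_re, mul_im]
      rw [this]; positivity
    show H (-(2 * Real.pi * I * z)) = _
    rw [← hgH _ h1, neg_neg]
    unfold Function.Periodic.qParam
    simp
  have hgc : ContinuousAt (g b) 0 := (g_analyticAt hb (by simp)).continuousAt
  have hFb : BoundedAtFilter (comap im atTop) F := by
    have ht : Tendsto F (comap im atTop) (𝓝 (g b 0)) := by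
      have h1 : Tendsto (Function.Periodic.qParam 1) (comap im atTop) (𝓝 0) :=
        (Function.Periodic.qParam_tendsto one_pos).mono_right nhdsWithin_le_nhds
      refine (hgc.tendsto.comp h1).congr' ?_
      have h2 : ∀ᶠ z : ℂ in comap im atTop, 0 < z.im :=
        (eventually_gt_atTop (0 : ℝ)).comap im
      filter_upwards [h2] with z hz
      exact (hFg z hz).symm
    exact ht.isBigO_one ℝ
  set Φ : ℂ → ℂ := Function.Periodic.cuspFunction 1 F with hΦ
  have hΦd : Differentiable ℂ Φ := by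
    intro q
    by_cases hq : q = 0
    · rw [hq]
      exact Function.Periodic.differentiableAt_cuspFunction_zero one_pos hFp
        (Eventually.of_forall fun z => hFd z) hFb
    · have h := Function.Periodic.differentiableAt_cuspFunction one_ne_zero hFp
        (hFd (Function.Periodic.invQParam 1 q))
      rwa [Function.Periodic.qParam_right_inv one_ne_zero hq] at h
  have hΦne : ∀ q : ℂ, q ≠ 0 → ‖q‖ < 1 → Φ q = g b q := by
    intro q hq hq1
    rw [hΦ, Function.Periodic.cuspFunction_eq_of_nonzero _ _ hq, hFg,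
      Function.Periodic.qParam_right_inv one_ne_zero hq]
    rw [Function.Periodic.im_invQParam]
    have hl : Real.log ‖q‖ < 0 := Real.log_neg (norm_pos_iff.2 hq) hq1
    have hpi := Real.pi_pos
    have : -1 / (2 * Real.pi) < 0 := div_neg_of_neg_of_pos (by norm_num) (by positivity)
    exact mul_pos_of_neg_of_neg this hl
  have hball : ∀ᶠ q : ℂ in 𝓝 0, ‖q‖ < 1 := by
    filter_upwards [Metric.ball_mem_nhds (0 : ℂ) one_pos] with q hq
    simpa using hq
  have hΦ0 : Φ 0 = g b 0 := by
    have h1 : Tendsto Φ (𝓝[≠] 0) (𝓝 (Φ 0)) :=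
      (hΦd 0).continuousAt.tendsto.mono_left nhdsWithin_le_nhds
    have h2 : Tendsto (g b) (𝓝[≠] 0) (𝓝 (g b 0)) := hgc.tendsto.mono_left nhdsWithin_le_nhds
    refine tendsto_nhds_unique h1 (h2.congr' ?_)
    filter_upwards [nhdsWithin_le_nhds hball, self_mem_nhdsWithin] with q hq hq0
    exact (hΦne q hq0 hq).symm
  have hΦg : ∀ᶠ q : ℂ in 𝓝 0, g b q = Φ q := by
    filter_upwards [hball] with q hq
    by_cases hq0 : q = 0
    · rw [hq0, hΦ0]
    · exact (hΦne q hq0 hq).symm
  have hps' : HasFPowerSeriesAt Φ (ofScalars ℂ b) 0 := hps.hasFPowerSeriesAt.congr hΦg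
  intro R hR
  have hρ : (0 : NNReal) < Real.toNNReal R⁻¹ := Real.toNNReal_pos.2 (inv_pos.2 hR)
  have hc := (hΦd.hasFPowerSeriesOnBall 0 hρ).hasFPowerSeriesAt
  rw [Real.coe_toNNReal _ (inv_pos.2 hR).le] at hc
  have heq := hps'.eq_formalMultilinearSeries hc
  refine ⟨(2 * Real.pi)⁻¹ * ∫ θ : ℝ in 0..2 * Real.pi, ‖Φ (circleMap 0 R⁻¹ θ)‖, fun n hn => ?_⟩
  have h1 : ‖a n‖ = ‖ofScalars ℂ b n‖ := by
    rw [ofScalars_norm]
    simp [b, Nat.one_le_iff_ne_zero.1 hn]
  rw [h1, heq]
  have h2 := norm_cauchyPowerSeries_le Φ 0 R⁻¹ n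
  rw [abs_of_pos (inv_pos.2 hR), inv_inv] at h2
  exact h2

end Pool.Agent.H886R3.PFS
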