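import Mathlib
import Pool.Agent.H639R3.Z.Gal
import Pool.Agent.H335R3.ZF.Stmts

/-!
# ZP P6-KS: the decomposition group of a valuation ring surjects onto the automorphisms of the
residue field (infinite Galois extensions)
(the set-up is adapted from `Pool.Agent.H639R3.exists_aut`)
-/

set_option autoImplicit false

namespace Pool.Agent.H886R3.KS

open Pool.Agent.H639R3 IsDedekindDomain

/-- Elements of a valuation ring are integral over `A` up to the maximal ideal. -/
theorem exists_int {F L A : Type} [Field F] [Field L] [Algebra F L] [IsGalois F L]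
    [CommRing A] [IsDedekindDomain A] [Algebra A F] [IsFractionRing A F] [Algebra A L]
    [IsScalarTower A F L]
    (w : ValuationSubring L) (hA : ∀ a : A, algebraMap A L a ∈ w)
    (hne : w.comap (algebraMap F L) ≠ ⊤) (z : L) (hz : z ∈ w) :
    ∃ c : L, IsIntegral A c ∧ w.valuation (c - z) < 1 := by
  set M := IntermediateField.adjoin F {z} with hM
  have hfd : FiniteDimensional F M :=
    IntermediateField.adjoin.finiteDimensional (Algebra.IsIntegral.isIntegral z)
  have hzM : z ∈ M := IntermediateField.mem_adjoin_simple_self F z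
  let _ : Algebra A M := ((algebraMap F M).comp (algebraMap A F)).toAlgebra
  have htowM : IsScalarTower A F M := .of_algebraMap_eq fun _ => rfl
  have htowML : IsScalarTower A M L := .of_algebraMap_eq fun x => by
    rw [IsScalarTower.algebraMap_apply A F L]; rfl
  have hD : IsDedekindDomain (integralClosure A M) := integralClosure.isDedekindDomain A F (L := M)
  have hFr : IsFractionRing (integralClosure A M) M :=
    integralClosure.isFractionRing_of_finite_extension F M
  have hneM : w.comap (algebraMap M L) ≠ ⊤ := by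
    intro htop
    apply hne
    rw [eq_top_iff]
    intro y _
    have h1 : algebraMap F M y ∈ w.comap (algebraMap M L) := by rw [htop]; trivial
    exact h1
  have h1 : ∀ a : integralClosure A M, algebraMap (integralClosure A M) M a ∈
      w.comap (algebraMap M L) := fun a =>
    integral_mem (w.comap (algebraMap M L)) (fun x => by
      rw [ValuationSubring.mem_comap, ← IsScalarTower.algebraMap_apply A M L]
      exact hA x) a a.2
  have hzw : (⟨z, hzM⟩ : M) ∈ w.comap (algebraMap M L) := hz
  obtain ⟨c, hc⟩ := residue_surjective (w.comap (algebraMap M L)) h1 hneM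
    (IsLocalRing.residue _ ⟨⟨z, hzM⟩, hzw⟩)
  refine ⟨algebraMap M L (algebraMap (integralClosure A M) M c), ?_, ?_⟩
  · have h2 : IsIntegral A (algebraMap (integralClosure A M) M c) := c.2
    exact h2.algebraMap
  · rw [RingHom.comp_apply, ← sub_eq_zero, ← map_sub, IsLocalRing.residue_eq_zero_iff,
      ValuationSubring.valuation_lt_one_iff] at hc
    have h3 := (comap_val_lt_one w (algebraMap M L) _).1 hc
    exact h3

/-- Membership in a valuation ring is determined by the integral elements. -/
theorem mem_iff_of_int {F L A : Type} [Field F] [Field L] [Algebra F L] [IsGalois F L]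
    [CommRing A] [IsDedekindDomain A] [Algebra A F] [IsFractionRing A F] [Algebra A L]
    [IsScalarTower A F L]
    (w w' : ValuationSubring L) (hA : ∀ a : A, algebraMap A L a ∈ w)
    (hA' : ∀ a : A, algebraMap A L a ∈ w')
    (hne : w.comap (algebraMap F L) ≠ ⊤) (hne' : w'.comap (algebraMap F L) ≠ ⊤)
    (τ : L ≃ₐ[F] L)
    (hσ2 : ∀ c : L, IsIntegral A c → (w'.valuation c < 1 ↔ w.valuation (τ c) < 1)) (z : L) :
    z ∈ w' ↔ τ z ∈ w := by
  set M := IntermediateField.adjoin F {z} with hM
  have hfd : FiniteDimensional F M :=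
    IntermediateField.adjoin.finiteDimensional (Algebra.IsIntegral.isIntegral z)
  have hzM : z ∈ M := IntermediateField.mem_adjoin_simple_self F z
  let _ : Algebra A M := ((algebraMap F M).comp (algebraMap A F)).toAlgebra
  have htowM : IsScalarTower A F M := .of_algebraMap_eq fun _ => rfl
  have htowML : IsScalarTower A M L := .of_algebraMap_eq fun x => by
    rw [IsScalarTower.algebraMap_apply A F L]; rfl
  have hne1 : ∀ O : ValuationSubring L, O.comap (algebraMap F L) ≠ ⊤ →
      O.comap (algebraMap M L) ≠ ⊤ := by
    intro O hO htop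
    apply hO
    rw [eq_top_iff]
    intro y _
    have h1 : algebraMap F M y ∈ O.comap (algebraMap M L) := by rw [htop]; trivial
    exact h1
  have heq : w'.comap (algebraMap M L) =
      (w.comap ((τ : L ≃ₐ[F] L) : L →+* L)).comap (algebraMap M L) := by
    have hfix : ∀ y : F, (τ : L ≃ₐ[F] L) (algebraMap F L y) = algebraMap F L y := fun y =>
      AlgEquiv.commutes _ _
    apply eq_of_integral_nonunits (A := A) (F := F)
    · intro a
      rw [ValuationSubring.mem_comap, ← IsScalarTower.algebraMap_apply A M L]
      exact hA' a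
    · intro a
      rw [ValuationSubring.mem_comap, ValuationSubring.mem_comap,
        ← IsScalarTower.algebraMap_apply A M L, IsScalarTower.algebraMap_apply A F L]
      change (τ : L ≃ₐ[F] L) (algebraMap F L (algebraMap A F a)) ∈ w
      rw [hfix, ← IsScalarTower.algebraMap_apply A F L]
      exact hA a
    · exact hne1 w' hne'
    · apply hne1
      intro htop
      apply hne
      rw [eq_top_iff]
      intro y _
      have h1 : y ∈ (w.comap ((τ : L ≃ₐ[F] L) : L →+* L)).comap (algebraMap F L) := by
        rw [htop]; trivial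
      rw [ValuationSubring.mem_comap, ValuationSubring.mem_comap] at h1
      have h2 : ((τ : L ≃ₐ[F] L) : L →+* L) (algebraMap F L y) = algebraMap F L y := hfix y
      rw [h2] at h1
      exact h1
    · intro c hc
      have hcL : IsIntegral A (c : L) := by
        have : IsIntegral A (algebraMap M L c) := hc.algebraMap
        exact this
      have h1 := hσ2 (c : L) hcL
      rw [comap_val_lt_one, comap_val_lt_one, comap_val_lt_one]
      exact h1
  have h1 : (⟨z, hzM⟩ : M) ∈ w'.comap (algebraMap M L) ↔
      (⟨z, hzM⟩ : M) ∈ (w.comap ((τ : L ≃ₐ[F] L) : L →+* L)).comap (algebraMap M L) := by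
    rw [heq]
  exact h1

open scoped Pointwise in
theorem taskKS : Pool.Agent.H335R3.ZF.TaskKS := by
  intro F L A _ _ _ _ _ _ _ _ w hA hne g hg
  let _ : Algebra A L := ((algebraMap F L).comp (algebraMap A F)).toAlgebra
  have htow : IsScalarTower A F L := .of_algebraMap_eq fun _ => rfl
  have halgA : Algebra.IsAlgebraic A L :=
    (IsFractionRing.comap_isAlgebraic_iff (A := A) (K := F) (C := L)).mpr inferInstance
  have hinjAL : Function.Injective (algebraMap A L) := by
    rw [IsScalarTower.algebraMap_eq A F L]
    exact (algebraMap F L).injective.comp (IsFractionRing.injective A F)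
  have htf : IsDomain (integralClosure A L) := inferInstance
  have hFr : IsFractionRing (integralClosure A L) L :=
    integralClosure.isFractionRing_of_algebraic (fun x hx => hinjAL (by rw [hx, map_zero]))
  let _ : MulSemiringAction (L ≃ₐ[F] L) (integralClosure A L) :=
    IsIntegralClosure.MulSemiringAction A F L (integralClosure A L)
  have hsmul : ∀ (σ : L ≃ₐ[F] L) (c : integralClosure A L), ((σ • c : integralClosure A L) : L) =
      σ c := fun σ c => algebraMap_galRestrict_apply A σ c
  let _ : TopologicalSpace (integralClosure A L) := ⊥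
  have hdisc : DiscreteTopology (integralClosure A L) := ⟨rfl⟩
  have hcont : ContinuousSMul (L ≃ₐ[F] L) (integralClosure A L) := by
    refine (continuousSMul_iff_stabilizer_isOpen (M := L ≃ₐ[F] L)
      (X := integralClosure A L)).mpr fun c => ?_
    have h1 := stabilizer_isOpen_of_isIntegral (K := F) (L := L) (c : L)
    convert h1 using 1
    ext σ
    simp only [SetLike.mem_coe, MulAction.mem_stabilizer_iff]
    constructor
    · intro h2
      have h3 := congrArg (fun z : integralClosure A L => (z : L)) h2
      simp only [hsmul] at h3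
      exact h3
    · intro h2
      apply Subtype.ext
      rw [hsmul]
      exact h2
  have hcomm : SMulCommClass (L ≃ₐ[F] L) A (integralClosure A L) := by
    constructor
    intro σ a c
    apply Subtype.ext
    rw [hsmul]
    change σ (a • (c : L)) = a • ((σ • c : integralClosure A L) : L)
    rw [hsmul, Algebra.smul_def, Algebra.smul_def, map_mul]
    congr 1
    rw [IsScalarTower.algebraMap_apply A F L, AlgEquiv.commutes]
  have hinv : Algebra.IsInvariant A (integralClosure A L) (L ≃ₐ[F] L) := by
    refine ⟨fun b hb => ?_⟩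
    have hb2 : ∀ σ : L ≃ₐ[F] L, σ (b : L) = b := fun σ => by rw [← hsmul, hb σ]
    obtain ⟨y, hy⟩ := (InfiniteGalois.mem_range_algebraMap_iff_fixed (k := F) (K := L) (b : L)).mpr hb2
    have hy2 : IsIntegral A y := by
      have := b.2
      rw [mem_integralClosure_iff, ← hy] at this
      exact (isIntegral_algebraMap_iff (algebraMap F L).injective).mp this
    obtain ⟨a, ha⟩ := IsIntegrallyClosed.isIntegral_iff.mp hy2
    refine ⟨a, ?_⟩
    apply Subtype.ext
    change algebraMap A L a = (b : L)
    rw [← hy, ← ha, ← IsScalarTower.algebraMap_apply]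
  have hAw : ∀ a : A, algebraMap A L a ∈ w := hA
  have hC : ∀ c : integralClosure A L, algebraMap (integralClosure A L) L c ∈ w := fun c =>
    integral_mem w hAw c c.2
  -- the residue map on the integral closure
  let ρ : integralClosure A L →+* IsLocalRing.ResidueField w :=
    (IsLocalRing.residue w).comp ((algebraMap (integralClosure A L) L).codRestrict w.toSubring hC)
  have hρ0 : ∀ c : integralClosure A L, ρ c = IsLocalRing.residue w ⟨(c : L), hC c⟩ := fun c => rfl
  have hresid : ∀ (x y : L) (hx : x ∈ w) (hy : y ∈ w), w.valuation (x - y) < 1 →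
      IsLocalRing.residue w ⟨x, hx⟩ = IsLocalRing.residue w ⟨y, hy⟩ := by
    intro x y hx hy h
    rw [← sub_eq_zero, ← map_sub, IsLocalRing.residue_eq_zero_iff,
      ValuationSubring.valuation_lt_one_iff]
    exact h
  have hρs : Function.Surjective ρ := by
    intro r
    obtain ⟨z, rfl⟩ := IsLocalRing.residue_surjective r
    obtain ⟨c, hc, hcz⟩ := exists_int (A := A) w hAw hne z z.2
    exact ⟨⟨c, hc⟩, hresid _ _ _ _ hcz⟩
  have hker : cent w hC = RingHom.ker ρ := by
    ext c
    rw [mem_cent, RingHom.mem_ker, hρ0, IsLocalRing.residue_eq_zero_iff,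
      ValuationSubring.valuation_lt_one_iff]
    rfl
  let e : (integralClosure A L ⧸ cent w hC) ≃+* IsLocalRing.ResidueField w :=
    (Ideal.quotEquivOfEq hker).trans (RingHom.quotientKerEquivOfSurjective hρs)
  have he : ∀ c : integralClosure A L, e (Ideal.Quotient.mk _ c) = ρ c := fun c => rfl
  let g' : (integralClosure A L ⧸ cent w hC) ≃+* (integralClosure A L ⧸ cent w hC) :=
    (e.trans g).trans e.symm
  have hg' : ∀ x, e (g' x) = g (e x) := fun x => by
    show e (e.symm (g (e x))) = g (e x)
    exact e.apply_symm_apply _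
  have hlo : (cent w hC).LiesOver ((cent w hC).under A) := ⟨rfl⟩
  let g'' : (integralClosure A L ⧸ cent w hC) ≃ₐ[A ⧸ (cent w hC).under A]
      (integralClosure A L ⧸ cent w hC) :=
    AlgEquiv.ofRingEquiv (f := g') (by
      intro r
      obtain ⟨a, rfl⟩ := Ideal.Quotient.mk_surjective r
      apply e.injective
      rw [hg']
      have h1 : algebraMap (A ⧸ (cent w hC).under A) (integralClosure A L ⧸ cent w hC)
          (Ideal.Quotient.mk _ a) = Ideal.Quotient.mk _ (algebraMap A (integralClosure A L) a) := rfl
      rw [h1, he, hρ0]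
      exact hg (algebraMap A F a) (hA a))
  obtain ⟨σ, hσ⟩ := Ideal.Quotient.stabilizerHom_surjective_of_profinite
    (G := L ≃ₐ[F] L) ((cent w hC).under A) (cent w hC) g''
  have hσ1 : ∀ c : integralClosure A L, ρ ((σ : L ≃ₐ[F] L) • c) = g (ρ c) := by
    intro c
    have h1 := DFunLike.congr_fun hσ (Ideal.Quotient.mk _ c)
    have h2 := congrArg e h1
    have h3 : e (g'' (Ideal.Quotient.mk _ c)) = g (ρ c) := by
      rw [← he]
      exact hg' _
    rw [h3] at h2
    exact h2
  have hσ2 : ∀ c : L, IsIntegral A c →
      (w.valuation c < 1 ↔ w.valuation ((σ : L ≃ₐ[F] L) c) < 1) := by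
    intro c hc
    have h0 := hσ1 ⟨c, hc⟩
    have h1 : w.valuation c < 1 ↔ ρ ⟨c, hc⟩ = 0 := by
      rw [hρ0, IsLocalRing.residue_eq_zero_iff, ValuationSubring.valuation_lt_one_iff]
    have h2 : w.valuation ((σ : L ≃ₐ[F] L) c) < 1 ↔ ρ ((σ : L ≃ₐ[F] L) • ⟨c, hc⟩) = 0 := by
      rw [hρ0, IsLocalRing.residue_eq_zero_iff, ValuationSubring.valuation_lt_one_iff]
      show _ ↔ w.valuation (((σ : L ≃ₐ[F] L) • (⟨c, hc⟩ : integralClosure A L) :
        integralClosure A L) : L) < 1
      rw [hsmul]
    rw [h1, h2, h0]
    exact (map_eq_zero_iff g g.injective).symm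
  have hstab : ∀ a, a ∈ w ↔ (σ : L ≃ₐ[F] L) a ∈ w := fun z =>
    mem_iff_of_int (A := A) w w hAw hAw hne hne σ hσ2 z
  refine ⟨σ, hstab, fun a ha => ?_⟩
  obtain ⟨c, hc, hcz⟩ := exists_int (A := A) w hAw hne a ha
  have hcw : c ∈ w := hC ⟨c, hc⟩
  have hval : ∀ x : L, w.valuation x < 1 → w.valuation ((σ : L ≃ₐ[F] L) x) < 1 := by
    intro x hx
    rw [val_lt_one_iff] at hx ⊢
    rcases hx with hx | hx
    · left; rw [hx, map_zero]
    · right
      rw [← map_inv₀]
      intro h
      exact hx ((hstab _).2 h)
  have h1 : IsLocalRing.residue w ⟨(σ : L ≃ₐ[F] L) a, (hstab a).1 ha⟩ =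
      IsLocalRing.residue w ⟨(σ : L ≃ₐ[F] L) c, (hstab c).1 hcw⟩ := by
    symm
    apply hresid
    rw [← map_sub]
    exact hval _ hcz
  have h2 : IsLocalRing.residue w ⟨a, ha⟩ = IsLocalRing.residue w ⟨c, hcw⟩ :=
    (hresid _ _ _ _ hcz).symm
  rw [h1, h2]
  have h3 := hσ1 ⟨c, hc⟩
  rw [hρ0, hρ0] at h3
  rw [← h3]
  refine congrArg _ (Subtype.ext ?_)
  exact (hsmul (σ : L ≃ₐ[F] L) ⟨c, hc⟩).symm

end Pool.Agent.H886R3.KS
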