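import Mathlib
import Pool.Agent.H355R3.UF.Stmts

/-!
# H355-UF, TaskH2
-/

set_option autoImplicit false

namespace Pool.Agent.H886R3.UFH2

open H355R3 H355R3.UF RegularWreathProduct

/-- the right part -/
def rr {M G : Type} [Group M] [Group G] (R : Subgroup (RegularWreathProduct M G)) [R.Normal]
    (K : Type) [Group K] : sliceSub R K →* G × K :=
  rightHom.comp (sliceSub R K).subtype

theorem rr_apply {M G : Type} [Group M] [Group G] (R : Subgroup (RegularWreathProduct M G))
    [R.Normal] (K : Type) [Group K] (s : sliceSub R K) :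
    rr R K s = (s : RegularWreathProduct M (G × K)).right := rfl

theorem rr_surj {M G : Type} [Group M] [Group G] (R : Subgroup (RegularWreathProduct M G))
    [R.Normal] (K : Type) [Group K] : Function.Surjective (rr R K) := fun p =>
  ⟨⟨⟨1, p⟩, fun _ => R.one_mem⟩, rfl⟩

/-- the slice at `k` -/
def psi {M G : Type} [Group M] [Group G] (R : Subgroup (RegularWreathProduct M G)) [R.Normal]
    (K : Type) [Group K] (S : Subgroup (sliceSub R K))
    (hS : ∀ s ∈ S, ((s : sliceSub R K) : RegularWreathProduct M (G × K)).right.2 = 1) (k : K) :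
    S →* RegularWreathProduct M G where
  toFun s := ⟨fun g => ((s : sliceSub R K) : RegularWreathProduct M (G × K)).left (g, k),
    ((s : sliceSub R K) : RegularWreathProduct M (G × K)).right.1⟩
  map_one' := rfl
  map_mul' a b := by
    apply RegularWreathProduct.ext
    · funext g
      have h1 := hS a a.2
      have h2 : (((a : sliceSub R K) : RegularWreathProduct M (G × K)).right)⁻¹ * (g, k) =
          ((((a : sliceSub R K) : RegularWreathProduct M (G × K)).right.1)⁻¹ * g, k) := by
        apply Prod.ext
        · rfl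
        · show (((a : sliceSub R K) : RegularWreathProduct M (G × K)).right.2)⁻¹ * k = k
          rw [h1, inv_one, one_mul]
      show ((a : sliceSub R K) : RegularWreathProduct M (G × K)).left (g, k) *
          ((b : sliceSub R K) : RegularWreathProduct M (G × K)).left
            ((((a : sliceSub R K) : RegularWreathProduct M (G × K)).right)⁻¹ * (g, k)) = _
      rw [h2]
      rfl
    · rfl

/-- powers of a monomial element -/
theorem pow_left {M G K : Type} [Group M] [Group G] [Group K]
    (w : RegularWreathProduct M (G × K)) (z : K) (k : K) (f : G → M)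
    (hr : w.right = (1, z)) (h1 : ∀ g, w.left (g, k) = f g)
    (h2 : ∀ g k', k' ≠ k → w.left (g, k') = 1) (m : ℕ) :
    (w ^ m).right = (1, z ^ m) ∧
      (m + 1 ≤ orderOf z → ∀ g, (w ^ (m + 1)).left (g, k) = f g) := by
  have hright : ∀ m : ℕ, (w ^ m).right = (1, z ^ m) := by
    intro m
    have h3 : (rightHom (w ^ m) : G × K) = (rightHom w) ^ m := map_pow _ _ _
    have h4 : (w ^ m).right = w.right ^ m := h3
    rw [h4, hr]
    apply Prod.ext
    · simp
    · simp
  refine ⟨hright m, ?_⟩
  induction m with
  | zero =>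
    intro _ g
    rw [zero_add, pow_one]
    exact h1 g
  | succ m ih =>
    intro hm g
    have h3 : (w ^ (m + 1 + 1)).left (g, k) =
        (w ^ (m + 1)).left (g, k) * w.left (((w ^ (m + 1)).right)⁻¹ * (g, k)) := by
      rw [pow_succ w (m + 1)]
      rfl
    rw [h3, ih (by omega) g, hright]
    have h4 : ((1, z ^ (m + 1)) : G × K)⁻¹ * (g, k) = (g, (z ^ (m + 1))⁻¹ * k) := by
      apply Prod.ext
      · simp
      · simp
    rw [h4, h2 g _ ?_, mul_one]
    intro h5
    have h6 : z ^ (m + 1) = 1 := by
      have h7 : (z ^ (m + 1))⁻¹ = 1 := by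
        have := congrArg (fun t => t * k⁻¹) h5
        simpa using this
      exact inv_eq_one.1 h7
    have h8 := orderOf_dvd_of_pow_eq_one h6
    have h9 := Nat.le_of_dvd (Nat.succ_pos m) h8
    omega

theorem taskH2 : TaskH2 := by
  classical
  intro hH1 C D M G K _ _ _ _ _ _ z hDK hord hGne hCU
  set U := D.residual (RegularWreathProduct M G) with hU
  set J := sliceSub U K with hJ
  set R := D.residual J with hR
  have hrK : Function.Surjective ((MonoidHom.snd G K).comp (rr U K)) :=
    Prod.snd_surjective.comp (rr_surj U K)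
  have hrG : Function.Surjective ((MonoidHom.fst G K).comp (rr U K)) :=
    Prod.fst_surjective.comp (rr_surj U K)
  have hRK : R ≤ ((MonoidHom.snd G K).comp (rr U K)).ker :=
    (D.residual_le_ker_iff _ hrK).2 hDK
  have hR2 : ∀ s ∈ R, ((s : J) : RegularWreathProduct M (G × K)).right.2 = 1 := fun s hs => hRK hs
  have hRG : R.map ((MonoidHom.fst G K).comp (rr U K)) = D.residual G := D.map_residual _ hrG
  have hUG : U.map (rightHom : RegularWreathProduct M G →* G) = D.residual G :=
    D.map_residual _ rightHom_surj
  -- pure right elements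
  have hpure : ∀ y ∈ D.residual G, (⟨1, y⟩ : RegularWreathProduct M G) ∈ U := by
    intro y hy
    rw [← hUG] at hy
    obtain ⟨u, hu, rfl⟩ := hy
    have h1 := hH1 D M G hGne u hu
    have h2 := U.mul_mem (U.inv_mem h1) hu
    have h3 : (⟨u.left, 1⟩ : RegularWreathProduct M G) * ⟨1, rightHom u⟩ = u := by
      apply RegularWreathProduct.ext
      · funext x
        simp
      · simp
    have h4 : (⟨u.left, 1⟩ : RegularWreathProduct M G)⁻¹ * u = ⟨1, rightHom u⟩ := by
      rw [inv_mul_eq_iff_eq_mul]
      exact h3.symm
    rwa [h4] at h2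
  -- the image of psi lies in U
  have himg : ∀ (k : K) (s : R), psi U K R hR2 k s ∈ U := by
    intro k s
    have h1 : (⟨fun g => ((s : J) : RegularWreathProduct M (G × K)).left (g, k), 1⟩ :
        RegularWreathProduct M G) ∈ U := (s : J).2 k
    have h2 : ((s : J) : RegularWreathProduct M (G × K)).right.1 ∈ D.residual G := by
      rw [← hRG]
      exact ⟨s, s.2, rfl⟩
    have h3 := U.mul_mem h1 (hpure _ h2)
    convert h3 using 1
    apply RegularWreathProduct.ext
    · funext g
      simp [psi]
    · simp [psi]
  -- base elements are in the image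
  have hbase : ∀ (k : K) (f : G → M), (⟨f, 1⟩ : RegularWreathProduct M G) ∈ U →
      ∃ s : R, psi U K R hR2 k s = ⟨f, 1⟩ := by
    intro k f hf
    let w : RegularWreathProduct M (G × K) :=
      ⟨fun p => if p.2 = k then f p.1 else 1, (1, z)⟩
    have hw : w ∈ J := by
      intro k'
      by_cases hk : k' = k
      · have : (⟨fun g => w.left (g, k'), 1⟩ : RegularWreathProduct M G) = ⟨f, 1⟩ := by
          apply RegularWreathProduct.ext
          · funext g
            exact if_pos hk
          · rfl
        rw [this]
        exact hf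
      · have : (⟨fun g => w.left (g, k'), 1⟩ : RegularWreathProduct M G) = 1 := by
          apply RegularWreathProduct.ext
          · funext g
            exact if_neg hk
          · rfl
        rw [this]
        exact U.one_mem
    have hz : 0 < orderOf z := orderOf_pos z
    have hpow := fun m => pow_left w z k f rfl (fun g => if_pos rfl)
      (fun g k' hk => if_neg hk) m
    have hmem : (⟨w, hw⟩ : J) ^ orderOf z ∈ R := by
      rw [← QuotientGroup.eq_one_iff]
      have h1 : orderOf (((⟨w, hw⟩ : J) : J ⧸ R)) ≤ orderOf z :=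
        hord (J ⧸ R) (D.mem_quot_residual J) _
      have h2 : orderOf z ∣ orderOf (((⟨w, hw⟩ : J) : J ⧸ R)) := by
        have h3 := orderOf_map_dvd (QuotientGroup.lift R ((MonoidHom.snd G K).comp (rr U K)) hRK)
          (((⟨w, hw⟩ : J) : J ⧸ R))
        exact h3
      have h3 : orderOf (((⟨w, hw⟩ : J) : J ⧸ R)) = orderOf z :=
        le_antisymm h1 (Nat.le_of_dvd (orderOf_pos _) h2)
      have h4 := pow_orderOf_eq_one (((⟨w, hw⟩ : J) : J ⧸ R))
      rw [h3] at h4
      exact h4
    refine ⟨⟨_, hmem⟩, ?_⟩
    apply RegularWreathProduct.ext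
    · funext g
      show (w ^ orderOf z).left (g, k) = f g
      have h1 := (hpow (orderOf z - 1)).2 (by omega) g
      rwa [Nat.sub_add_cancel hz] at h1
    · show (w ^ orderOf z).right.1 = 1
      rw [(hpow (orderOf z)).1]
  -- surjectivity
  have hsurj : ∀ (k : K), ∀ u ∈ U, ∃ s : R, psi U K R hR2 k s = u := by
    intro k u hu
    have h1 : rightHom u ∈ D.residual G := by
      rw [← hUG]
      exact ⟨u, hu, rfl⟩
    rw [← hRG] at h1
    obtain ⟨j, hj, hju⟩ := h1
    have h2 : (psi U K R hR2 k ⟨j, hj⟩).right = u.right := hju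
    set v := psi U K R hR2 k ⟨j, hj⟩ with hv
    have h3 : u * v⁻¹ ∈ U := U.mul_mem hu (U.inv_mem (himg k ⟨j, hj⟩))
    have h4 : (u * v⁻¹).right = 1 := by
      simp [h2]
    have h5 : u * v⁻¹ = ⟨(u * v⁻¹).left, 1⟩ := by
      apply RegularWreathProduct.ext
      · rfl
      · exact h4
    rw [h5] at h3
    obtain ⟨s, hs⟩ := hbase k _ h3
    refine ⟨s * ⟨j, hj⟩, ?_⟩
    rw [map_mul, hs, ← h5, ← hv, inv_mul_cancel_right]
  -- conclusion
  refine C.mem_of_family (ι := K) (fun _ => U)
    (fun k => (psi U K R hR2 k).codRestrict U (himg k)) ?_ ?_ fun _ => hCU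
  · intro k u
    obtain ⟨s, hs⟩ := hsurj k u u.2
    exact ⟨s, Subtype.ext hs⟩
  · intro s hs
    apply Subtype.ext
    apply Subtype.ext
    apply RegularWreathProduct.ext
    · funext p
      have h1 := congrArg Subtype.val (hs p.2)
      have h2 := congrFun (congrArg RegularWreathProduct.left h1) p.1
      exact h2
    · have h1 := congrArg Subtype.val (hs 1)
      have h2 := congrArg RegularWreathProduct.right h1
      apply Prod.ext
      · exact h2
      · exact hR2 s s.2

end Pool.Agent.H886R3.UFH2
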