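import Mathlib
import Pool.Agent.H370R3.BX.Stmts

/-!
# H370-BX, TaskReal: cubical characteristic maps of the realization of a simplicial complex
-/

set_option autoImplicit false

open Set Filter Topology unitInterval

namespace Pool.Agent.H886R3.BX

open Pool.Agent.H370R3.BX

noncomputable section

open Classical in
/-- the vector with coordinate `c k` at `f k` -/
def pt {W : Type} {m : ℕ} (f : Fin m → W) (c : Fin m → ℝ) (w : W) : ℝ :=
  ∑ k, if f k = w then c k else 0

theorem pt_apply {W : Type} {m : ℕ} {f : Fin m → W} (hf : Function.Injective f) (c : Fin m → ℝ)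
    (k : Fin m) : pt f c (f k) = c k := by
  classical
  unfold pt
  rw [Finset.sum_eq_single k]
  · simp
  · intro b _ hb
    rw [if_neg]
    exact fun h => hb (hf h)
  · simp

theorem pt_of_ne {W : Type} {m : ℕ} {f : Fin m → W} {c : Fin m → ℝ} {w : W}
    (h : ∀ k, f k ≠ w) : pt f c w = 0 := by
  classical
  unfold pt
  exact Finset.sum_eq_zero fun k _ => if_neg (h k)

theorem sum_pt {W : Type} [Fintype W] {m : ℕ} (f : Fin m → W) (c : Fin m → ℝ) :
    ∑ w, pt f c w = ∑ k, c k := by
  classical
  unfold pt
  rw [Finset.sum_comm]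
  simp

theorem pt_nonneg {W : Type} {m : ℕ} (f : Fin m → W) {c : Fin m → ℝ} (hc : ∀ k, 0 ≤ c k) (w : W) :
    0 ≤ pt f c w := by
  classical
  unfold pt
  refine Finset.sum_nonneg fun k _ => ?_
  split_ifs
  · exact hc k
  · exact le_rfl

theorem pt_succAbove {W : Type} {n : ℕ} (f : Fin (n + 1) → W) (p : Fin (n + 1)) (c : Fin n → ℝ) :
    pt f (Fin.insertNth (α := fun _ => ℝ) p 0 c) = pt (fun k => f (p.succAbove k)) c := by
  classical
  ext w
  unfold pt
  rw [Fin.sum_univ_succAbove _ p]
  simp

theorem mem_supp {W : Type} [Fintype W] {x : W → ℝ} {w : W} : w ∈ supp x ↔ x w ≠ 0 := by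
  unfold supp
  simp

theorem mem_supp_pt {W : Type} [Fintype W] {m : ℕ} {f : Fin m → W} (hf : Function.Injective f)
    {c : Fin m → ℝ} {w : W} : w ∈ supp (pt f c) ↔ ∃ k, c k ≠ 0 ∧ f k = w := by
  rw [mem_supp]
  constructor
  · intro h
    by_contra hcon
    push Not at hcon
    apply h
    by_cases hw : ∃ k, f k = w
    · obtain ⟨k, rfl⟩ := hw
      rw [pt_apply hf]
      by_contra hk
      exact hcon k hk rfl
    · push Not at hw
      exact pt_of_ne hw
  · rintro ⟨k, hk, rfl⟩
    rwa [pt_apply hf]

open Classical in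
theorem card_supp_pt {W : Type} [Fintype W] {m : ℕ} {f : Fin m → W} (hf : Function.Injective f)
    (c : Fin m → ℝ) :
    (supp (pt f c)).card = (Finset.univ.filter fun k => c k ≠ 0).card := by
  have : supp (pt f c) = (Finset.univ.filter fun k => c k ≠ 0).map ⟨f, hf⟩ := by
    ext w
    rw [mem_supp_pt hf]
    simp
  rw [this, Finset.card_map]

/-- embedding of the ordered vertices -/
def em {W : Type} [LinearOrder W] {S : Finset W → Prop} {n : ℕ} (e : Sx W S n) : Fin (n + 1) → W :=
  e.1.orderEmbOfFin e.2.2

theorem em_inj {W : Type} [LinearOrder W] {S : Finset W → Prop} {n : ℕ} (e : Sx W S n) :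
    Function.Injective (em e) := (e.1.orderEmbOfFin e.2.2).injective

theorem em_mem {W : Type} [LinearOrder W] {S : Finset W → Prop} {n : ℕ} (e : Sx W S n)
    (k : Fin (n + 1)) : em e k ∈ e.1 := Finset.orderEmbOfFin_mem _ _ _

theorem mem_em {W : Type} [LinearOrder W] {S : Finset W → Prop} {n : ℕ} (e : Sx W S n)
    {w : W} (hw : w ∈ e.1) : ∃ k, em e k = w := by
  have := Finset.range_orderEmbOfFin e.1 e.2.2
  have h2 : w ∈ Set.range (e.1.orderEmbOfFin e.2.2) := by rw [this]; exact hw
  exact h2

/-- characteristic map -/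
def kap {W : Type} [Fintype W] [LinearOrder W] {S : Finset W → Prop} (hS : Down S)
    (hc : TaskCoord) (n : ℕ) (e : Sx W S n) : C(Fin n → I, RealC W S) where
  toFun t := ⟨pt (em e) (cc n t), pt_nonneg _ (hc.1 n t), by rw [sum_pt, hc.2.1], by
    refine hS _ e.1 ?_ e.2.1
    intro w hw
    obtain ⟨k, _, rfl⟩ := (mem_supp_pt (em_inj e)).1 hw
    exact em_mem e k⟩
  continuous_toFun := by
    refine Continuous.subtype_mk ?_ _
    refine continuous_pi fun w => ?_
    unfold pt
    refine continuous_finsetSum _ fun k _ => ?_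
    by_cases h : em e k = w
    · simp only [h, if_true]
      exact hc.2.2.1 n k
    · simp only [h, if_false]
      exact continuous_const

theorem kap_val {W : Type} [Fintype W] [LinearOrder W] {S : Finset W → Prop} (hS : Down S)
    (hc : TaskCoord) (n : ℕ) (e : Sx W S n) (t : Fin n → I) :
    (kap hS hc n e t).1 = pt (em e) (cc n t) := rfl

/-- faces -/
def dd {W : Type} [LinearOrder W] {S : Finset W → Prop} (hS : Down S)
    (n : ℕ) (e : Sx W S (n + 1)) (j : Fin (n + 2)) : Sx W S n :=
  ⟨face (n + 2) e.1 e.2.2 j, hS _ _ (Finset.erase_subset _ _) e.2.1, by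
    unfold face
    rw [Finset.card_erase_of_mem (Finset.orderEmbOfFin_mem _ _ _), e.2.2]
    rfl⟩

theorem em_dd {W : Type} [LinearOrder W] {S : Finset W → Prop} (hS : Down S)
    (n : ℕ) (e : Sx W S (n + 1)) (j : Fin (n + 2)) :
    em (dd hS n e j) = fun k => em e (j.succAbove k) := by
  symm
  refine Finset.orderEmbOfFin_unique _ ?_ ?_
  · intro k
    show em e (j.succAbove k) ∈ face (n + 2) e.1 e.2.2 j
    unfold face
    rw [Finset.mem_erase]
    refine ⟨?_, em_mem e _⟩
    intro h
    exact Fin.succAbove_ne j k (em_inj e h)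
  · intro k l hkl
    exact (e.1.orderEmbOfFin e.2.2).strictMono (Fin.strictMono_succAbove j hkl)

/-- the complex -/
def KK {W : Type} [Fintype W] [LinearOrder W] {S : Finset W → Prop} (hS : Down S)
    (hc : TaskCoord) : SCx (RealC W S) where
  X := Skel W S
  E := Sx W S
  κ := kap hS hc
  d := dd hS

theorem supp_card_pos {W : Type} [Fintype W] {S : Finset W → Prop} (a : RealC W S) :
    0 < (supp a.1).card := by
  rw [Finset.card_pos]
  by_contra hcon
  rw [Finset.not_nonempty_iff_eq_empty] at hcon
  have h1 : ∀ w, a.1 w = 0 := by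
    intro w
    by_contra hw
    have := mem_supp.2 hw
    rw [hcon] at this
    exact absurd this (Finset.notMem_empty _)
  have h2 := a.2.2.1
  simp [h1] at h2

theorem mem_Xl {W : Type} [Fintype W] [LinearOrder W] {S : Finset W → Prop} (hS : Down S)
    (hc : TaskCoord) (n : ℕ) (a : RealC W S) :
    a ∈ (KK hS hc).Xl n ↔ (supp a.1).card ≤ n := by
  constructor
  · rintro ⟨m, hm, ha⟩
    have : (supp a.1).card ≤ m + 1 := ha
    omega
  · intro h
    have h0 := supp_card_pos a
    refine ⟨n - 1, by omega, ?_⟩
    show (supp a.1).card ≤ n - 1 + 1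
    omega

theorem kap_mem_Xl {W : Type} [Fintype W] [LinearOrder W] {S : Finset W → Prop} (hS : Down S)
    (hc : TaskCoord) (n : ℕ) (e : Sx W S n) (t : Fin n → I) :
    kap hS hc n e t ∈ (KK hS hc).Xl n ↔ ∃ k, cc n t k = 0 := by
  classical
  rw [mem_Xl, kap_val, card_supp_pt (em_inj e)]
  constructor
  · intro h
    by_contra hcon
    push Not at hcon
    have : (Finset.univ.filter fun k => cc n t k ≠ 0) = Finset.univ := by
      ext k; simp [hcon k]
    rw [this, Finset.card_univ, Fintype.card_fin] at h
    omega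
  · rintro ⟨k, hk⟩
    have : (Finset.univ.filter fun k => cc n t k ≠ 0) ⊂ Finset.univ := by
      rw [Finset.ssubset_univ_iff]
      intro h
      have h2 : k ∈ (Finset.univ.filter fun k => cc n t k ≠ 0) := by rw [h]; simp
      simp [hk] at h2
    have := Finset.card_lt_card this
    rw [Finset.card_univ, Fintype.card_fin] at this
    omega

theorem closed_skel (W : Type) [Fintype W] (S : Finset W → Prop) (n : ℕ) :
    IsClosed (Skel W S n) := by
  have h : Skel W S n = ⋂ a : Finset W, ⋂ (_ : n + 1 < a.card), {x : RealC W S |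
      ∏ w ∈ a, x.1 w = 0} := by
    ext x
    simp only [mem_iInter]
    constructor
    · intro hx a ha
      have h1 : (supp x.1).card < a.card := lt_of_le_of_lt hx ha
      obtain ⟨w, hw1, hw2⟩ := Finset.exists_mem_notMem_of_card_lt_card h1
      refine Finset.prod_eq_zero hw1 ?_
      by_contra hcon
      exact hw2 (mem_supp.2 hcon)
    · intro hx
      by_contra hcon
      have h1 : n + 1 < (supp x.1).card := not_le.1 hcon
      have h2 : ∏ w ∈ supp x.1, x.1 w = 0 := hx (supp x.1) h1
      rw [Finset.prod_eq_zero_iff] at h2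
      obtain ⟨w, hw, hw2⟩ := h2
      exact mem_supp.1 hw hw2
  rw [h]
  refine isClosed_iInter fun a => isClosed_iInter fun _ => ?_
  have hc : Continuous fun x : RealC W S => x.1 := continuous_subtype_val
  refine isClosed_eq ?_ continuous_const
  exact continuous_finsetProd _ fun w _ => (continuous_apply w).comp hc

theorem kap_face {W : Type} [Fintype W] [LinearOrder W] {S : Finset W → Prop} (hS : Down S)
    (hc : TaskCoord) (n : ℕ) (e : Sx W S (n + 1)) (p : Fin (n + 2)) (s : Fin (n + 1) → I)
    (t : Fin n → I) (h : cc (n + 1) s = Fin.insertNth (α := fun _ => ℝ) p 0 (cc n t)) :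
    kap hS hc (n + 1) e s = kap hS hc n (dd hS n e p) t := by
  apply Subtype.ext
  rw [kap_val, kap_val, h, pt_succAbove, em_dd]

theorem taskReal : TaskReal := by
  intro hc W _ _ S hS
  obtain ⟨c1, c2, c3, c4, c5, c6, c7, c8, c9⟩ := id hc
  refine ⟨KK hS hc, ?_, fun n => rfl, fun n => Equiv.refl _, fun n e j => rfl⟩
  constructor
  · intro n
    exact (inferInstance : Finite {a : Finset W // S a ∧ a.card = n + 1})
  · exact fun n => closed_skel W S n
  · intro n x hx
    have : (supp x.1).card ≤ n + 1 := hx
    show (supp x.1).card ≤ n + 1 + 1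
    omega
  · intro n e t
    classical
    show (supp (pt (em e) (cc n t))).card ≤ n + 1
    rw [card_supp_pt (em_inj e)]
    refine (Finset.card_filter_le _ _).trans ?_
    simp
  · intro n e j t
    exact kap_face hS hc n e j.castSucc _ t (c4 n j t)
  · intro n e t
    exact kap_face hS hc n e (Fin.last (n + 1)) _ t (c5 n t)
  · intro n e j t
    classical
    show (supp (pt (em e) (cc (n + 1) (Fin.insertNth j 0 t)))).card ≤ (j : ℕ) + 1
    rw [card_supp_pt (em_inj e)]
    have h1 : (Finset.univ.filter fun k => cc (n + 1) (Fin.insertNth j 0 t) k ≠ 0) ⊆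
        Finset.Iic j.castSucc := by
      intro k hk
      rw [Finset.mem_filter] at hk
      rw [Finset.mem_Iic]
      by_contra hcon
      apply hk.2
      apply c6
      have := not_le.1 hcon
      exact this
    refine (Finset.card_le_card h1).trans ?_
    simp
  · intro n e t
    rw [c7]
    exact kap_mem_Xl hS hc n e t
  · intro n e e' t t' h hne
    have hall : ∀ k, cc n t k ≠ 0 := by
      intro k hk
      exact hne ((kap_mem_Xl hS hc n e t).2 ⟨k, hk⟩)
    have hne' : kap hS hc n e' t' ∉ (KK hS hc).Xl n := by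
      have : kap hS hc n e t = kap hS hc n e' t' := h
      rw [← this]
      exact hne
    have hall' : ∀ k, cc n t' k ≠ 0 := by
      intro k hk
      exact hne' ((kap_mem_Xl hS hc n e' t').2 ⟨k, hk⟩)
    have hv : pt (em e) (cc n t) = pt (em e') (cc n t') := congrArg Subtype.val h
    have hsup : ∀ (e : Sx W S n) (t : Fin n → I), (∀ k, cc n t k ≠ 0) →
        supp (pt (em e) (cc n t)) = e.1 := by
      intro e t hk
      ext w
      rw [mem_supp_pt (em_inj e)]
      constructor
      · rintro ⟨k, _, rfl⟩
        exact em_mem e k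
      · intro hw
        obtain ⟨k, rfl⟩ := mem_em e hw
        exact ⟨k, hk k, rfl⟩
    have he : e = e' := by
      apply Subtype.ext
      rw [← hsup e t hall, ← hsup e' t' hall', hv]
    refine ⟨he, ?_⟩
    subst he
    apply c8 n t t' hall
    ext k
    have h2 := congrFun hv (em e k)
    rwa [pt_apply (em_inj e), pt_apply (em_inj e)] at h2
  · intro n a ha1 ha2
    have ha1' : (supp a.1).card ≤ n + 1 := ha1
    rw [mem_Xl] at ha2
    have hcard : (supp a.1).card = n + 1 := by omega
    let e : Sx W S n := ⟨supp a.1, a.2.2.2, hcard⟩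
    obtain ⟨t, ht⟩ := c9 n (fun k => a.1 (em e k)) (fun k => a.2.1 _) (by
      have h1 : ∑ k, a.1 (em e k) = ∑ w ∈ supp a.1, a.1 w := by
        classical
        have h2 : supp a.1 = Finset.univ.map ⟨em e, em_inj e⟩ := by
          ext w
          rw [Finset.mem_map]
          constructor
          · intro hw
            obtain ⟨k, hk⟩ := mem_em e hw
            exact ⟨k, Finset.mem_univ _, hk⟩
          · rintro ⟨k, _, rfl⟩
            exact em_mem e k
        conv_rhs => rw [h2]
        rw [Finset.sum_map]
        rfl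
      refine (h1.trans ?_).trans a.2.2.1
      refine Finset.sum_subset (Finset.subset_univ _) fun w _ hw => ?_
      by_contra hcon
      exact hw (mem_supp.2 hcon))
    refine ⟨e, t, ?_⟩
    apply Subtype.ext
    show pt (em e) (cc n t) = a.1
    rw [ht]
    ext w
    by_cases hw : w ∈ supp a.1
    · obtain ⟨k, rfl⟩ := mem_em e hw
      rw [pt_apply (em_inj e)]
    · rw [pt_of_ne]
      · by_contra hcon
        exact hw (mem_supp.2 (Ne.symm hcon))
      · rintro k rfl
        exact hw (em_mem e k)

end

end Pool.Agent.H886R3.BX
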