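import Mathlib
import Pool.Agent.H144R3.Task469F
import Pool.Agent.H180R3.PO.Stmts

/-!
# POLEORDER-HF: Mellin transform of the theta relation with powers of the logarithm
(adapted from `TaskPZF`, which is adapted from helper144's `Task469F`)
-/

set_option autoImplicit false

open Real Complex MeasureTheory Set Filter Topology Asymptotics
open scoped Nat

namespace Pool.Agent.H886R3.HF

open Pool.Agent.H469R10.HO (uu)
open Pool.Agent.H144R3.T469F
open Pool.Agent.H180R3.PO (PhiN TN TaskHF)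

/-- `t ^ a (log t) ^ j` on `(0, 1]` -/
noncomputable def lg (a : ℂ) (j : ℕ) : ℝ → ℂ :=
  indicator (Ioc (0 : ℝ) 1) (fun t : ℝ => (t : ℂ) ^ a * ((Real.log t : ℝ) : ℂ) ^ j)

lemma lg_succ (a : ℂ) (j : ℕ) : (fun t : ℝ => Real.log t • lg a j t) = lg a (j + 1) := by
  funext t
  unfold lg
  by_cases h : t ∈ Ioc (0 : ℝ) 1
  · rw [indicator_of_mem h, indicator_of_mem h, Complex.real_smul, pow_succ]
    ring
  · rw [indicator_of_notMem h, indicator_of_notMem h, smul_zero]

lemma lg_locInt (a : ℂ) (j : ℕ) : LocallyIntegrableOn (lg a j) (Ioi 0) := by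
  rw [locallyIntegrableOn_iff isOpen_Ioi.isLocallyClosed]
  intro K hK hKc
  refine IntegrableOn.indicator ?_ measurableSet_Ioc
  refine ContinuousOn.integrableOn_compact hKc ?_
  refine ContinuousOn.mul ?_ (ContinuousOn.pow ?_ j)
  · intro t ht
    have ht0 : (0 : ℝ) < t := hK ht
    exact (Complex.continuousAt_ofReal_cpow_const t a (Or.inr ht0.ne')).continuousWithinAt
  · refine Complex.continuous_ofReal.comp_continuousOn ?_
    exact Real.continuousOn_log.mono (fun t ht => by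
      have ht0 : (0 : ℝ) < t := hK ht
      exact ht0.ne')

lemma lg_top (a : ℂ) (j : ℕ) (r : ℝ) : lg a j =O[atTop] (fun t : ℝ => t ^ r) := by
  refine (isBigO_zero (fun t : ℝ => t ^ r) atTop).congr' ?_ EventuallyEq.rfl
  filter_upwards [eventually_gt_atTop 1] with t ht
  unfold lg
  rw [indicator_of_notMem (fun h => absurd h.2 (not_le.2 ht))]

lemma lg_bot (a : ℂ) (j : ℕ) {b : ℝ} (hb : -a.re < b) : lg a j =O[𝓝[>] 0] (fun t : ℝ => t ^ (-b)) := by
  have h1 := (isLittleO_abs_log_rpow_rpow_nhdsGT_zero (s := -(b + a.re)) (j : ℝ) (by linarith)).isBigO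
  have h2 : (fun t : ℝ => t ^ a.re * |Real.log t| ^ (j : ℝ)) =O[𝓝[>] 0] (fun t : ℝ => t ^ a.re * t ^ (-(b + a.re))) :=
    (isBigO_refl _ _).mul h1
  refine IsBigO.trans ?_ (h2.trans (EventuallyEq.isBigO ?_))
  · refine IsBigO.of_bound 1 ?_
    filter_upwards [self_mem_nhdsWithin] with t ht
    have ht0 : (0 : ℝ) < t := ht
    rw [one_mul]
    unfold lg
    refine (norm_indicator_le_norm_self _ _).trans ?_
    have h0 : (0 : ℝ) ≤ t ^ a.re * |Real.log t| ^ (j : ℝ) :=
      mul_nonneg (Real.rpow_nonneg ht0.le _) (Real.rpow_nonneg (abs_nonneg _) _)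
    have e0 : ‖t ^ a.re * |Real.log t| ^ (j : ℝ)‖ = t ^ a.re * |Real.log t| ^ (j : ℝ) := by
      rw [Real.norm_eq_abs, abs_of_nonneg h0]
    rw [e0, norm_mul, norm_pow, Complex.norm_cpow_eq_rpow_re_of_pos ht0, Complex.norm_real,
      Real.norm_eq_abs, Real.rpow_natCast]
  · filter_upwards [self_mem_nhdsWithin] with t ht
    have ht0 : (0 : ℝ) < t := ht
    rw [← Real.rpow_add ht0]
    congr 1
    ring

lemma hasMellin_lg (a : ℂ) (j : ℕ) : ∀ s : ℂ, 0 < s.re + a.re →
    HasMellin (lg a j) s ((-1) ^ j * (j ! : ℂ) / (s + a) ^ (j + 1)) := by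
  induction j with
  | zero =>
    intro s hs
    have h := hasMellin_cpow_Ioc a hs
    have e : lg a 0 = indicator (Ioc (0 : ℝ) 1) (fun t : ℝ => (t : ℂ) ^ a) := by
      unfold lg
      congr 1
      funext t
      rw [pow_zero, mul_one]
    have e2 : (-1 : ℂ) ^ 0 * ((0 ! : ℕ) : ℂ) / (s + a) ^ (0 + 1) = 1 / (s + a) := by simp
    rw [e, e2]
    exact h
  | succ j ih =>
    intro s hs
    obtain ⟨b, hb1, hb2⟩ := exists_between (show -a.re < s.re by linarith)
    have h := mellin_hasDerivAt_of_isBigO_rpow (a := s.re + 1) (b := b) (s := s) (lg_locInt a j)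
      (lg_top a j _) (by linarith) (lg_bot a j hb1) hb2
    rw [lg_succ] at h
    refine ⟨h.1, ?_⟩
    have hsa : s + a ≠ 0 := by
      intro h0
      have := congrArg Complex.re h0
      rw [Complex.add_re, Complex.zero_re] at this
      linarith
    have hev : mellin (lg a j) =ᶠ[𝓝 s] fun z => (-1) ^ j * (j ! : ℂ) / (z + a) ^ (j + 1) := by
      have hopen : {z : ℂ | 0 < z.re + a.re} ∈ 𝓝 s := by
        refine IsOpen.mem_nhds ?_ hs
        exact isOpen_lt continuous_const (Complex.continuous_re.add continuous_const)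
      filter_upwards [hopen] with z hz
      exact (ih z hz).2
    have hd1 := h.2.congr_of_eventuallyEq hev.symm
    have hd2 : HasDerivAt (fun z : ℂ => (-1) ^ j * (j ! : ℂ) / (z + a) ^ (j + 1))
        ((-1) ^ (j + 1) * ((j + 1)! : ℂ) / (s + a) ^ (j + 1 + 1)) s := by
      have h1 : HasDerivAt (fun z : ℂ => (z + a) ^ (j + 1)) (((j + 1 : ℕ) : ℂ) * (s + a) ^ j * 1) s :=
        ((hasDerivAt_id s).add_const a).pow (j + 1)
      have h2 := (h1.fun_inv (pow_ne_zero _ hsa)).const_mul ((-1) ^ j * (j ! : ℂ))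
      have h3 : (fun z : ℂ => (-1) ^ j * (j ! : ℂ) / (z + a) ^ (j + 1)) =
          fun y : ℂ => (-1) ^ j * (j ! : ℂ) * ((y + a) ^ (j + 1))⁻¹ := by
        funext z
        rw [div_eq_mul_inv]
      rw [h3]
      refine h2.congr_deriv ?_
      rw [Nat.factorial_succ]
      push_cast
      field_simp
      ring
    exact hd1.unique hd2


lemma hm_congr {f g : ℝ → ℂ} {s w : ℂ} (h : ∀ t : ℝ, 0 < t → f t = g t)
    (hf : HasMellin f s w) : HasMellin g s w := by
  refine ⟨?_, ?_⟩
  · refine IntegrableOn.congr_fun hf.1 (fun t ht => ?_) measurableSet_Ioi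
    simp only [h t ht]
  · rw [← hf.2]
    unfold mellin
    refine setIntegral_congr_fun measurableSet_Ioi (fun t ht => ?_)
    simp only [h t ht]

lemma hm_add {f g : ℝ → ℂ} {z a b : ℂ} (hf : HasMellin f z a) (hg : HasMellin g z b) :
    HasMellin (fun t => f t + g t) z (a + b) := by
  have h := hasMellin_add hf.1 hg.1
  rwa [hf.2, hg.2] at h

lemma hm_sub {f g : ℝ → ℂ} {z a b : ℂ} (hf : HasMellin f z a) (hg : HasMellin g z b) :
    HasMellin (fun t => f t - g t) z (a - b) := by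
  have h := hasMellin_sub hf.1 hg.1
  rwa [hf.2, hg.2] at h

lemma hm_mul {f : ℝ → ℂ} {z a : ℂ} (c : ℂ) (hf : HasMellin f z a) :
    HasMellin (fun t => c * f t) z (c * a) := by
  have h := hasMellin_const_smul hf.1 c
  rw [hf.2] at h
  simpa only [smul_eq_mul] using h

lemma hm_zero (z : ℂ) : HasMellin (fun _ : ℝ => (0 : ℂ)) z 0 := by
  refine ⟨?_, ?_⟩
  · unfold MellinConvergent
    simp
  · unfold mellin
    simp

lemma hm_sum (n : ℕ) (f : ℕ → ℝ → ℂ) (v : ℕ → ℂ) (z : ℂ) (h : ∀ i, HasMellin (f i) z (v i)) :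
    HasMellin (fun t => ∑ i ∈ Finset.range n, f i t) z (∑ i ∈ Finset.range n, v i) := by
  induction n with
  | zero =>
    simp only [Finset.range_zero, Finset.sum_empty]
    exact hm_zero z
  | succ n ih =>
    simp only [Finset.sum_range_succ]
    exact hm_add ih (h n)

lemma PhiN_odd (N : ℕ) (P R : ℕ → ℝ) (L u : ℝ) : PhiN N P R L (-u) = -PhiN N P R L u := by
  unfold PhiN
  rw [neg_add, ← Finset.sum_neg_distrib, ← Finset.sum_neg_distrib]
  congr 1
  · refine Finset.sum_congr rfl (fun i _ => ?_)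
    rw [mul_neg, Real.sin_neg, (even_two_mul i).neg_pow]
    ring
  · refine Finset.sum_congr rfl (fun i _ => ?_)
    have ho : Odd (2 * i + 1) := odd_two_mul_add_one i
    rw [mul_neg, Real.cos_neg, ho.neg_pow]
    ring

lemma PhiN_zero (N : ℕ) (P R : ℕ → ℝ) (L : ℝ) : PhiN N P R L 0 = 0 := by
  have h := PhiN_odd N P R L 0
  rw [neg_zero] at h
  linarith

lemma PhiN_cont (N : ℕ) (P R : ℕ → ℝ) (L : ℝ) : Continuous (PhiN N P R L) := by
  unfold PhiN
  fun_prop

/-- the polar part -/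
noncomputable def EEN (m N : ℕ) (P R : ℕ → ℝ) (L C t : ℝ) : ℝ :=
  C * (t ^ (m + 1))⁻¹ * PhiN N P R L (Real.log (min t 1))

lemma EEN_of_ge {m N : ℕ} {P R : ℕ → ℝ} {L C t : ℝ} (ht : 1 ≤ t) : EEN m N P R L C t = 0 := by
  unfold EEN
  rw [min_eq_right ht, Real.log_one, PhiN_zero, mul_zero]

lemma EEN_of_le {m N : ℕ} {P R : ℕ → ℝ} {L C t : ℝ} (ht : t ≤ 1) :
    EEN m N P R L C t = C * (t ^ (m + 1))⁻¹ * PhiN N P R L (Real.log t) := by
  unfold EEN
  rw [min_eq_left ht]

lemma EEN_cont (m N : ℕ) (P R : ℕ → ℝ) (L C : ℝ) : ContinuousOn (EEN m N P R L C) (Ioi 0) := by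
  unfold EEN
  refine ContinuousOn.mul (ContinuousOn.mul continuousOn_const ?_) ?_
  · refine ContinuousOn.inv₀ (by fun_prop) (fun t ht => ?_)
    have ht' : (0 : ℝ) < t := ht
    positivity
  · refine (PhiN_cont N P R L).comp_continuousOn ?_
    refine ContinuousOn.log (by fun_prop) (fun t ht => ?_)
    have ht' : (0 : ℝ) < t := ht
    exact (lt_min ht' one_pos).ne'

lemma hasMellin_EEN {m N : ℕ} {P R : ℕ → ℝ} {L C : ℝ} {z : ℂ} (hz : (m : ℝ) + 1 < z.re) :
    HasMellin (fun t => (EEN m N P R L C t : ℂ)) z (-((C : ℂ) * TN N P R L (z - (m + 1)))) := by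
  set ap : ℂ := -((m : ℂ) + 1) + L * I with hap
  set am : ℂ := -((m : ℂ) + 1) - L * I with ham
  have hp : 0 < z.re + ap.re := by simp [hap]; linarith
  have hq : 0 < z.re + am.re := by simp [ham]; linarith
  have h1 : ∀ i, HasMellin (fun t => (P i : ℂ) * ((1 / (2 * I)) * (lg ap (2 * i) t - lg am (2 * i) t))) z
      ((P i : ℂ) * ((1 / (2 * I)) * ((-1) ^ (2 * i) * ((2 * i)! : ℂ) / (z + ap) ^ (2 * i + 1) -
        (-1) ^ (2 * i) * ((2 * i)! : ℂ) / (z + am) ^ (2 * i + 1)))) := fun i =>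
    hm_mul _ (hm_mul _ (hm_sub (hasMellin_lg ap _ z hp) (hasMellin_lg am _ z hq)))
  have h2 : ∀ i, HasMellin (fun t => (R i : ℂ) * ((1 / 2) * (lg ap (2 * i + 1) t + lg am (2 * i + 1) t))) z
      ((R i : ℂ) * ((1 / 2) * ((-1) ^ (2 * i + 1) * ((2 * i + 1)! : ℂ) / (z + ap) ^ (2 * i + 1 + 1) +
        (-1) ^ (2 * i + 1) * ((2 * i + 1)! : ℂ) / (z + am) ^ (2 * i + 1 + 1)))) := fun i =>
    hm_mul _ (hm_mul _ (hm_add (hasMellin_lg ap _ z hp) (hasMellin_lg am _ z hq)))
  have h3 := hm_mul (C : ℂ) (hm_add (hm_sum (N + 1) _ _ z h1) (hm_sum N _ _ z h2))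
  have hval : (C : ℂ) * ((∑ i ∈ Finset.range (N + 1), ((P i : ℂ) * ((1 / (2 * I)) *
      ((-1) ^ (2 * i) * ((2 * i)! : ℂ) / (z + ap) ^ (2 * i + 1) -
        (-1) ^ (2 * i) * ((2 * i)! : ℂ) / (z + am) ^ (2 * i + 1))))) +
      ∑ i ∈ Finset.range N, ((R i : ℂ) * ((1 / 2) *
        ((-1) ^ (2 * i + 1) * ((2 * i + 1)! : ℂ) / (z + ap) ^ (2 * i + 1 + 1) +
        (-1) ^ (2 * i + 1) * ((2 * i + 1)! : ℂ) / (z + am) ^ (2 * i + 1 + 1))))) =
      -((C : ℂ) * TN N P R L (z - (m + 1))) := by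
    rw [← mul_neg]
    congr 1
    unfold TN
    rw [neg_add, ← Finset.sum_neg_distrib, ← Finset.sum_neg_distrib]
    have e1 : z + ap = z - (m + 1) + L * I := by rw [hap]; ring
    have e2 : z + am = z - (m + 1) - L * I := by rw [ham]; ring
    rw [e1, e2]
    congr 1
    · refine Finset.sum_congr rfl (fun i _ => ?_)
      rw [(even_two_mul i).neg_one_pow]
      ring
    · refine Finset.sum_congr rfl (fun i _ => ?_)
      rw [(odd_two_mul_add_one i).neg_one_pow]
      ring
  rw [hval] at h3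
  refine hm_congr (fun t ht => ?_) h3
  rcases le_or_gt t 1 with h | h
  · have hmem : t ∈ Ioc (0 : ℝ) 1 := ⟨ht, h⟩
    rw [EEN_of_le h]
    have ht0 : (t : ℂ) ≠ 0 := ofReal_ne_zero.2 ht.ne'
    set T : ℂ := (((t ^ (m + 1))⁻¹ : ℝ) : ℂ) with hT
    set X : ℂ := Complex.exp (((L * Real.log t : ℝ) : ℂ) * I) with hX
    set Y : ℂ := Complex.exp (-((L * Real.log t : ℝ) : ℂ) * I) with hY
    have e1 : (t : ℂ) ^ (-((m : ℂ) + 1)) = T := by
      rw [Complex.cpow_neg]
      have : (t : ℂ) ^ ((m : ℂ) + 1) = ((t ^ (m + 1) : ℝ) : ℂ) := by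
        rw [show ((m : ℂ) + 1) = ((m + 1 : ℕ) : ℂ) by push_cast; ring, Complex.cpow_natCast]
        push_cast; ring
      rw [this, hT, Complex.ofReal_inv]
    have e2 : (t : ℂ) ^ ((L : ℂ) * I) = X := by
      rw [Complex.cpow_def_of_ne_zero ht0, ← Complex.ofReal_log ht.le, hX]
      congr 1
      push_cast
      ring
    have e3 : (t : ℂ) ^ (-((L : ℂ) * I)) = Y := by
      rw [Complex.cpow_def_of_ne_zero ht0, ← Complex.ofReal_log ht.le, hY]
      congr 1
      push_cast
      ring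
    have e4 : ∀ j, lg ap j t = T * X * ((Real.log t : ℝ) : ℂ) ^ j := by
      intro j
      unfold lg
      rw [indicator_of_mem hmem, hap, Complex.cpow_add _ _ ht0, e1, e2]
    have e5 : ∀ j, lg am j t = T * Y * ((Real.log t : ℝ) : ℂ) ^ j := by
      intro j
      unfold lg
      rw [indicator_of_mem hmem, ham, sub_eq_add_neg, Complex.cpow_add _ _ ht0, e1, e3]
    have e6 : ((Real.sin (L * Real.log t) : ℝ) : ℂ) = (1 / (2 * I)) * (X - Y) := by
      rw [Complex.ofReal_sin, Complex.sin]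
      rw [← hX, ← hY]
      have hI : I ≠ 0 := Complex.I_ne_zero
      have hI2 := Complex.I_sq
      field_simp
      linear_combination (-(X - Y)) * hI2
    have e7 : ((Real.cos (L * Real.log t) : ℝ) : ℂ) = (1 / 2) * (X + Y) := by
      rw [Complex.ofReal_cos, Complex.cos]
      rw [← hX, ← hY]
      ring
    unfold PhiN
    push_cast
    rw [← Complex.ofReal_mul, ← Complex.ofReal_sin, ← Complex.ofReal_cos] 
    simp only [e4, e5]
    rw [e6, e7]
    rw [mul_assoc]
    congr 1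
    rw [mul_add, Finset.mul_sum, Finset.mul_sum]
    have hT' : T = ((t : ℂ) ^ (m + 1))⁻¹ := by rw [hT]; push_cast; rfl
    rw [← hT']
    congr 1
    · refine Finset.sum_congr rfl (fun i _ => ?_)
      ring
    · refine Finset.sum_congr rfl (fun i _ => ?_)
      ring
  · have hmem : t ∉ Ioc (0 : ℝ) 1 := fun h' => absurd h'.2 (not_le.2 h)
    have e4 : ∀ (a : ℂ) (j : ℕ), lg a j t = 0 := by
      intro a j
      unfold lg
      rw [indicator_of_notMem hmem]
    rw [EEN_of_ge h.le]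
    simp only [e4]
    simp

lemma f_pointwise {c k K : ℝ} (hc : 0 < c) (hk : 1 < k) (hK : 0 ≤ K) {f : ℝ → ℝ}
    (hKb : ∀ t : ℝ, 1 ≤ t → |f t| ≤ K * t ^ (-(k - 1)) * Real.exp (-(c / 2 * t)))
    (hF : ∀ t : ℝ, 0 < t → f (1 / t) = t ^ k * f t) :
    ∃ D : ℝ, 0 ≤ D ∧ ∀ (N : ℕ) (x t : ℝ), |x| ≤ N → 0 < t →
      |f t| * t ^ (x - 1) ≤ D * (N + 2)! * (1 + 4 / c) ^ (N + 2) * Real.exp (-(c / 4 * t)) := by
  refine ⟨K * Real.exp (c / 4), by positivity, fun N x t hx ht => ?_⟩
  have hxN := abs_le.1 hx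
  have hb1 : 1 ≤ 1 + 4 / c := by have : 0 < 4 / c := by positivity
                                 linarith
  have hexp1 : 1 ≤ Real.exp (c / 4) := Real.one_le_exp (by positivity)
  rcases le_or_gt 1 t with h1 | h1
  · -- t ≥ 1
    have e1 : t ^ (-(k - 1)) * t ^ (x - 1) ≤ t ^ N := by
      rw [← Real.rpow_add ht, ← Real.rpow_natCast]
      exact Real.rpow_le_rpow_of_exponent_le h1 (by linarith)
    have e2 := pow_le_exp (b := c / 4) (by positivity) ht.le N
    have e3 : (1 / (c / 4)) ^ N ≤ (1 + 4 / c) ^ (N + 2) := by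
      calc (1 / (c / 4)) ^ N ≤ (1 + 4 / c) ^ N := by
            refine pow_le_pow_left₀ (by positivity) ?_ N
            rw [one_div_div]; linarith
        _ ≤ (1 + 4 / c) ^ (N + 2) := pow_le_pow_right₀ hb1 (by omega)
    have e4 : ((N ! : ℕ) : ℝ) ≤ ((N + 2)! : ℕ) := by exact_mod_cast Nat.factorial_le (by omega)
    have e5 : Real.exp (-(c / 2 * t)) = Real.exp (-(c / 4 * t)) * Real.exp (-(c / 4 * t)) := by
      rw [← Real.exp_add]; congr 1; ring
    have e6 : Real.exp (c / 4 * t) * Real.exp (-(c / 4 * t)) = 1 := by rw [← Real.exp_add]; simp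
    calc |f t| * t ^ (x - 1)
        ≤ (K * t ^ (-(k - 1)) * Real.exp (-(c / 2 * t))) * t ^ (x - 1) :=
          mul_le_mul_of_nonneg_right (hKb t h1) (by positivity)
      _ = K * (t ^ (-(k - 1)) * t ^ (x - 1)) * Real.exp (-(c / 2 * t)) := by ring
      _ ≤ K * (N ! * (1 / (c / 4)) ^ N * Real.exp (c / 4 * t)) * Real.exp (-(c / 2 * t)) := by
          refine mul_le_mul_of_nonneg_right (mul_le_mul_of_nonneg_left (e1.trans e2) hK) (Real.exp_pos _).le
      _ = K * (N ! * (1 / (c / 4)) ^ N) * (Real.exp (c / 4 * t) * Real.exp (-(c / 4 * t))) * Real.exp (-(c / 4 * t)) := by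
          rw [e5]; ring
      _ = K * 1 * (N ! * (1 / (c / 4)) ^ N) * Real.exp (-(c / 4 * t)) := by rw [e6]; ring
      _ ≤ K * Real.exp (c / 4) * ((N + 2)! * (1 + 4 / c) ^ (N + 2)) * Real.exp (-(c / 4 * t)) := by
          refine mul_le_mul_of_nonneg_right ?_ (Real.exp_pos _).le
          refine mul_le_mul (mul_le_mul_of_nonneg_left hexp1 hK) ?_ (by positivity) (by positivity)
          exact mul_le_mul e4 e3 (by positivity) (by positivity)
      _ = _ := by ring
  · -- t < 1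
    have ht1 : 1 < 1 / t := by rw [lt_div_iff₀ ht]; linarith
    have hti : 0 < 1 / t := by positivity
    have hFt := hF t ht
    have habs : |f t| = (1 / t) ^ k * |f (1 / t)| := by
      rw [hFt, abs_mul]
      have htk : 0 < t ^ k := Real.rpow_pos_of_pos ht k
      rw [abs_of_pos htk, one_div, Real.inv_rpow ht.le]
      field_simp
    have e0 := hKb (1 / t) ht1.le
    have e1 : (1 / t) ^ k * (1 / t) ^ (-(k - 1)) * t ^ (x - 1) ≤ (1 / t) ^ (N + 2) := by
      have : t ^ (x - 1) = (1 / t) ^ (1 - x) := by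
        rw [one_div, Real.inv_rpow ht.le, ← Real.rpow_neg ht.le]; congr 1; ring
      rw [this, ← Real.rpow_add hti, ← Real.rpow_add hti, ← Real.rpow_natCast]
      refine Real.rpow_le_rpow_of_exponent_le ht1.le ?_
      push_cast
      linarith
    have e2 := pow_le_exp (b := c / 2) (by positivity) hti.le (N + 2)
    have e3 : (1 / (c / 2)) ^ (N + 2) ≤ (1 + 4 / c) ^ (N + 2) := by
      refine pow_le_pow_left₀ (by positivity) ?_ _
      rw [one_div_div]
      have : 2 / c ≤ 4 / c := by gcongr; norm_num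
      linarith
    have e6 : Real.exp (c / 2 * (1 / t)) * Real.exp (-(c / 2 * (1 / t))) = 1 := by
      rw [← Real.exp_add]; simp
    have e7 : 1 ≤ Real.exp (c / 4) * Real.exp (-(c / 4 * t)) := by
      rw [← Real.exp_add]
      apply Real.one_le_exp
      nlinarith
    calc |f t| * t ^ (x - 1)
        = (1 / t) ^ k * |f (1 / t)| * t ^ (x - 1) := by rw [habs]
      _ ≤ (1 / t) ^ k * (K * (1 / t) ^ (-(k - 1)) * Real.exp (-(c / 2 * (1 / t)))) * t ^ (x - 1) := by
          gcongr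
      _ = K * ((1 / t) ^ k * (1 / t) ^ (-(k - 1)) * t ^ (x - 1)) * Real.exp (-(c / 2 * (1 / t))) := by ring
      _ ≤ K * ((N + 2)! * (1 / (c / 2)) ^ (N + 2) * Real.exp (c / 2 * (1 / t))) * Real.exp (-(c / 2 * (1 / t))) := by
          refine mul_le_mul_of_nonneg_right (mul_le_mul_of_nonneg_left (e1.trans e2) hK) (Real.exp_pos _).le
      _ = K * ((N + 2)! * (1 / (c / 2)) ^ (N + 2)) * (Real.exp (c / 2 * (1 / t)) * Real.exp (-(c / 2 * (1 / t)))) := by ring
      _ = K * ((N + 2)! * (1 / (c / 2)) ^ (N + 2)) * 1 := by rw [e6]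
      _ ≤ K * ((N + 2)! * (1 + 4 / c) ^ (N + 2)) * (Real.exp (c / 4) * Real.exp (-(c / 4 * t))) := by
          refine mul_le_mul ?_ e7 zero_le_one (by positivity)
          refine mul_le_mul_of_nonneg_left ?_ hK
          exact mul_le_mul_of_nonneg_left e3 (by positivity)
      _ = _ := by ring

theorem taskHF : TaskHF := by
  intro c lam m hc hlam hm Nn PP RR L c₁ hL A hA hS0 hrel
  set k : ℝ := 2 * (m : ℝ) + 2 with hk_def
  have hm0 : (1 : ℝ) ≤ m := by exact_mod_cast hm
  have hk : 1 < k := by rw [hk_def]; linarith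
  have hS : Summable (fun n => |A n| * (uu c lam n) ^ (-(k - 1))) := by
    have : -(k - 1) = -(2 * (m : ℝ) + 1) := by rw [hk_def]; ring
    rw [this]; exact hS0
  have hκ : 0 < k - 1 := by linarith
  set f : ℝ → ℝ := fun t => psi c lam A t - EEN m Nn PP RR L c₁ t with hf_def
  have hpow : ∀ t : ℝ, t ^ k = t ^ (2 * m + 2) := by
    intro t
    rw [hk_def, ← Real.rpow_natCast]
    push_cast
    rfl
  have hψ : ∀ t : ℝ, 0 < t → psi c lam A (1 / t) = t ^ (2 * m + 2) * psi c lam A t -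
      c₁ * t ^ (m + 1) * PhiN Nn PP RR L (Real.log t) := by
    intro t ht
    have h1 := hrel t ht
    unfold psi
    rw [← h1]
    refine tsum_congr (fun n => ?_)
    rw [mul_one_div]
  have hfge : ∀ t : ℝ, 1 ≤ t → f t = psi c lam A t := by
    intro t ht
    simp only [hf_def, EEN_of_ge ht, sub_zero]
  have hF : ∀ t : ℝ, 0 < t → f (1 / t) = t ^ k * f t := by
    intro t ht
    rw [hpow]
    rcases le_or_gt 1 t with h | h
    · rw [hfge t h]
      have h1 : 1 / t ≤ 1 := by rw [div_le_one ht]; exact h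
      simp only [hf_def]
      rw [EEN_of_le h1, hψ t ht, one_div, Real.log_inv, inv_pow, inv_inv, PhiN_odd]
      ring
    · have h1 : 1 ≤ 1 / t := by rw [le_div_iff₀ ht]; linarith
      rw [hfge _ h1, hψ t ht]
      simp only [hf_def]
      rw [EEN_of_le h.le]
      have ht0 : t ≠ 0 := ht.ne'
      have e1 : t ^ (2 * m + 2) = t ^ (m + 1) * t ^ (m + 1) := by rw [← pow_add]; congr 1; ring
      rw [e1]
      have hp : t ^ (m + 1) ≠ 0 := pow_ne_zero _ ht0
      field_simp
  obtain ⟨K, hK, hKb⟩ := psi_bound hc hlam hκ hA hS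
  have hfK : ∀ t : ℝ, 1 ≤ t → |f t| ≤ K * t ^ (-(k - 1)) * Real.exp (-(c / 2 * t)) := by
    intro t ht
    rw [hfge t ht]
    exact hKb t (by linarith)
  have hfcont : ContinuousOn f (Ioi 0) := (psi_cont hc hlam hκ hA hS).sub (EEN_cont m Nn PP RR L c₁)
  have hint : LocallyIntegrableOn (fun t : ℝ => (f t : ℂ)) (Ioi 0) := by
    refine ContinuousOn.locallyIntegrableOn ?_ measurableSet_Ioi
    exact Complex.continuous_ofReal.comp_continuousOn hfcont
  have htop : ∀ r : ℝ, (fun t : ℝ => (f t : ℂ) - 0) =O[atTop] (· ^ r : ℝ → ℝ) := by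
    intro r
    refine (isBigO_top hc hlam hk hA hS r).congr' ?_ (EventuallyEq.refl _ _)
    filter_upwards [eventually_ge_atTop 1] with t ht
    rw [hfge t ht]
  let P : WeakFEPair ℂ :=
    { f := fun t : ℝ => (f t : ℂ)
      g := fun t : ℝ => (f t : ℂ)
      k := k
      ε := 1
      f₀ := 0
      g₀ := 0
      hf_int := hint
      hg_int := hint
      hk := by linarith
      hε := one_ne_zero
      h_feq := by
        intro x hx
        have := hF x hx
        rw [this]
        push_cast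
        simp
      hf_top := htop
      hg_top := htop }
  have hP : IsStrongFEPair P := ⟨rfl, rfl⟩
  have hΛ : P.Λ = mellin (fun t : ℝ => (f t : ℂ)) := hP.Λ_eq
  refine ⟨P.Λ, hP.differentiable_Λ, ?_, ?_, ?_, ?_⟩
  · intro z
    have h1 := P.functional_equation z
    have h2 : P.symm.Λ = mellin (fun t : ℝ => (f t : ℂ)) := hP.symm_Λ_eq
    rw [h2, ← hΛ] at h1
    have h3 : (P.k : ℂ) = 2 * (m : ℂ) + 2 := by
      show ((k : ℝ) : ℂ) = _
      rw [hk_def]; push_cast; ring
    have h4 : P.ε = 1 := rfl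
    rw [h3, h4, one_smul] at h1
    exact h1
  · intro z
    rw [hΛ]
    unfold mellin
    rw [← integral_conj]
    refine setIntegral_congr_fun measurableSet_Ioi (fun t ht => ?_)
    have ht0 : (0 : ℝ) < t := ht
    have harg : ((t : ℝ) : ℂ).arg ≠ π := by
      rw [Complex.arg_ofReal_of_nonneg ht0.le]; exact Real.pi_pos.ne
    simp only [smul_eq_mul, map_mul, Complex.conj_ofReal]
    congr 1
    have e1 : (starRingEnd ℂ) z - 1 = (starRingEnd ℂ) (z - 1) := by simp
    rw [e1, Complex.cpow_conj _ _ harg, Complex.conj_ofReal]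
  · intro z hz
    have hz0 : 0 < z.re := by linarith
    have h1 : HasSum (fun n : ℕ => Complex.Gamma z * (A n : ℂ) / ((uu c lam n : ℝ) : ℂ) ^ z)
        (mellin (fun t : ℝ => (psi c lam A t : ℂ)) z) := by
      refine hasSum_mellin (a := fun n => (A n : ℂ)) (p := fun n => uu c lam n) ?_ hz0 ?_ ?_
      · intro n
        rcases eq_or_ne n 0 with rfl | hn
        · left; simp [hA]
        · right; exact uu_pos hc hn
      · intro t ht
        have h2 := (summable_term hc hlam hκ hA hS ht).hasSum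
        have h3 := Complex.hasSum_ofReal.2 h2
        have h4 : (fun n : ℕ => (A n : ℂ) * ((Real.exp (-(uu c lam n) * t) : ℝ) : ℂ)) =
            (fun n : ℕ => ((A n * Real.exp (-(uu c lam n * t)) : ℝ) : ℂ)) := by
          funext n
          rw [Complex.ofReal_mul, neg_mul]
        rw [h4]
        exact h3
      · -- summability
        have h5 : ∀ n : ℕ, ‖(A n : ℂ)‖ / (uu c lam n) ^ z.re ≤
            c ^ (-(z.re - (k - 1))) * (|A n| * (uu c lam n) ^ (-(k - 1))) := by
          intro n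
          rcases eq_or_ne n 0 with rfl | hn
          · simp [hA]
          · have hu := uu_pos (lam := lam) hc hn
            have hcu := le_uu hc hlam hn
            rw [Complex.norm_real, Real.norm_eq_abs, div_eq_mul_inv, ← Real.rpow_neg hu.le]
            have e1 : (uu c lam n) ^ (-z.re) = (uu c lam n) ^ (-(z.re - (k - 1))) * (uu c lam n) ^ (-(k - 1)) := by
              rw [← Real.rpow_add hu]; congr 1; ring
            have e2 : (uu c lam n) ^ (-(z.re - (k - 1))) ≤ c ^ (-(z.re - (k - 1))) :=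
              Real.rpow_le_rpow_of_nonpos hc hcu (by linarith)
            rw [e1]
            have e3 : 0 ≤ (uu c lam n) ^ (-(k - 1)) := Real.rpow_nonneg hu.le _
            calc |A n| * ((uu c lam n) ^ (-(z.re - (k - 1))) * (uu c lam n) ^ (-(k - 1)))
                = (uu c lam n) ^ (-(z.re - (k - 1))) * (|A n| * (uu c lam n) ^ (-(k - 1))) := by ring
              _ ≤ _ := mul_le_mul_of_nonneg_right e2 (by positivity)
        refine Summable.of_nonneg_of_le (fun n => ?_) h5 (hS.mul_left _)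
        refine div_nonneg (norm_nonneg _) (Real.rpow_nonneg ?_ _)
        unfold uu; positivity
    have hzm : (m : ℝ) + 1 < z.re := by linarith
    have hMf : HasMellin (fun t : ℝ => (f t : ℂ)) z (P.Λ z) := hP.hasMellin z
    have hME := hasMellin_EEN (m := m) (N := Nn) (P := PP) (R := RR) (L := L) (C := c₁) hzm
    have hMa := hasMellin_add hMf.1 hME.1
    rw [hMf.2, hME.2] at hMa
    have hψM : mellin (fun t : ℝ => (psi c lam A t : ℂ)) z =
        P.Λ z - (c₁ : ℂ) * TN Nn PP RR L (z - (m + 1)) := by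
      rw [sub_eq_add_neg, ← hMa.2]
      congr 1
      funext t
      simp only [hf_def]
      push_cast
      ring
    rw [hψM] at h1
    have hG : Complex.Gamma z ≠ 0 := Complex.Gamma_ne_zero_of_re_pos hz0
    have h2 := h1.mul_right (Complex.Gamma z)⁻¹
    have h3 : (fun n : ℕ => if n = 0 then 0 else (A n : ℂ) * ((uu c lam n : ℝ) : ℂ) ^ (-z)) =
        (fun n : ℕ => Complex.Gamma z * (A n : ℂ) / ((uu c lam n : ℝ) : ℂ) ^ z * (Complex.Gamma z)⁻¹) := by
      funext n
      rcases eq_or_ne n 0 with rfl | hn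
      · simp [hA]
      · rw [if_neg hn, Complex.cpow_neg]
        field_simp
    rw [h3]
    exact h2
  · obtain ⟨D, hD, hDb⟩ := f_pointwise hc hk hK hfK hF
    have hb1 : 1 ≤ 1 + 4 / c := by have : 0 < 4 / c := by positivity
                                   linarith
    set l : ℝ := Real.log (1 + 4 / c) with hl
    have hL0 : 0 ≤ l := Real.log_nonneg hb1
    refine ⟨D * (4 / c) + 9 + 3 * l, fun z => ?_⟩
    set N : ℕ := ⌈|z.re|⌉₊ with hN
    have hxN : |z.re| ≤ N := Nat.le_ceil _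
    have hNz : (N : ℝ) ≤ ‖z‖ + 1 := by
      have := Nat.ceil_lt_add_one (abs_nonneg z.re)
      have h2 := Complex.abs_re_le_norm z
      linarith
    have hmel : ‖P.Λ z‖ ≤ D * (N + 2)! * (1 + 4 / c) ^ (N + 2) * (4 / c) := by
      rw [hΛ]
      unfold mellin
      have hI : IntegrableOn (fun t : ℝ => D * (N + 2)! * (1 + 4 / c) ^ (N + 2) * Real.exp (-(c / 4) * t)) (Ioi 0) :=
        (integrableOn_exp_mul_Ioi (by linarith [show 0 < c / 4 by positivity]) 0).const_mul _
      have h1 := norm_integral_le_of_norm_le hI (f := fun t : ℝ => (t : ℂ) ^ (z - 1) • ((f t : ℝ) : ℂ)) (by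
        refine (ae_restrict_iff' measurableSet_Ioi).2 (Eventually.of_forall (fun t ht => ?_))
        have ht0 : (0 : ℝ) < t := ht
        have h2 := hDb N z.re t hxN ht0
        rw [norm_smul, Complex.norm_cpow_eq_rpow_re_of_pos ht0, Complex.norm_real, Real.norm_eq_abs,
          Complex.sub_re, Complex.one_re, mul_comm]
        rw [neg_mul]
        exact h2)
      refine h1.trans (le_of_eq ?_)
      rw [integral_const_mul, integral_exp_mul_Ioi (by linarith [show 0 < c / 4 by positivity])]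
      simp
    have hz0 : 0 ≤ ‖z‖ := norm_nonneg z
    -- bounds by exponentials
    have b1 : D * (4 / c) ≤ Real.exp (D * (4 / c)) := by
      have := Real.add_one_le_exp (D * (4 / c)); linarith
    have b2 : (((N + 2)! : ℕ) : ℝ) ≤ Real.exp ((‖z‖ + 3) ^ 2) := by
      have h1 : (N + 2)! ≤ (N + 2) ^ (N + 2) := Nat.factorial_le_pow _
      have h2 : (((N + 2)! : ℕ) : ℝ) ≤ ((N : ℝ) + 2) ^ (N + 2) := by exact_mod_cast h1
      have h3 : ((N : ℝ) + 2) ≤ Real.exp ((N : ℝ) + 2) := by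
        have := Real.add_one_le_exp ((N : ℝ) + 2); linarith
      have h4 : ((N : ℝ) + 2) ^ (N + 2) ≤ Real.exp ((N : ℝ) + 2) ^ (N + 2) :=
        pow_le_pow_left₀ (by positivity) h3 _
      rw [← Real.exp_nat_mul] at h4
      refine (h2.trans h4).trans (Real.exp_le_exp.2 ?_)
      push_cast
      have : (N : ℝ) + 2 ≤ ‖z‖ + 3 := by linarith
      have h0 : (0 : ℝ) ≤ (N : ℝ) + 2 := by positivity
      nlinarith
    have b3 : (1 + 4 / c) ^ (N + 2) ≤ Real.exp (l * (‖z‖ + 3)) := by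
      have h1 : 1 + 4 / c = Real.exp l := by rw [hl, Real.exp_log (by linarith)]
      rw [h1, ← Real.exp_nat_mul]
      apply Real.exp_le_exp.2
      push_cast
      have : (N : ℝ) + 2 ≤ ‖z‖ + 3 := by linarith
      nlinarith
    calc ‖P.Λ z‖
        ≤ (D * (N + 2)! * (1 + 4 / c) ^ (N + 2) * (4 / c)) := hmel
      _ = (D * (4 / c)) * ((N + 2)! : ℕ) * (1 + 4 / c) ^ (N + 2) := by ring
      _ ≤ Real.exp (D * (4 / c)) * Real.exp ((‖z‖ + 3) ^ 2) * Real.exp (l * (‖z‖ + 3)) := by gcongr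
      _ = Real.exp (D * (4 / c) + (‖z‖ + 3) ^ 2 + l * (‖z‖ + 3)) := by
          rw [← Real.exp_add, ← Real.exp_add]
      _ ≤ Real.exp ((D * (4 / c) + 9 + 3 * l) * (1 + ‖z‖) ^ 2) := by
          apply Real.exp_le_exp.2
          have hd : 0 ≤ D * (4 / c) := by positivity
          have q0 : 1 ≤ (1 + ‖z‖) ^ 2 := by nlinarith
          have q1 : D * (4 / c) ≤ D * (4 / c) * (1 + ‖z‖) ^ 2 := le_mul_of_one_le_right hd q0
          have q2 : (‖z‖ + 3) ^ 2 ≤ 9 * (1 + ‖z‖) ^ 2 := by nlinarith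
          have q3 : l * (‖z‖ + 3) ≤ 3 * l * (1 + ‖z‖) ^ 2 := by nlinarith [mul_nonneg hL0 hz0, mul_nonneg hL0 (sq_nonneg ‖z‖)]
          nlinarith

end Pool.Agent.H886R3.HF
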