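import Mathlib
import Pool.Agent.H13R3.EM.Defs2
import Pool.Agent.H886R3.TaskEMB

/-!
# Task EM-P: peak form of the correlation
-/

set_option autoImplicit false

open Finset MeasureTheory

namespace Pool.Agent.H886R3.EMP

open Pool.Agent.H13R3.EM Pool.Agent.H886R3.EMB

/-- the single correlation, with a common bound `W` -/
theorem corr_bound' (a : ℕ → ℝ) {κ y W : ℝ} {k : ℕ} (hk : 1 ≤ k) (hy : 1 ≤ y)
    (hW : II a y ≤ W) (hmax : II a (y / k) ≤ (k : ℝ) ^ (-(1 + 2 * κ)) * W) :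
    |∫ x in (1:ℝ)..y, EE a x * EE a (x / k)| ≤ (k : ℝ) ^ (-κ) * W := by
  have hk0 : (0 : ℝ) < k := by exact_mod_cast hk
  set w : ℝ := (k : ℝ) ^ (-κ) with hw
  have hw0 : 0 < w := by positivity
  have hpt : ∀ x : ℝ, |EE a x * EE a (x / k)| ≤ w / 2 * (EE a x) ^ 2 + w⁻¹ / 2 * (EE a (x / k)) ^ 2 := by
    intro x
    rw [abs_mul]
    have e1 : (EE a x) ^ 2 = |EE a x| ^ 2 := (sq_abs _).symm
    have e2 : (EE a (x / k)) ^ 2 = |EE a (x / k)| ^ 2 := (sq_abs _).symm
    rw [e1, e2]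
    have h3 : w / 2 * |EE a x| ^ 2 + w⁻¹ / 2 * |EE a (x / k)| ^ 2 - |EE a x| * |EE a (x / k)|
        = w⁻¹ / 2 * (w * |EE a x| - |EE a (x / k)|) ^ 2 := by
      field_simp
      ring
    have h4 : 0 ≤ w⁻¹ / 2 * (w * |EE a x| - |EE a (x / k)|) ^ 2 := by positivity
    linarith
  have n1 : Nice (fun x => w / 2 * (EE a x) ^ 2) := (nice_sq a).const_mul _
  have n2 : Nice (fun x => w⁻¹ / 2 * (EE a (x / k)) ^ 2) := ((nice_sq a).comp_div hk0).const_mul _
  calc |∫ x in (1:ℝ)..y, EE a x * EE a (x / k)|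
      ≤ ∫ x in (1:ℝ)..y, |EE a x * EE a (x / k)| := intervalIntegral.abs_integral_le_integral_abs hy
    _ ≤ ∫ x in (1:ℝ)..y, (w / 2 * (EE a x) ^ 2 + w⁻¹ / 2 * (EE a (x / k)) ^ 2) := by
        apply intervalIntegral.integral_mono_on hy
        · exact ((((nice_EE a).mul ((nice_EE a).comp_div hk0)).intervalIntegrable 1 y)).abs
        · exact (n1.add n2).intervalIntegrable 1 y
        · intro x _
          exact hpt x
    _ = w / 2 * II a y + w⁻¹ / 2 * (k * II a (y / k)) := by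
        rw [intervalIntegral.integral_add (n1.intervalIntegrable 1 y) (n2.intervalIntegrable 1 y),
          intervalIntegral.integral_const_mul, intervalIntegral.integral_const_mul,
          integral_comp_div_sq a hk]
        rfl
    _ ≤ w / 2 * W + w⁻¹ / 2 * (k * ((k : ℝ) ^ (-(1 + 2 * κ)) * W)) := by
        gcongr
    _ = w * W := by
        have e : w⁻¹ * (k * (k : ℝ) ^ (-(1 + 2 * κ))) = w := by
          rw [hw, ← Real.rpow_neg hk0.le]
          nth_rewrite 2 [← Real.rpow_one (k : ℝ)]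
          rw [← Real.rpow_add hk0, ← Real.rpow_add hk0]
          congr 1
          ring
        calc w / 2 * W + w⁻¹ / 2 * (k * ((k : ℝ) ^ (-(1 + 2 * κ)) * W))
            = w / 2 * W + (w⁻¹ * (k * (k : ℝ) ^ (-(1 + 2 * κ)))) / 2 * W := by ring
          _ = w * W := by rw [e]; ring

/-- the main estimate at `y ≤ T` -/
theorem main_est (a g : ℕ → ℝ) {κ : ℝ} (hκ : 0 ≤ κ) (hg1 : g 1 = 1)
    (hsum : Summable (fun k : ℕ => |g k| * (k : ℝ) ^ (-κ)))
    (hquart : ∑' k : ℕ, (if 2 ≤ k then |g k| * (k : ℝ) ^ (-κ) else 0) ≤ 1 / 4) {T M y : ℝ}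
    (hM : 0 ≤ M) (hT : 1 ≤ T) (hall : ∀ t : ℝ, 1 ≤ t → t ≤ T → II a t ≤ (t / T) ^ (1 + 2 * κ) * M)
    (hy : 1 ≤ y) (hyT : y ≤ T) :
    |(∫ x in (1:ℝ)..y, EE a x * EE (cv g a) x) - II a y| ≤ 1 / 4 * ((y / T) ^ (1 + 2 * κ) * M) := by
  set p : ℝ := 1 + 2 * κ with hp
  have hp0 : 0 < p := by positivity
  have hypos : 0 < y := lt_of_lt_of_le one_pos hy
  have hTpos : 0 < T := lt_of_lt_of_le one_pos hT
  set W : ℝ := (y / T) ^ p * M with hWdef
  have hW0 : 0 ≤ W := by positivity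
  have hpiece : ∀ k : ℕ, 1 ≤ k → k ≤ ⌊y⌋₊ → II a (y / k) ≤ (k : ℝ) ^ (-p) * W := by
    intro k hk hkT
    have hk0 : (0 : ℝ) < k := by exact_mod_cast hk
    have hk1 : (1 : ℝ) ≤ k := by exact_mod_cast hk
    have hkT' : (k : ℝ) ≤ y := (Nat.le_floor_iff hypos.le).1 hkT
    have h1 : 1 ≤ y / k := by rw [le_div_iff₀ hk0]; linarith
    have h2 : y / k ≤ T := (div_le_self hypos.le hk1).trans hyT
    refine (hall (y / k) h1 h2).trans (le_of_eq ?_)
    rw [hWdef, div_right_comm, Real.div_rpow (by positivity) hk0.le, Real.rpow_neg hk0.le]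
    field_simp
  have hexp : ∫ x in (1:ℝ)..y, EE a x * EE (cv g a) x
      = ∑ k ∈ Icc 1 ⌊y⌋₊, g k * ∫ x in (1:ℝ)..y, EE a x * EE a (x / k) := by
    have h1 : ∫ x in (1:ℝ)..y, EE a x * EE (cv g a) x
        = ∫ x in (1:ℝ)..y, ∑ k ∈ Icc 1 ⌊y⌋₊, g k * (EE a x * EE a (x / k)) := by
      apply intervalIntegral.integral_congr
      intro x hx
      rw [Set.uIcc_of_le hy] at hx
      simp only
      rw [EE_cv_le a g hx.2, Finset.mul_sum]
      refine Finset.sum_congr rfl fun k _ => ?_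
      ring
    rw [h1, intervalIntegral.integral_finsetSum]
    · refine Finset.sum_congr rfl fun k _ => ?_
      rw [intervalIntegral.integral_const_mul]
    · intro k hk
      have hk0 : (0 : ℝ) < k := by
        have := (Finset.mem_Icc.1 hk).1
        exact_mod_cast this
      exact (((nice_EE a).mul ((nice_EE a).comp_div hk0)).const_mul (g k)).intervalIntegrable 1 y
  have hfl : 1 ≤ ⌊y⌋₊ := (Nat.le_floor_iff hypos.le).2 (by exact_mod_cast hy)
  have hsplit : ∑ k ∈ Icc 1 ⌊y⌋₊, g k * ∫ x in (1:ℝ)..y, EE a x * EE a (x / k)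
      = II a y + ∑ k ∈ Icc 2 ⌊y⌋₊, g k * ∫ x in (1:ℝ)..y, EE a x * EE a (x / k) := by
    rw [← Finset.add_sum_Ioc_eq_sum_Icc hfl, hg1]
    congr 1
    · rw [one_mul]
      unfold II
      congr 1
      funext x
      rw [Nat.cast_one, div_one, sq]
  have hrest : |∑ k ∈ Icc 2 ⌊y⌋₊, g k * ∫ x in (1:ℝ)..y, EE a x * EE a (x / k)| ≤ 1 / 4 * W := by
    calc |∑ k ∈ Icc 2 ⌊y⌋₊, g k * ∫ x in (1:ℝ)..y, EE a x * EE a (x / k)|
        ≤ ∑ k ∈ Icc 2 ⌊y⌋₊, |g k * ∫ x in (1:ℝ)..y, EE a x * EE a (x / k)| :=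
          Finset.abs_sum_le_sum_abs _ _
      _ ≤ ∑ k ∈ Icc 2 ⌊y⌋₊, (if 2 ≤ k then |g k| * (k : ℝ) ^ (-κ) else 0) * W := by
          apply Finset.sum_le_sum
          intro k hk
          rw [Finset.mem_Icc] at hk
          rw [if_pos hk.1, abs_mul, mul_assoc]
          apply mul_le_mul_of_nonneg_left _ (abs_nonneg _)
          exact corr_bound' a (by omega) hy (hall y hy hyT) (hpiece k (by omega) hk.2)
      _ = (∑ k ∈ Icc 2 ⌊y⌋₊, (if 2 ≤ k then |g k| * (k : ℝ) ^ (-κ) else 0)) * W := by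
          rw [Finset.sum_mul]
      _ ≤ 1 / 4 * W := by
          apply mul_le_mul_of_nonneg_right _ hW0
          refine le_trans ?_ hquart
          refine Summable.sum_le_tsum _ (fun k _ => ?_) ?_
          · split_ifs <;> positivity
          · refine Summable.of_nonneg_of_le (fun k => ?_) (fun k => ?_) hsum
            · split_ifs <;> positivity
            · split_ifs
              · exact le_rfl
              · positivity
  rw [hexp, hsplit, add_sub_cancel_left]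
  exact hrest

/-- **Task EM-P.** -/
theorem taskP : TaskP := by
  intro κ a g hκ hg1 hsum hquart hbig C T₀
  set p : ℝ := 1 + 2 * κ with hp
  have hp0 : 0 < p := by positivity
  have hcont : ∀ S : ℝ, ContinuousOn (fun t : ℝ => II a t / t ^ p) (Set.Icc 1 S) := by
    intro S
    apply ContinuousOn.div (II_cont a).continuousOn
    · intro t ht
      exact (Real.continuousAt_rpow_const t p (Or.inr hp0.le)).continuousWithinAt
    · intro t ht
      have : 0 < t := lt_of_lt_of_le one_pos ht.1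
      positivity
  obtain ⟨B, hB⟩ := (isCompact_Icc (a := (1 : ℝ)) (b := T₀)).exists_bound_of_continuousOn (hcont T₀)
  obtain ⟨T₁, hT₁, hC₁⟩ := hbig (|C| + |B|)
  obtain ⟨T, hT, hmax⟩ := isCompact_Icc.exists_isMaxOn ⟨1, Set.left_mem_Icc.2 hT₁⟩ (hcont T₁)
  have hT1 : 1 ≤ T := hT.1
  have hTpos : 0 < T := lt_of_lt_of_le one_pos hT1
  have hTp : 0 < T ^ p := by positivity
  have hJ : ∀ t ∈ Set.Icc 1 T₁, II a t / t ^ p ≤ II a T / T ^ p := fun t ht => hmax ht
  have hbigT : |C| + |B| < II a T / T ^ p := by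
    refine lt_of_lt_of_le ?_ (hJ T₁ (Set.right_mem_Icc.2 hT₁))
    have : 0 < T₁ := lt_of_lt_of_le one_pos hT₁
    rw [lt_div_iff₀ (by positivity)]
    exact hC₁
  have hTT₀ : T₀ ≤ T := by
    by_contra hcon
    push Not at hcon
    have h1 := hB T ⟨hT1, hcon.le⟩
    rw [Real.norm_eq_abs] at h1
    have h2 := le_abs_self (II a T / T ^ p)
    have h3 := le_abs_self B
    have h4 := abs_nonneg C
    linarith
  have hM : 0 ≤ II a T := II_nonneg a hT1
  have hall : ∀ t : ℝ, 1 ≤ t → t ≤ T → II a t ≤ (t / T) ^ p * II a T := by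
    intro t ht1 htT
    have htpos : 0 < t := lt_of_lt_of_le one_pos ht1
    have h3 := hJ t ⟨ht1, htT.trans hT.2⟩
    have h4 : 0 < t ^ p := by positivity
    rw [div_le_iff₀ h4] at h3
    refine h3.trans (le_of_eq ?_)
    rw [Real.div_rpow htpos.le hTpos.le]
    ring
  refine ⟨T, hT1, hTT₀, ?_, ?_, ?_⟩
  · have h1 : |C| < II a T / T ^ p := by
      have := abs_nonneg B
      linarith
    rw [lt_div_iff₀ hTp] at h1
    have h2 : C * T ^ p ≤ |C| * T ^ p := mul_le_mul_of_nonneg_right (le_abs_self C) hTp.le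
    exact lt_of_le_of_lt h2 h1
  · have h := main_est a g hκ hg1 hsum hquart hM hT1 hall hT1 le_rfl
    rw [div_self hTpos.ne', Real.one_rpow, one_mul] at h
    have h5 := (abs_le.1 h).1
    have e : II a T = ∫ x in (1:ℝ)..T, (EE a x) ^ 2 := rfl
    rw [← e]
    linarith
  · intro y hy hyT
    have h := main_est a g hκ hg1 hsum hquart hM hT1 hall hy hyT
    have h6 := hall y hy hyT
    have h7 : 0 ≤ II a y := II_nonneg a hy
    have h5 := abs_le.1 h
    have e : II a T = ∫ x in (1:ℝ)..T, (EE a x) ^ 2 := rfl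
    rw [← e, mul_assoc, abs_le]
    constructor
    · linarith [h5.1, h5.2]
    · linarith [h5.1, h5.2]

end Pool.Agent.H886R3.EMP
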