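import Mathlib
import Pool.Agent.H870R4.Noz.Stmts

/-!
# H870-NOZ, TaskGeoC: the flow in the complex plane
-/

set_option autoImplicit false

open MeasureTheory Set
open scoped ContDiff

namespace Pool.Agent.H886R3.Noz

open H870N

/-- real linear map with columns `a`, `b` -/
noncomputable def DD (a b : ℂ) : ℂ →L[ℝ] ℂ :=
  Complex.reCLM.smulRight a + Complex.imCLM.smulRight b

theorem DD_apply (a b z : ℂ) : DD a b z = z.re • a + z.im • b := rfl

theorem DD_one (a b : ℂ) : DD a b 1 = a := by simp [DD_apply]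

theorem DD_I (a b : ℂ) : DD a b Complex.I = b := by simp [DD_apply]

theorem DD_contOn {s : Set ℂ} {f g : ℂ → ℂ} (hf : ContinuousOn f s) (hg : ContinuousOn g s) :
    ContinuousOn (fun w => DD (f w) (g w)) s := by
  have h1 : Continuous fun c : ℂ => Complex.reCLM.smulRight c :=
    (ContinuousLinearMap.smulRightL ℝ ℂ ℂ Complex.reCLM).continuous
  have h2 : Continuous fun c : ℂ => Complex.imCLM.smulRight c :=
    (ContinuousLinearMap.smulRightL ℝ ℂ ℂ Complex.imCLM).continuous
  exact (h1.comp_continuousOn hf).add (h2.comp_continuousOn hg)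

theorem hasF_of_deriv {f : ℂ → ℂ} {f' w : ℂ} (h : HasDerivAt f f' w) :
    HasFDerivAt f (DD f' (Complex.I * f')) w := by
  have h1 := h.complexToReal_fderiv
  have h2 : f' • (1 : ℂ →L[ℝ] ℂ) = DD f' (Complex.I * f') := by
    refine ContinuousLinearMap.ext fun z => ?_
    rw [DD_apply]
    show f' * z = z.re • f' + z.im • (Complex.I * f')
    rw [Complex.real_smul, Complex.real_smul]
    conv_lhs => rw [← Complex.re_add_im z]
    ring
  rwa [h2] at h1

/-- the big rectangle -/
abbrev DB : Set ℂ := crect (1 / 32) 550 (1 / 180)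

/-- the small rectangle -/
abbrev DS : Set ℂ := crect (1 / 30) 540 (1 / 200)

theorem DS_sub : DS ⊆ DB := by
  rintro w ⟨h1, h2, h3⟩
  refine ⟨by norm_num at h1 ⊢; linarith, by linarith, by linarith⟩

theorem DB_open : IsOpen DB := by
  have h1 : IsOpen {w : ℂ | (1 / 32 : ℝ) < w.re} := isOpen_lt continuous_const Complex.continuous_re
  have h2 : IsOpen {w : ℂ | w.re < (550 : ℝ)} := isOpen_lt Complex.continuous_re continuous_const
  have h3 : IsOpen {w : ℂ | |w.im| < (1 / 180 : ℝ)} :=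
    isOpen_lt (continuous_abs.comp Complex.continuous_im) continuous_const
  exact h1.inter (h2.inter h3)

theorem DB_im {w : ℂ} (hw : w ∈ DB) : w.im ∈ Ioo (-(1 / 180) : ℝ) (1 / 180) := abs_lt.1 hw.2.2

theorem comp_im {f : ℝ → ℝ} (hf : ContinuousOn f (Ioo (-(1 / 180) : ℝ) (1 / 180))) :
    ContinuousOn (fun w : ℂ => f w.im) DB :=
  hf.comp Complex.continuous_im.continuousOn fun _ hw => DB_im hw

/-- continuity of the columns in the collar -/
theorem collar_cont {al al' q : ℝ → ℝ} (h1 : ContinuousOn al (Ioo (-(1 / 180) : ℝ) (1 / 180)))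
    (h2 : ContinuousOn al' (Ioo (-(1 / 180) : ℝ) (1 / 180)))
    (h3 : ContinuousOn q (Ioo (-(1 / 180) : ℝ) (1 / 180))) :
    ContinuousOn (fun w : ℂ => DD (Complex.exp (Complex.I * (al w.im : ℝ)))
      (Complex.I * Complex.exp (Complex.I * (al w.im : ℝ)) *
        ((1 + (w.re - q w.im) * al' w.im : ℝ) : ℂ))) DB := by
  have f1 := comp_im h1
  have f2 := comp_im h2
  have f3 := comp_im h3
  have e0 : ContinuousOn (fun w : ℂ => ((al w.im : ℝ) : ℂ)) DB :=
    Complex.continuous_ofReal.comp_continuousOn f1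
  have e1 : ContinuousOn (fun w : ℂ => Complex.exp (Complex.I * (al w.im : ℝ))) DB :=
    (continuousOn_const.mul e0).cexp
  have e3 : ContinuousOn (fun w : ℂ => 1 + (w.re - q w.im) * al' w.im) DB :=
    continuousOn_const.add ((Complex.continuous_re.continuousOn.sub f3).mul f2)
  have e2 : ContinuousOn (fun w : ℂ => (((1 + (w.re - q w.im) * al' w.im : ℝ)) : ℂ)) DB :=
    Complex.continuous_ofReal.comp_continuousOn e3
  have e4 : ContinuousOn (fun w : ℂ => Complex.I * Complex.exp (Complex.I * (al w.im : ℝ)) *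
        ((1 + (w.re - q w.im) * al' w.im : ℝ) : ℂ)) DB := (continuousOn_const.mul e1).mul e2
  exact DD_contOn e1 e4

theorem taskGeoC : TaskGeoC := by
  classical
  intro hInv hCurve hGlue hCore hSm hCollar
  obtain ⟨δ1, hδ1, hInv⟩ := hInv
  obtain ⟨δ2, hδ2, hCurve⟩ := hCurve
  obtain ⟨δ4, hδ4, hCollar⟩ := hCollar hCore hSm
  obtain ⟨δ3, hδ3, hCore⟩ := hCore
  obtain ⟨δ, hδ, l1, l2, l3, l4, l5⟩ : ∃ δ : ℝ, 0 < δ ∧ δ ≤ δ1 ∧ δ ≤ δ2 ∧ δ ≤ δ3 ∧ δ ≤ δ4 ∧
      δ ≤ 1 / 1000 := by
    refine ⟨min (min (min δ1 δ2) (min δ3 δ4)) (1 / 1000), by positivity, ?_, ?_, ?_, ?_, ?_⟩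
    · exact (min_le_left _ _).trans ((min_le_left _ _).trans (min_le_left _ _))
    · exact (min_le_left _ _).trans ((min_le_left _ _).trans (min_le_right _ _))
    · exact (min_le_left _ _).trans ((min_le_right _ _).trans (min_le_left _ _))
    · exact (min_le_left _ _).trans ((min_le_right _ _).trans (min_le_right _ _))
    · exact min_le_right _ _
  obtain ⟨σ, hσ⟩ := hInv δ hδ l1
  obtain ⟨q1, θ1, c1⟩ := hCurve δ σ hδ l2 hσ (-Real.pi) (Or.inl rfl)
  obtain ⟨q2, θ2, c2⟩ := hCurve δ σ hδ l2 hσ (2 * Real.pi) (Or.inr rfl)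
  have core := hCore δ σ hδ l3 hσ
  obtain ⟨s1, s2, s3, s4, s5⟩ := hSm δ σ hδ l5 hσ
  obtain ⟨k1a, k1b, k1c, k1d⟩ := hCollar δ (-Real.pi) 1 σ q1 θ1 hδ l4 hσ c1 (Or.inl ⟨rfl, rfl⟩)
  obtain ⟨k2a, k2b, k2c, k2d⟩ := hCollar δ (2 * Real.pi) (-1) σ q2 θ2 hδ l4 hσ c2
    (Or.inr ⟨rfl, rfl⟩)
  have hpi := Real.pi_pos
  -- the functions
  set al1 := al δ (-Real.pi) 1 θ1 with hal1
  set al2 := al δ (2 * Real.pi) (-1) θ2 with hal2
  let g1 : ℂ → ℝ := fun w => w.re - q1 w.im
  let g2 : ℂ → ℝ := fun w => w.re - q2 w.im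
  let Z : ℂ → ℂ := fun w => (1 - δ * Bp (σ w)) / (1 + δ * Bp (σ w))
  let Y0 : ℂ → ℂ := fun w => w - 2 * δ * Bf (σ w)
  let a1 : ℂ → ℂ := fun w => Complex.exp (Complex.I * (al1 w.im : ℝ))
  let t1 : ℂ → ℝ := fun w => 1 + (w.re - q1 w.im) * deriv al1 w.im
  let a2 : ℂ → ℂ := fun w => Complex.exp (Complex.I * (al2 w.im : ℝ))
  let t2 : ℂ → ℝ := fun w => 1 + (w.re - q2 w.im) * deriv al2 w.im
  have hq1c : ContinuousOn q1 (Ioo (-(1 / 180) : ℝ) (1 / 180)) := c1.hq.continuousOn
  have hq2c : ContinuousOn q2 (Ioo (-(1 / 180) : ℝ) (1 / 180)) := c2.hq.continuousOn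
  have hg1c : ContinuousOn g1 DB := Complex.continuous_re.continuousOn.sub (comp_im hq1c)
  have hg2c : ContinuousOn g2 DB := Complex.continuous_re.continuousOn.sub (comp_im hq2c)
  have hZc : ContinuousOn Z DB := by
    refine ContinuousOn.div ?_ ?_ fun w hw => (hσ w hw).2.2.2.1
    · exact continuousOn_const.sub (continuousOn_const.mul s4.continuousOn)
    · exact continuousOn_const.add (continuousOn_const.mul s4.continuousOn)
  -- lam and the curves
  have lam1 : ∀ w ∈ DB, (lam (σ w) < -Real.pi ↔ g1 w < 0) ∧ (lam (σ w) = -Real.pi ↔ g1 w = 0) := by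
    intro w hw
    have h := c1.lt w.re w.im hw
    rw [Complex.eta] at h
    refine ⟨h.1.trans ?_, h.2.trans ?_⟩
    · exact sub_neg.symm
    · exact sub_eq_zero.symm
  have lam2 : ∀ w ∈ DB, (lam (σ w) < 2 * Real.pi ↔ g2 w < 0) ∧
      (lam (σ w) = 2 * Real.pi ↔ g2 w = 0) := by
    intro w hw
    have h := c2.lt w.re w.im hw
    rw [Complex.eta] at h
    refine ⟨h.1.trans ?_, h.2.trans ?_⟩
    · exact sub_neg.symm
    · exact sub_eq_zero.symm
  -- w on the curves
  have hon : ∀ (q : ℝ → ℝ) (w : ℂ), w.re - q w.im = 0 → (⟨q w.im, w.im⟩ : ℂ) = w := by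
    intro q w h
    apply Complex.ext
    · show q w.im = w.re
      linarith
    · rfl
  -- first gluing
  have glue2 := hGlue DB Y0 (Yk δ (2 * Real.pi) (-1) σ q2 θ2)
    (fun w => DD (Z w) (Complex.I * Z w))
    (fun w => DD (a2 w) (Complex.I * a2 w * (t2 w : ℂ))) g2 DB_open hg2c
    (fun w hw _ => hasF_of_deriv (core w hw).2.1)
    (fun w hw _ => (k2d w hw).1)
    ((DD_contOn hZc (continuousOn_const.mul hZc)).mono fun w hw => hw.1)
    ((collar_cont k2c k2b hq2c).mono fun w hw => hw.1)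
    (by
      intro w hw h0
      have hw0 := hon q2 w h0
      have h1 := (k2a w.im (DB_im hw)).1
      rw [hw0] at h1
      have h2 : Z w = a2 w := h1
      have h3 : t2 w = 1 := by
        show 1 + (w.re - q2 w.im) * deriv al2 w.im = 1
        rw [show w.re - q2 w.im = 0 from h0]; ring
      constructor
      · show w - 2 * δ * Bf (σ w) = ((⟨q2 w.im, w.im⟩ : ℂ) - 2 * δ * Bf (σ ⟨q2 w.im, w.im⟩)) +
          ((w.re - q2 w.im : ℝ) : ℂ) * Complex.exp (Complex.I * (al2 w.im : ℝ))
        rw [hw0, show w.re - q2 w.im = 0 from h0]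
        simp
      · show DD (Z w) (Complex.I * Z w) = DD (a2 w) (Complex.I * a2 w * (t2 w : ℂ))
        rw [h2, h3]
        simp)
  obtain ⟨glue2a, glue2b⟩ := glue2
  -- order of the curves
  have hord : ∀ w ∈ DB, g1 w ≤ 0 → g2 w < 0 := by
    intro w hw h
    rw [← (lam2 w hw).1]
    rcases h.lt_or_eq with h | h
    · have := (lam1 w hw).1.2 h
      linarith
    · have := (lam1 w hw).2.2 h
      linarith
  -- second gluing
  have glue1 := hGlue DB (Yk δ (-Real.pi) 1 σ q1 θ1) _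
    (fun w => DD (a1 w) (Complex.I * a1 w * (t1 w : ℂ))) _ g1 DB_open hg1c
    (fun w hw _ => (k1d w hw).1)
    (fun w hw _ => glue2a w hw)
    ((collar_cont k1c k1b hq1c).mono fun w hw => hw.1)
    (glue2b.mono fun w hw => hw.1)
    (by
      intro w hw h0
      have hw0 := hon q1 w h0
      have h1 := (k1a w.im (DB_im hw)).1
      rw [hw0] at h1
      have h2 : Z w = a1 w := h1
      have h3 : t1 w = 1 := by
        show 1 + (w.re - q1 w.im) * deriv al1 w.im = 1
        rw [show w.re - q1 w.im = 0 from h0]; ring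
      have h4 := hord w hw h0.le
      constructor
      · rw [if_pos h4]
        show ((⟨q1 w.im, w.im⟩ : ℂ) - 2 * δ * Bf (σ ⟨q1 w.im, w.im⟩)) +
          ((w.re - q1 w.im : ℝ) : ℂ) * Complex.exp (Complex.I * (al1 w.im : ℝ)) =
            w - 2 * δ * Bf (σ w)
        rw [hw0, show w.re - q1 w.im = 0 from h0]
        simp
      · rw [if_pos h4]
        show DD (a1 w) (Complex.I * a1 w * (t1 w : ℂ)) = DD (Z w) (Complex.I * Z w)
        rw [h2, h3]
        simp)
  obtain ⟨glue1a, glue1b⟩ := glue1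
  -- columns
  let a : ℂ → ℂ := fun w => if g1 w < 0 then a1 w else if g2 w < 0 then Z w else a2 w
  let t : ℂ → ℝ := fun w => if g1 w < 0 then t1 w else if g2 w < 0 then 1 else t2 w
  let b : ℂ → ℂ := fun w => Complex.I * a w * (t w : ℂ)
  have hDDeq : ∀ w, (if g1 w < 0 then DD (a1 w) (Complex.I * a1 w * (t1 w : ℂ)) else
      if g2 w < 0 then DD (Z w) (Complex.I * Z w) else
        DD (a2 w) (Complex.I * a2 w * (t2 w : ℂ))) = DD (a w) (b w) := by
    intro w
    show _ = DD (if g1 w < 0 then a1 w else if g2 w < 0 then Z w else a2 w)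
      (Complex.I * (if g1 w < 0 then a1 w else if g2 w < 0 then Z w else a2 w) *
        ((if g1 w < 0 then t1 w else if g2 w < 0 then 1 else t2 w : ℝ) : ℂ))
    split_ifs
    · rfl
    · simp
    · rfl
  have hder : ∀ w ∈ DB, HasFDerivAt (fun w => if g1 w < 0 then Yk δ (-Real.pi) 1 σ q1 θ1 w else
      if g2 w < 0 then Y0 w else Yk δ (2 * Real.pi) (-1) σ q2 θ2 w) (DD (a w) (b w)) w := by
    intro w hw
    rw [← hDDeq w]
    exact glue1a w hw
  have hDDc : ContinuousOn (fun w => DD (a w) (b w)) DB := by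
    have : (fun w => DD (a w) (b w)) = fun w =>
        (if g1 w < 0 then DD (a1 w) (Complex.I * a1 w * (t1 w : ℂ)) else
      if g2 w < 0 then DD (Z w) (Complex.I * Z w) else
        DD (a2 w) (Complex.I * a2 w * (t2 w : ℂ))) := funext fun w => (hDDeq w).symm
    rw [this]
    exact glue1b
  have hac : ContinuousOn a DB := by
    have h1 : ContinuousOn (fun w => DD (a w) (b w) 1) DB :=
      hDDc.clm_apply continuousOn_const
    simpa only [DD_one] using h1
  have hbc : ContinuousOn b DB := by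
    have h1 : ContinuousOn (fun w => DD (a w) (b w) Complex.I) DB :=
      hDDc.clm_apply continuousOn_const
    simpa only [DD_I] using h1
  -- bounds
  have hnear : ∀ w ∈ DB, ‖a w - 1‖ ≤ 1 / 8 ∧ ‖b w - Complex.I‖ ≤ 1 / 8 := by
    intro w hw
    have e1 := (k1d w hw).2
    have e2 := (k2d w hw).2
    have e0 := (core w hw).2.2.1
    have e0' : ‖Complex.I * Z w - Complex.I‖ ≤ 1 / 16 := by
      have : Complex.I * Z w - Complex.I = Complex.I * (Z w - 1) := by ring
      rw [this, norm_mul, Complex.norm_I, one_mul]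
      exact e0
    show ‖(if g1 w < 0 then a1 w else if g2 w < 0 then Z w else a2 w) - 1‖ ≤ 1 / 8 ∧
      ‖(Complex.I * (if g1 w < 0 then a1 w else if g2 w < 0 then Z w else a2 w) *
        ((if g1 w < 0 then t1 w else if g2 w < 0 then 1 else t2 w : ℝ) : ℂ)) - Complex.I‖ ≤ 1 / 8
    split_ifs
    · exact ⟨e1.1.trans (by norm_num), e1.2⟩
    · refine ⟨e0.trans (by norm_num), ?_⟩
      rw [Complex.ofReal_one, mul_one]
      exact e0'.trans (by norm_num)
    · exact ⟨e2.1.trans (by norm_num), e2.2⟩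
  have hapos : ∀ w ∈ DB, 7 / 8 ≤ ‖a w‖ := by
    intro w hw
    have h1 := (hnear w hw).1
    have h2 : ‖(1 : ℂ)‖ - ‖a w‖ ≤ ‖1 - a w‖ := norm_sub_norm_le _ _
    rw [norm_one, norm_sub_rev] at h2
    linarith
  -- the factor t
  have ht1 : ∀ w ∈ DB, g1 w < 0 → 1 < t1 w := by
    intro w hw h
    have h1 := (k1a w.im (DB_im hw)).2.2
    rw [one_mul] at h1
    have h2 : 0 < (w.re - q1 w.im) * deriv al1 w.im := mul_pos_of_neg_of_neg h h1
    show 1 < 1 + (w.re - q1 w.im) * deriv al1 w.im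
    linarith
  have ht2 : ∀ w ∈ DB, 0 < g2 w → 1 < t2 w := by
    intro w hw h
    have h1 := (k2a w.im (DB_im hw)).2.2
    have h3 : 0 < deriv al2 w.im := by linarith
    have h2 : 0 < (w.re - q2 w.im) * deriv al2 w.im := mul_pos h h3
    show 1 < 1 + (w.re - q2 w.im) * deriv al2 w.im
    linarith
  have ht20 : ∀ w, g2 w = 0 → t2 w = 1 := by
    intro w h
    show 1 + (w.re - q2 w.im) * deriv al2 w.im = 1
    rw [show w.re - q2 w.im = 0 from h]; ring
  have ht : ∀ w ∈ DB, 1 ≤ t w := by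
    intro w hw
    show 1 ≤ (if g1 w < 0 then t1 w else if g2 w < 0 then 1 else t2 w)
    split_ifs with h1 h2
    · exact (ht1 w hw h1).le
    · exact le_rfl
    · rcases (not_lt.1 h2).lt_or_eq with h3 | h3
      · exact (ht2 w hw h3).le
      · rw [ht20 w h3.symm]
  have hbnorm : ∀ w ∈ DB, ‖b w‖ = ‖a w‖ * t w := by
    intro w hw
    show ‖Complex.I * a w * (t w : ℂ)‖ = ‖a w‖ * t w
    rw [norm_mul, norm_mul, Complex.norm_I, one_mul, Complex.norm_real, Real.norm_eq_abs,
      abs_of_nonneg (by linarith [ht w hw])]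
  -- norms of the columns in the collars
  have hn1 : ∀ w, ‖a1 w‖ = 1 := by
    intro w
    show ‖Complex.exp (Complex.I * (al1 w.im : ℝ))‖ = 1
    rw [mul_comm]
    exact Complex.norm_exp_ofReal_mul_I _
  have hn2 : ∀ w, ‖a2 w‖ = 1 := by
    intro w
    show ‖Complex.exp (Complex.I * (al2 w.im : ℝ))‖ = 1
    rw [mul_comm]
    exact Complex.norm_exp_ofReal_mul_I _
  have hn0 : ∀ w, ‖Z w‖ = 1 / Vm δ (σ w) := by
    intro w
    show ‖(1 - δ * Bp (σ w)) / (1 + δ * Bp (σ w))‖ =
      1 / (‖1 + δ * Bp (σ w)‖ / ‖1 - δ * Bp (σ w)‖)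
    rw [norm_div, one_div_div]
  -- speed in the middle
  have hVmid : ∀ w ∈ DB, -Real.pi ≤ lam (σ w) → lam (σ w) ≤ 2 * Real.pi →
      1 / ‖a w‖ = Vm δ (σ w) ∧ t w = 1 := by
    intro w hw h1 h2
    have hg1 : ¬ g1 w < 0 := by
      rw [← (lam1 w hw).1]; exact not_lt.2 h1
    rcases h2.lt_or_eq with h3 | h3
    · have hg2 : g2 w < 0 := (lam2 w hw).1.1 h3
      have ea : a w = Z w := by
        show (if g1 w < 0 then a1 w else if g2 w < 0 then Z w else a2 w) = Z w
        rw [if_neg hg1, if_pos hg2]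
      have et : t w = 1 := by
        show (if g1 w < 0 then t1 w else if g2 w < 0 then 1 else t2 w) = 1
        rw [if_neg hg1, if_pos hg2]
      rw [ea, hn0, one_div_one_div]
      exact ⟨rfl, et⟩
    · have hg2 : g2 w = 0 := (lam2 w hw).2.1 h3
      have hg2' : ¬ g2 w < 0 := by rw [hg2]; exact lt_irrefl _
      have ea : a w = a2 w := by
        show (if g1 w < 0 then a1 w else if g2 w < 0 then Z w else a2 w) = a2 w
        rw [if_neg hg1, if_neg hg2']
      have et : t w = 1 := by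
        show (if g1 w < 0 then t1 w else if g2 w < 0 then 1 else t2 w) = 1
        rw [if_neg hg1, if_neg hg2', ht20 w hg2]
      have h4 := (k2a w.im (DB_im hw)).2.1
      rw [hon q2 w hg2] at h4
      rw [ea, hn2, h4, div_one]
      exact ⟨rfl, et⟩
  -- position of the curves
  have hsig : ∀ w ∈ DB, ‖σ w - w‖ ≤ 1 / 500 := by
    intro w hw
    have := (hσ w hw).2.1
    linarith
  have hexpn : ∀ (κ : ℝ) (x : ℝ), ‖Complex.exp ((κ : ℂ) + (1 + Complex.I) * (x : ℂ))‖ =
      Real.exp (κ + x) := by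
    intro κ x
    rw [Complex.norm_exp]
    congr 1
    simp
  have hq1pos : ∀ y ∈ Ioo (-(1 / 180) : ℝ) (1 / 180), q1 y < 2 := by
    intro y hy
    have hm := c1.mem y hy
    have hmDB : (⟨q1 y, y⟩ : ℂ) ∈ DB := by
      obtain ⟨m1, m2, m3⟩ := hm
      exact ⟨by norm_num at m1 ⊢; linarith, by linarith, m3⟩
    have h1 := hsig _ hmDB
    rw [c1.eq y hy] at h1
    have h2 : ‖Complex.exp (((-Real.pi : ℝ) : ℂ) + (1 + Complex.I) * (θ1 y : ℂ))‖ ≤ 1 := by
      rw [hexpn, Real.exp_le_one_iff]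
      have h3 := abs_le.1 (c1.small y hy)
      have h4 := Real.pi_gt_three
      linarith [h3.2]
    have h3 : ‖(⟨q1 y, y⟩ : ℂ)‖ ≤ 1 + 1 / 500 := by
      have h5 := norm_le_insert
        (Complex.exp (((-Real.pi : ℝ) : ℂ) + (1 + Complex.I) * (θ1 y : ℂ))) (⟨q1 y, y⟩ : ℂ)
      have h6 : ‖(⟨q1 y, y⟩ : ℂ)‖ ≤
          ‖Complex.exp (((-Real.pi : ℝ) : ℂ) + (1 + Complex.I) * (θ1 y : ℂ))‖ +
          ‖Complex.exp (((-Real.pi : ℝ) : ℂ) + (1 + Complex.I) * (θ1 y : ℂ)) - (⟨q1 y, y⟩ : ℂ)‖ :=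
        h5
      linarith
    have h4 : q1 y ≤ ‖(⟨q1 y, y⟩ : ℂ)‖ := (le_abs_self _).trans
      (Complex.abs_re_le_norm (⟨q1 y, y⟩ : ℂ))
    linarith
  have hq2pos : ∀ y ∈ Ioo (-(1 / 180) : ℝ) (1 / 180), 3 < q2 y := by
    intro y hy
    have hm := c2.mem y hy
    have hmDB : (⟨q2 y, y⟩ : ℂ) ∈ DB := by
      obtain ⟨m1, m2, m3⟩ := hm
      exact ⟨by norm_num at m1 ⊢; linarith, by linarith, m3⟩
    have hq2nn : 0 ≤ q2 y := by
      have m1 : (1 / 29 : ℝ) < q2 y := hm.1
      linarith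
    have h1 := hsig _ hmDB
    rw [c2.eq y hy] at h1
    have h2 : (6 : ℝ) ≤ ‖Complex.exp (((2 * Real.pi : ℝ) : ℂ) + (1 + Complex.I) * (θ2 y : ℂ))‖ := by
      rw [hexpn]
      have h3 := abs_le.1 (c2.small y hy)
      have h4 := Real.pi_gt_three
      have h5 := Real.add_one_le_exp (2 * Real.pi + θ2 y)
      linarith [h3.1]
    have h3 : ‖Complex.exp (((2 * Real.pi : ℝ) : ℂ) + (1 + Complex.I) * (θ2 y : ℂ))‖ -
        ‖(⟨q2 y, y⟩ : ℂ)‖ ≤
        ‖Complex.exp (((2 * Real.pi : ℝ) : ℂ) + (1 + Complex.I) * (θ2 y : ℂ)) - (⟨q2 y, y⟩ : ℂ)‖ :=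
      norm_sub_norm_le _ _
    have h4 : ‖(⟨q2 y, y⟩ : ℂ)‖ ≤ |q2 y| + |y| := Complex.norm_le_abs_re_add_abs_im _
    have h5 : |y| ≤ 1 / 180 := (abs_lt.2 hy).le
    rw [abs_of_nonneg hq2nn] at h4
    linarith
  refine ⟨fun w => if g1 w < 0 then Yk δ (-Real.pi) 1 σ q1 θ1 w else
      if g2 w < 0 then Y0 w else Yk δ (2 * Real.pi) (-1) σ q2 θ2 w,
    fun w => 1 / ‖a w‖, fun w => ‖a w‖ / ‖b w‖, fun w => lam (σ w), a, b, δ, δ / 4, ?_⟩
  have hbpos : ∀ w ∈ DB, 0 < ‖b w‖ := by
    intro w hw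
    rw [hbnorm w hw]
    have h1 := hapos w hw
    have h2 := ht w hw
    nlinarith
  have hrt : ∀ w ∈ DB, ‖a w‖ / ‖b w‖ = 1 / t w := by
    intro w hw
    have h1 := hapos w hw
    have h2 := ht w hw
    rw [hbnorm w hw]
    field_simp
  exact
    { hδ := hδ
      hϑ := by positivity
      hd := fun w hw => hder w (DS_sub hw)
      ha := hac.mono DS_sub
      hb := hbc.mono DS_sub
      near := fun w hw => hnear w (DS_sub hw)
      hV := continuousOn_const.div (hac.mono DS_sub).norm fun w hw => by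
        have := hapos w (DS_sub hw); linarith
      hr := (hac.mono DS_sub).norm.div (hbc.mono DS_sub).norm fun w hw =>
        (hbpos w (DS_sub hw)).ne'
      Vpos := fun w hw => by
        have h1 := hapos w (DS_sub hw)
        have h2 : 0 < ‖a w‖ := by linarith
        refine ⟨by positivity, ?_⟩
        show 1 / ‖a w‖ ≤ 2
        rw [div_le_iff₀ h2]
        linarith
      rpos := fun w hw => by
        have h1 := hapos w (DS_sub hw)
        have h2 := hbpos w (DS_sub hw)
        have h3 := ht w (DS_sub hw)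
        refine ⟨by positivity, ?_⟩
        show ‖a w‖ / ‖b w‖ ≤ 1
        rw [hrt w (DS_sub hw), div_le_one (by linarith)]
        exact h3
      na := fun w hw => by
        show ‖a w‖ = 1 / (1 / ‖a w‖)
        rw [one_div_one_div]
      nb := fun w hw => by
        have h1 := hapos w (DS_sub hw)
        have h2 := hbpos w (DS_sub hw)
        show ‖b w‖ = 1 / (1 / ‖a w‖ * (‖a w‖ / ‖b w‖))
        have h3 : ‖a w‖ ≠ 0 := by linarith
        field_simp
      orth := fun w hw => by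
        show (a w * (starRingEnd ℂ) (Complex.I * a w * (t w : ℂ))).re = 0
        rw [map_mul, map_mul, Complex.conj_I, Complex.conj_ofReal]
        have h1 : a w * (-Complex.I * (starRingEnd ℂ) (a w) * (t w : ℂ)) =
            -Complex.I * (((Complex.normSq (a w) * t w : ℝ)) : ℂ) := by
          rw [Complex.ofReal_mul, ← Complex.mul_conj]; ring
        rw [h1, Complex.re_mul_ofReal]
        simp
      lamS := s2.mono DS_sub
      out := fun w hw h => by
        have hwB := DS_sub hw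
        rcases h with h | h
        · have hg : g1 w < 0 := (lam1 w hwB).1.1 h
          have ea : a w = a1 w := if_pos hg
          have et : t w = t1 w := if_pos hg
          have h1 := ht1 w hwB hg
          refine ⟨?_, ?_⟩
          · show 1 / ‖a w‖ = 1
            rw [ea, hn1, div_one]
          · show ‖a w‖ / ‖b w‖ < 1
            rw [hrt w hwB, et, div_lt_one (by linarith)]
            exact h1
        · have hg2 : 0 < g2 w := by
            rcases lt_trichotomy (g2 w) 0 with h1 | h1 | h1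
            · have := (lam2 w hwB).1.2 h1
              exact absurd this (not_lt.2 (le_of_lt h))
            · have := (lam2 w hwB).2.2 h1
              exact absurd this (ne_of_gt h)
            · exact h1
          have hg1 : ¬ g1 w < 0 := by
            intro h1
            have := hord w hwB h1.le
            linarith
          have hg2' : ¬ g2 w < 0 := not_lt.2 hg2.le
          have ea : a w = a2 w := by
            show (if g1 w < 0 then a1 w else if g2 w < 0 then Z w else a2 w) = a2 w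
            rw [if_neg hg1, if_neg hg2']
          have et : t w = t2 w := by
            show (if g1 w < 0 then t1 w else if g2 w < 0 then 1 else t2 w) = t2 w
            rw [if_neg hg1, if_neg hg2']
          have h1 := ht2 w hwB hg2
          refine ⟨?_, ?_⟩
          · show 1 / ‖a w‖ = 1
            rw [ea, hn2, div_one]
          · show ‖a w‖ / ‖b w‖ < 1
            rw [hrt w hwB, et, div_lt_one (by linarith)]
            exact h1
      mid := fun w hw h1 h2 => by
        show ‖a w‖ / ‖b w‖ = 1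
        rw [hrt w (DS_sub hw), (hVmid w (DS_sub hw) h1 h2).2, div_one]
      eik := fun w hw h1 h2 => by
        have h3 := (core w (DS_sub hw)).2.2.2.2.2.1
        show (-2 * δ * Real.exp (lam (σ w)) * Real.sin (lam (σ w))) *
          ‖fderiv ℝ (fun w => lam (σ w)) w‖ ^ 2 * (1 / ‖a w‖) ^ 2 = (1 / ‖a w‖) ^ 2 - 1
        rw [(hVmid w (DS_sub hw) h1 h2).1]
        exact h3
      smY := by
        have h1 : ContDiffOn ℝ ∞ Y0 DB := contDiffOn_id.sub (contDiffOn_const.mul s3)
        refine (h1.mono (s := DB) fun w hw => DS_sub hw.1).congr ?_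
        rintro w ⟨hw, h2, h3⟩
        have hg1 : ¬ g1 w < 0 := by
          rw [← (lam1 w (DS_sub hw)).1]; exact not_lt.2 (le_of_lt h2)
        have hg2 : g2 w < 0 := (lam2 w (DS_sub hw)).1.1 h3
        show (if g1 w < 0 then Yk δ (-Real.pi) 1 σ q1 θ1 w else
          if g2 w < 0 then Y0 w else Yk δ (2 * Real.pi) (-1) σ q2 θ2 w) = Y0 w
        rw [if_neg hg1, if_pos hg2]
      smV := by
        refine (s5.mono fun w hw => DS_sub hw.1).congr ?_
        rintro w ⟨hw, h2, h3⟩
        show (1 / ‖a w‖) ^ 2 = Vm δ (σ w) ^ 2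
        rw [(hVmid w (DS_sub hw) (le_of_lt h2) (le_of_lt h3)).1]
      l1 := fun w hw h => (core w (DS_sub hw)).2.2.2.2.2.2.1 h hw.2.2
      l2 := fun w hw h => (core w (DS_sub hw)).2.2.2.2.2.2.2.1 h
      cham := fun w hw h1 h2 => by
        have hwB := DS_sub hw
        have e1 := hq1pos w.im (DB_im hwB)
        have e2 := hq2pos w.im (DB_im hwB)
        have hg1 : ¬ g1 w < 0 := by
          show ¬ w.re - q1 w.im < 0
          linarith
        have hg2 : g2 w < 0 := by
          show w.re - q2 w.im < 0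
          linarith
        have h3 : -Real.pi ≤ lam (σ w) := by
          rw [← (lam1 w hwB).1] at hg1; exact not_lt.1 hg1
        have h4 : lam (σ w) ≤ 2 * Real.pi := ((lam2 w hwB).1.2 hg2).le
        show (1 / ‖a w‖) ^ 2 ≤ 1 - δ / 4
        rw [(hVmid w hwB h3 h4).1]
        exact (core w hwB).2.2.2.2.2.2.2.2 h1 h2 }

end Pool.Agent.H886R3.Noz
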