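import Mathlib
import Pool.Agent.H44D.Stmts

/-!
# H44-DARJI, TaskC2
-/

set_option autoImplicit false

open Set Filter Topology MeasureTheory
open scoped Pointwise ENNReal

namespace Pool.Agent.H886R3.DC2

open H44D

theorem pr_nonneg {ι : Type} [Fintype ι] {w : ι → ℝ} (hw : ∀ i, 0 ≤ w i) (P : ι → Prop) :
    0 ≤ pr w P := by
  classical
  unfold pr
  refine Finset.sum_nonneg fun i _ => ?_
  split_ifs
  · exact hw i
  · exact le_rfl

theorem pr_mono {ι : Type} [Fintype ι] {w : ι → ℝ} (hw : ∀ i, 0 ≤ w i) {P Q : ι → Prop}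
    (h : ∀ i, P i → Q i) : pr w P ≤ pr w Q := by
  classical
  unfold pr
  refine Finset.sum_le_sum fun i _ => ?_
  by_cases hP : P i
  · rw [if_pos hP, if_pos (h i hP)]
  · rw [if_neg hP]
    split_ifs
    · exact hw i
    · exact le_rfl

theorem pr_le_one {ι : Type} [Fintype ι] {w : ι → ℝ} (hw : FinProb w) (P : ι → Prop) :
    pr w P ≤ 1 := by
  classical
  rw [← hw.2]
  unfold pr
  refine Finset.sum_le_sum fun i _ => ?_
  split_ifs
  · exact le_rfl
  · exact hw.1 i

theorem pr_and {ι : Type} [Fintype ι] {w : ι → ℝ} (hw : FinProb w) (P Q : ι → Prop) :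
    pr w P + pr w Q - 1 ≤ pr w (fun i => P i ∧ Q i) := by
  classical
  have h : pr w P + pr w Q ≤ pr w (fun i => P i ∧ Q i) + ∑ i, w i := by
    unfold pr
    rw [← Finset.sum_add_distrib, ← Finset.sum_add_distrib]
    refine Finset.sum_le_sum fun i _ => ?_
    have h0 := hw.1 i
    by_cases hP : P i <;> by_cases hQ : Q i <;> simp [hP, hQ, h0]
  rw [hw.2] at h
  linarith

theorem step {G : Type} [Group G] (U V' V₂ W : Set G) (m : ℕ) (η₀ η δ : ℝ)
    (hm1 : 1 ≤ m) (hδ0 : 0 < δ) (hδ1 : δ ≤ 1 / 2) (hδη : δ ≤ η) (hδη0 : 4 * δ ≤ η₀)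
    (hcov : Cover U V' m (δ ^ 2 / 3)) (hnc : ¬ Cover U V₂ (m - 1) η₀)
    (h1V : (1 : G) ∈ V') (hVV' : V₂ ⊆ V') (hVW : V₂ ⊆ W)
    (hmul : ∀ a ∈ V₂, ∀ b ∈ V₂, a * b ∈ V') : Sub (U * W) V₂ η := by
  classical
  intro ι _ w r hw hr
  unfold Cover at hnc
  push Not at hnc
  obtain ⟨ι₀, _, w₀, r₀, hw₀, hr₀, hnc⟩ := hnc
  obtain ⟨L, T, hLU, hT, hpr⟩ := hcov (Unit ⊕ (ι₀ ⊕ (ι₀ × ι)))
    (Sum.elim (fun _ => 1 / 3) (Sum.elim (fun j => w₀ j / 3) (fun p => w₀ p.1 * w p.2 / 3)))
    (Sum.elim (fun _ => 1) (Sum.elim r₀ (fun p => r₀ p.1 * r p.2)))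
    (by
      refine ⟨?_, ?_⟩
      · rintro (_ | j | p)
        · simp
        · have := hw₀.1 j
          simp only [Sum.elim_inr, Sum.elim_inl]
          positivity
        · have h1 := hw₀.1 p.1
          have h2 := hw.1 p.2
          simp only [Sum.elim_inr]
          positivity
      · rw [Fintype.sum_sum_type, Fintype.sum_sum_type]
        simp only [Sum.elim_inl, Sum.elim_inr]
        rw [Fintype.sum_prod_type]
        simp only
        have h1 : ∑ j, w₀ j / 3 = 1 / 3 := by rw [← Finset.sum_div, hw₀.2]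
        have h2 : ∑ j, ∑ i, w₀ j * w i / 3 = 1 / 3 := by
          have : ∀ j, ∑ i, w₀ j * w i / 3 = w₀ j / 3 := by
            intro j
            rw [← Finset.sum_div, ← Finset.mul_sum, hw.2, mul_one]
          simp only [this]
          exact h1
        rw [h1, h2]
        simp
        norm_num)
    (by
      rintro (_ | j | p)
      · exact h1V
      · exact hVV' (hr₀ j)
      · exact hmul _ (hr₀ _) _ (hr _))
  set S : Set G := {g | ∃ t ∈ T, g * t⁻¹ ∈ L} with hS
  -- left invariance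
  have hLS : ∀ l ∈ L, ∀ x ∈ S, l * x ∈ S := by
    rintro l hl x ⟨t, ht, hx⟩
    exact ⟨t, ht, by rw [mul_assoc]; exact L.mul_mem hl hx⟩
  -- the three masses
  have hsplit : 1 - δ ^ 2 / 3 ≤ (if (1 : G) ∈ S then (1 / 3 : ℝ) else 0) +
      (pr w₀ (fun j => r₀ j ∈ S) / 3 + (∑ i, w i * pr w₀ (fun j => r₀ j * r i ∈ S)) / 3) := by
    refine hpr.trans (le_of_eq ?_)
    unfold pr
    rw [Fintype.sum_sum_type, Fintype.sum_sum_type, Fintype.sum_prod_type_right]
    congr 1
    · rw [Fintype.sum_unique]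
      by_cases h : (1 : G) ∈ S
      · rw [if_pos h]
        exact if_pos h
      · rw [if_neg h]
        exact if_neg h
    · congr 1
      · rw [Finset.sum_div]
        refine Finset.sum_congr rfl fun j _ => ?_
        by_cases h : r₀ j ∈ S
        · refine Eq.trans (if_pos h) ?_
          simp only [h, if_true]
          rfl
        · refine Eq.trans (if_neg h) ?_
          simp only [h, if_false, zero_div]
      · rw [Finset.sum_div]
        refine Finset.sum_congr rfl fun i _ => ?_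
        rw [Finset.mul_sum, Finset.sum_div]
        refine Finset.sum_congr rfl fun j _ => ?_
        by_cases h : r₀ j * r i ∈ S
        · refine Eq.trans (if_pos h) ?_
          simp only [h, if_true]
          show w₀ j * w i / 3 = w i * w₀ j / 3
          ring
        · refine Eq.trans (if_neg h) ?_
          simp only [h, if_false, mul_zero, zero_div]
  set c : ℝ := ∑ i, w i * pr w₀ (fun j => r₀ j * r i ∈ S) with hc
  have hb1 := pr_le_one hw₀ (fun j => r₀ j ∈ S)
  have hc1 : c ≤ 1 := by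
    rw [hc, ← hw.2]
    refine Finset.sum_le_sum fun i _ => ?_
    exact mul_le_of_le_one_right (hw.1 i) (pr_le_one hw₀ _)
  have hδ2 : δ ^ 2 ≤ 1 / 4 := by nlinarith
  have h1S : (1 : G) ∈ S := by
    by_contra hcon
    rw [if_neg hcon] at hsplit
    linarith
  rw [if_pos h1S] at hsplit
  have hb : 1 - δ ^ 2 ≤ pr w₀ (fun j => r₀ j ∈ S) := by linarith
  have hcge : 1 - δ ^ 2 ≤ c := by linarith
  -- the test property
  have htest : ∀ T' : Finset G, T' ⊆ T →
      1 - η₀ ≤ pr w₀ (fun j => ∃ t ∈ T', r₀ j * t⁻¹ ∈ L) → T' = T := by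
    intro T' hT' h
    by_contra hne
    have hlt : T'.card < T.card := Finset.card_lt_card (Finset.ssubset_iff_subset_ne.2 ⟨hT', hne⟩)
    have := hnc L T' hLU (by omega)
    linarith
  -- Markov
  set good : ι → Prop := fun i => 1 - δ ≤ pr w₀ (fun j => r₀ j * r i ∈ S) with hgood
  have hmarkov : 1 - δ ≤ pr w good := by
    have h1 : c ≤ δ * pr w good + (1 - δ) := by
      have h2 : ∀ i, w i * pr w₀ (fun j => r₀ j * r i ∈ S) ≤
          δ * (if good i then w i else 0) + (1 - δ) * w i := by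
        intro i
        have hwi := hw.1 i
        have hp1 := pr_le_one hw₀ (fun j => r₀ j * r i ∈ S)
        by_cases hg : good i
        · rw [if_pos hg]
          nlinarith
        · rw [if_neg hg]
          have : pr w₀ (fun j => r₀ j * r i ∈ S) ≤ 1 - δ := (not_le.1 hg).le
          nlinarith
      calc c ≤ ∑ i, (δ * (if good i then w i else 0) + (1 - δ) * w i) :=
            Finset.sum_le_sum fun i _ => h2 i
        _ = δ * pr w good + (1 - δ) := by
          rw [Finset.sum_add_distrib, ← Finset.mul_sum, ← Finset.mul_sum, hw.2, mul_one]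
          rfl
    have h3 : δ * (1 - δ) ≤ δ * pr w good := by nlinarith
    exact le_of_mul_le_mul_left h3 hδ0
  -- right translation by good elements
  have hgoodS : ∀ i, good i → ∀ x ∈ S, x * r i ∈ S := by
    intro i hi x hx
    have h1 : (T.filter fun t => t * r i ∈ S) = T := by
      apply htest _ (Finset.filter_subset _ _)
      have h2 := pr_and hw₀ (fun j => r₀ j ∈ S) (fun j => r₀ j * r i ∈ S)
      have h3 : pr w₀ (fun j => r₀ j ∈ S ∧ r₀ j * r i ∈ S) ≤
          pr w₀ (fun j => ∃ t ∈ (T.filter fun t => t * r i ∈ S), r₀ j * t⁻¹ ∈ L) := by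
        refine pr_mono hw₀.1 ?_
        rintro j ⟨⟨t, ht, hl⟩, hj2⟩
        refine ⟨t, ?_, hl⟩
        rw [Finset.mem_filter]
        refine ⟨ht, ?_⟩
        have h4 := hLS _ (L.inv_mem hl) _ hj2
        have h5 : (r₀ j * t⁻¹)⁻¹ * (r₀ j * r i) = t * r i := by group
        rwa [h5] at h4
      have h4 : 1 - δ ≤ pr w₀ (fun j => r₀ j * r i ∈ S) := hi
      nlinarith
    obtain ⟨t, ht, hl⟩ := hx
    rw [← h1, Finset.mem_filter] at ht
    have h4 := hLS _ hl _ ht.2
    have h5 : (x * t⁻¹) * (t * r i) = x * r i := by group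
    rwa [h5] at h4
  -- the subgroup
  let N : Subgroup G :=
    { carrier := {g | ∀ x, x ∈ S ↔ x * g ∈ S}
      one_mem' := by intro x; rw [mul_one]
      mul_mem' := by
        intro a b ha hb x
        rw [← mul_assoc, ← hb (x * a), ← ha x]
      inv_mem' := by
        intro a ha x
        have := ha (x * a⁻¹)
        rw [inv_mul_cancel_right] at this
        exact this.symm }
  have hNS : (N : Set G) ⊆ S := by
    intro g hg
    have : (1 : G) ∈ S ↔ 1 * g ∈ S := hg 1
    rw [one_mul] at this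
    exact this.1 h1S
  have hSUW : S ⊆ U * W := by
    have h1 : (T.filter fun t => ∃ j, r₀ j * t⁻¹ ∈ L) = T := by
      apply htest _ (Finset.filter_subset _ _)
      have h3 : pr w₀ (fun j => r₀ j ∈ S) ≤
          pr w₀ (fun j => ∃ t ∈ (T.filter fun t => ∃ j, r₀ j * t⁻¹ ∈ L), r₀ j * t⁻¹ ∈ L) := by
        refine pr_mono hw₀.1 ?_
        rintro j ⟨t, ht, hl⟩
        exact ⟨t, by rw [Finset.mem_filter]; exact ⟨ht, j, hl⟩, hl⟩
      nlinarith
    rintro x ⟨t, ht, hl⟩
    rw [← h1, Finset.mem_filter] at ht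
    obtain ⟨_, j, hj⟩ := ht
    refine ⟨x * (r₀ j)⁻¹, hLU ?_, r₀ j, hVW (hr₀ j), by simp⟩
    have h2 := L.mul_mem hl (L.inv_mem hj)
    have h3 : (x * t⁻¹) * (r₀ j * t⁻¹)⁻¹ = x * (r₀ j)⁻¹ := by group
    rw [h3] at h2
    exact h2
  refine ⟨N, hNS.trans hSUW, ?_⟩
  have h1 : pr w good ≤ pr w (fun i => r i ∈ N) := by
    refine pr_mono hw.1 fun i hi => ?_
    have hg := hgoodS i hi
    show ∀ x, x ∈ S ↔ x * r i ∈ S
    intro x
    refine ⟨hg x, fun hx => ?_⟩
    -- powers
    have hpow : ∀ n : ℕ, x * r i ^ (n + 1) ∈ S := by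
      intro n
      induction n with
      | zero => simpa using hx
      | succ n ih =>
        have := hg _ ih
        rwa [mul_assoc, ← pow_succ] at this
    choose f hf1 hf2 using hpow
    obtain ⟨a, b, hab, hfab⟩ : ∃ a b : ℕ, a < b ∧ f a = f b := by
      have hfin : (Set.range f).Finite :=
        T.finite_toSet.subset (by rintro _ ⟨n, rfl⟩; exact hf1 n)
      have hni : ¬ Function.Injective f := fun hinj =>
        (Set.infinite_range_of_injective hinj) hfin
      unfold Function.Injective at hni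
      push Not at hni
      obtain ⟨a, b, h1, h2⟩ := hni
      rcases lt_or_gt_of_ne h2 with h3 | h3
      · exact ⟨a, b, h3, h1⟩
      · exact ⟨b, a, h3, h1.symm⟩
    obtain ⟨k, rfl⟩ : ∃ k, b = a + (k + 1) := ⟨b - a - 1, by omega⟩
    have h2 := hf2 a
    have h3 := hf2 (a + (k + 1))
    rw [← hfab] at h3
    have h4 := L.mul_mem h2 (L.inv_mem h3)
    have h5 : (x * r i ^ (a + 1) * (f a)⁻¹) * (x * r i ^ (a + (k + 1) + 1) * (f a)⁻¹)⁻¹ *
        (x * r i ^ (k + 1)) = x := by
      have : r i ^ (a + (k + 1) + 1) = r i ^ (a + 1) * r i ^ (k + 1) := by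
        rw [← pow_add]; congr 1; omega
      rw [this]
      have hcomm : r i ^ (a + 1) * r i ^ (k + 1) = r i ^ (k + 1) * r i ^ (a + 1) := by
        rw [← pow_add, ← pow_add, add_comm]
      rw [hcomm]
      group
    have h6 := hLS _ h4 _ ⟨f k, hf1 k, hf2 k⟩
    rwa [h5] at h6
  linarith

theorem taskC2 : TaskC2 := by
  classical
  intro G _ _ _ U m0 hm0 W hW η hη
  have hex : ∃ m : ℕ, ∀ η : ℝ, 0 < η → ∃ V' ∈ 𝓝 (1 : G), Cover U V' m η := ⟨m0, hm0⟩
  set m := Nat.find hex with hmdef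
  have hm := Nat.find_spec hex
  rw [← hmdef] at hm
  have hm1 : 1 ≤ m := by
    by_contra hcon
    have h0 : m = 0 := by omega
    rw [h0] at hm
    obtain ⟨V', hV', hcov⟩ := hm (1 / 2) (by norm_num)
    obtain ⟨L, T, _, hT, hpr⟩ := hcov Unit (fun _ => 1) (fun _ => 1) ⟨by simp, by simp⟩
      (fun _ => mem_of_mem_nhds hV')
    have hT0 : T = ∅ := by
      rw [← Finset.card_eq_zero]; omega
    rw [hT0] at hpr
    unfold pr at hpr
    simp at hpr
    norm_num at hpr
  have hmin := Nat.find_min hex (m := m - 1) (by rw [← hmdef]; omega)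
  push Not at hmin
  obtain ⟨η₀, hη₀, hnc⟩ := hmin
  obtain ⟨δ, hδ0, hδ1, hδ2, hδ3⟩ : ∃ δ : ℝ, 0 < δ ∧ δ ≤ 1 / 2 ∧ δ ≤ η ∧ 4 * δ ≤ η₀ := by
    refine ⟨min (1 / 2) (min η (η₀ / 4)), ?_, min_le_left _ _, ?_, ?_⟩
    · exact lt_min (by norm_num) (lt_min hη (by positivity))
    · exact (min_le_right _ _).trans (min_le_left _ _)
    · have : min (1 / 2) (min η (η₀ / 4)) ≤ η₀ / 4 := (min_le_right _ _).trans (min_le_right _ _)
      linarith
  obtain ⟨V', hV', hcov⟩ := hm (δ ^ 2 / 3) (by positivity)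
  obtain ⟨V₁, hV₁, hmul⟩ := exists_nhds_one_split hV'
  refine ⟨V₁ ∩ V' ∩ W, inter_mem (inter_mem hV₁ hV') hW, ?_⟩
  exact step U V' (V₁ ∩ V' ∩ W) W m η₀ η δ hm1 hδ0 hδ1 hδ2 hδ3 hcov
    (hnc _ (inter_mem (inter_mem hV₁ hV') hW)) (mem_of_mem_nhds hV') (fun x hx => hx.1.2)
    (fun x hx => hx.2) (fun a ha b hb => hmul a ha.1.1 b hb.1.1)

end Pool.Agent.H886R3.DC2
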