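import Mathlib
import Pool.Agent.H424R3.LN.Stmts

/-!
# H424-LINES, TaskSupp: supports of the laws of the choices
-/

set_option autoImplicit false

open MeasureTheory Filter
open scoped ENNReal Topology

namespace Pool.Agent.H886R3.LN

open Pool.Agent.H424R3.LN

theorem ae_support (μ : Finset ℕ → PMF (Finset ℕ)) (i : Idx) :
    ∀ᵐ U ∂(nu μ), U i ∈ (law μ i).support := by
  have h1 : ∀ᵐ A ∂(law μ i).toMeasure, A ∈ (law μ i).support := by
    rw [ae_iff]
    show (law μ i).toMeasure ((law μ i).support)ᶜ = 0
    rw [PMF.toMeasure_apply_eq_zero_iff]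
    · exact disjoint_compl_right
    · exact MeasurableSpace.measurableSet_top
  have h2 : MeasurePreserving (Function.eval i) (nu μ) (law μ i).toMeasure :=
    measurePreserving_eval_infinitePi _ i
  exact h2.quasiMeasurePreserving.ae h1

theorem cond_support (μ : Finset ℕ → PMF (Finset ℕ)) (N : Finset ℕ) (p : ℕ) (s : Bool) :
    (Pool.Agent.H424R3.LN.cond μ N p s).support ⊆ (μ N).support := by
  unfold Pool.Agent.H424R3.LN.cond
  split_ifs with h
  · rw [PMF.support_filter]
    exact Set.inter_subset_right
  · exact subset_rfl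

theorem taskSupp : TaskSupp := by
  intro d μ hμ
  refine ⟨ae_all_iff.2 fun i => ae_support μ i, fun N p s => cond_support μ N p s, ?_⟩
  intro N M A x y hN hM hNd hMd hxy hA B hB
  by_cases h : ∃ A' ∈ {A' : Finset ℕ | x ∈ A' ↔ decide (y ∈ A) = true}, A' ∈ (μ M).support
  · unfold Pool.Agent.H424R3.LN.cond at hB
    rw [dif_pos h, PMF.support_filter] at hB
    have h1 : x ∈ B ↔ decide (y ∈ A) = true := hB.1
    rwa [decide_eq_true_iff] at h1
  · have hB' : B ∈ (μ M).support := cond_support μ M x _ hB
    exfalso
    by_cases hy : y ∈ A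
    · have hyN : y ∈ N := (hμ.supp N A hA).1 hy
      have hxM : x ∈ M := hxy.1 hyN
      have hM2 : 2 ≤ M.card := by
        rcases hM with hM | hM
        · rw [hM] at hxM; exact absurd hxM (Finset.notMem_empty _)
        · exact hM
      have h1 := hμ.edge M x hM2 hMd hxM
      have h2 : ∑' A', ({A' : Finset ℕ | x ∈ A'}).indicator (μ M) A' = 0 := by
        rw [ENNReal.tsum_eq_zero]
        intro A'
        rw [Set.indicator_apply_eq_zero]
        intro hx
        by_contra hcon
        exact h ⟨A', by simp only [Set.mem_ofPred_eq, decide_eq_true_iff]; exact ⟨fun _ => hy, fun _ => hx⟩,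
          (PMF.mem_support_iff _ _).2 hcon⟩
      rw [h1] at h2
      rw [ENNReal.div_eq_zero_iff] at h2
      rcases h2 with h2 | h2
      · exact two_ne_zero h2
      · exact ENNReal.natCast_ne_top _ h2
    · have hsub : (μ M).support ⊆ {A' : Finset ℕ | x ∈ A'} := by
        intro A' hA'
        by_contra hcon
        apply h
        refine ⟨A', ?_, hA'⟩
        simp only [Set.mem_ofPred_eq, decide_eq_true_iff]
        exact ⟨fun hx => absurd hx hcon, fun hy' => absurd hy' hy⟩
      have hxB : x ∈ B := hsub hB'
      have hxM : x ∈ M := (hμ.supp M B hB').1 hxB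
      have hyN : y ∈ N := hxy.2 hxM
      have hM2 : 2 ≤ M.card := by
        rcases hM with hM | hM
        · rw [hM] at hxM; exact absurd hxM (Finset.notMem_empty _)
        · exact hM
      have hN2 : 2 ≤ N.card := by
        rcases hN with hN | hN
        · rw [hN] at hyN; exact absurd hyN (Finset.notMem_empty _)
        · exact hN
      have h1 := hμ.edge M x hM2 hMd hxM
      have h2 := hμ.edge N y hN2 hNd hyN
      have h3 := (PMF.toOuterMeasure_apply_eq_one_iff (μ M) {A' : Finset ℕ | x ∈ A'}).2 hsub
      rw [PMF.toOuterMeasure_apply, h1] at h3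
      rw [h3, ← PMF.toOuterMeasure_apply, PMF.toOuterMeasure_apply_eq_one_iff] at h2
      exact hy (h2 hA)

end Pool.Agent.H886R3.LN
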