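import Mathlib
import Pool.Agent.H143R3.MT.Stmts

/-!
# H143-MT, MT-Q: from the main estimate to the final statement
-/

set_option autoImplicit false

namespace Pool.Agent.H886R3.MTQ

open MeasureTheory ProbabilityTheory Filter Topology Set
open scoped ENNReal NNReal
open Pool.Agent.H143R3.MT

universe u

/-- real analysis -/
theorem key (C₁ C₂ : ℝ≥0) (R0 : ℕ) : ∃ ε : ℝ, 0 < ε ∧ ∃ B : ℝ → ℝ, Tendsto B atTop (𝓝 0) ∧
    ∀ᶠ t : ℝ in atTop, 1 ≤ Real.log t ∧ 0 < t ∧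
      R0 ≤ ⌊ε * (t * Real.log t) ^ (1 / 3 : ℝ)⌋₊ ∧
      16 * (⌊ε * (t * Real.log t) ^ (1 / 3 : ℝ)⌋₊ : ℝ) ^ 2 ≤ t ∧
      C₂ * ((⌊ε * (t * Real.log t) ^ (1 / 3 : ℝ)⌋₊ : ℝ) ^ 2 / t) *
        Real.exp (C₁ * (⌊ε * (t * Real.log t) ^ (1 / 3 : ℝ)⌋₊ : ℝ) ^ 3 / t) ≤ B t := by
  have hC : (0 : ℝ) ≤ C₁ := C₁.coe_nonneg
  have hC2 : (0 : ℝ) ≤ C₂ := C₂.coe_nonneg
  obtain ⟨ε, hε0, hε1, hε2⟩ : ∃ ε : ℝ, 0 < ε ∧ ε ≤ 1 ∧ (C₁ : ℝ) * ε ≤ 1 / 6 := by
    refine ⟨1 / (6 * ((C₁ : ℝ) + 1)), by positivity, ?_, ?_⟩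
    · rw [div_le_one (by positivity)]; nlinarith
    · rw [mul_one_div, div_le_div_iff₀ (by positivity) (by norm_num)]; nlinarith
  refine ⟨ε, hε0, fun t => 4 * C₂ * t ^ (-(1 / 12) : ℝ), ?_, ?_⟩
  · have := (tendsto_rpow_neg_atTop (show (0 : ℝ) < 1 / 12 by norm_num)).const_mul (4 * (C₂ : ℝ))
    simpa using this
  have e1 : ∀ᶠ t : ℝ in atTop, (R0 : ℝ) ≤ ε * t ^ (1 / 3 : ℝ) :=
    ((tendsto_rpow_atTop (show (0 : ℝ) < 1 / 3 by norm_num)).const_mul_atTop
      hε0).eventually_ge_atTop _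
  have e2 : ∀ᶠ t : ℝ in atTop, (64 : ℝ) ≤ t ^ (1 / 4 : ℝ) :=
    (tendsto_rpow_atTop (show (0 : ℝ) < 1 / 4 by norm_num)).eventually_ge_atTop _
  filter_upwards [e1, e2, eventually_ge_atTop (3 : ℝ)] with t h1 h2 h3
  have ht : 0 < t := by linarith
  have hlog : 1 ≤ Real.log t := by
    rw [Real.le_log_iff_exp_le ht]
    linarith [Real.exp_one_lt_d9]
  set x := ε * (t * Real.log t) ^ (1 / 3 : ℝ) with hx
  have hx0 : 0 ≤ x := by positivity
  set R := ⌊x⌋₊ with hRdef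
  have hR : (R : ℝ) ≤ x := Nat.floor_le hx0
  have hR0 : (0 : ℝ) ≤ R := Nat.cast_nonneg _
  have hlog2 : Real.log t ≤ 8 * t ^ (1 / 8 : ℝ) := by
    have := Real.log_le_rpow_div ht.le (show (0 : ℝ) < 1 / 8 by norm_num)
    linarith
  have hx2 : x ^ 2 ≤ 4 * t ^ (3 / 4 : ℝ) := by
    have a1 : x ≤ (t * Real.log t) ^ (1 / 3 : ℝ) := by
      rw [hx]; exact mul_le_of_le_one_left (by positivity) hε1
    have a2 : (t * Real.log t) ^ (1 / 3 : ℝ) ≤ 2 * t ^ (3 / 8 : ℝ) := by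
      calc (t * Real.log t) ^ (1 / 3 : ℝ) ≤ (8 * t ^ (9 / 8 : ℝ)) ^ (1 / 3 : ℝ) := by
            apply Real.rpow_le_rpow (by positivity) _ (by norm_num)
            calc t * Real.log t ≤ t * (8 * t ^ (1 / 8 : ℝ)) := by gcongr
              _ = 8 * t ^ (9 / 8 : ℝ) := by
                have : t ^ (9 / 8 : ℝ) = t * t ^ (1 / 8 : ℝ) := by
                  rw [show (9 / 8 : ℝ) = 1 + 1 / 8 by norm_num, Real.rpow_add ht, Real.rpow_one]
                rw [this]; ring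
        _ = 2 * t ^ (3 / 8 : ℝ) := by
            rw [Real.mul_rpow (by norm_num) (by positivity), ← Real.rpow_mul ht.le]
            have h8 : (8 : ℝ) ^ (1 / 3 : ℝ) = 2 := by
              rw [show (8 : ℝ) = 2 ^ (3 : ℝ) by norm_num, ← Real.rpow_mul (by norm_num)]
              norm_num
            rw [h8]; norm_num
    calc x ^ 2 ≤ (2 * t ^ (3 / 8 : ℝ)) ^ 2 := by
          gcongr; exact a1.trans a2
      _ = 4 * t ^ (3 / 4 : ℝ) := by
        rw [mul_pow, ← Real.rpow_natCast (t ^ (3 / 8 : ℝ)) 2, ← Real.rpow_mul ht.le]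
        norm_num
  have hR2 : (R : ℝ) ^ 2 ≤ 4 * t ^ (3 / 4 : ℝ) := by
    have : (R : ℝ) ^ 2 ≤ x ^ 2 := by gcongr
    exact this.trans hx2
  have hR3 : (R : ℝ) ^ 3 ≤ ε * (t * Real.log t) := by
    calc (R : ℝ) ^ 3 ≤ x ^ 3 := by gcongr
      _ = ε ^ 3 * (t * Real.log t) := by
        rw [hx, mul_pow, ← Real.rpow_natCast ((t * Real.log t) ^ (1 / 3 : ℝ)) 3,
          ← Real.rpow_mul (by positivity)]
        norm_num
      _ ≤ ε * (t * Real.log t) := by
        have : ε ^ 3 ≤ ε := by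
          calc ε ^ 3 ≤ ε ^ 1 := pow_le_pow_of_le_one hε0.le hε1 (by norm_num)
            _ = ε := pow_one _
        gcongr
  refine ⟨hlog, ht, ?_, ?_, ?_⟩
  · apply Nat.le_floor
    refine h1.trans ?_
    have : t ≤ t * Real.log t := le_mul_of_one_le_right ht.le hlog
    rw [hx]
    gcongr
  · have h4 : t = t ^ (3 / 4 : ℝ) * t ^ (1 / 4 : ℝ) := by
      rw [← Real.rpow_add ht]; norm_num
    have h5 : 0 < t ^ (3 / 4 : ℝ) := by positivity
    nlinarith
  · have h4 : Real.exp (C₁ * (R : ℝ) ^ 3 / t) ≤ t ^ (1 / 6 : ℝ) := by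
      rw [Real.rpow_def_of_pos ht]
      apply Real.exp_le_exp.2
      rw [div_le_iff₀ ht]
      calc (C₁ : ℝ) * (R : ℝ) ^ 3 ≤ C₁ * (ε * (t * Real.log t)) := by gcongr
        _ = (C₁ * ε) * (t * Real.log t) := by ring
        _ ≤ (1 / 6) * (t * Real.log t) := by gcongr
        _ = Real.log t * (1 / 6) * t := by ring
    calc C₂ * ((R : ℝ) ^ 2 / t) * Real.exp (C₁ * (R : ℝ) ^ 3 / t)
        ≤ C₂ * ((4 * t ^ (3 / 4 : ℝ)) / t) * t ^ (1 / 6 : ℝ) := by gcongr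
      _ = 4 * C₂ * (t ^ (3 / 4 : ℝ) * t ^ (-1 : ℝ) * t ^ (1 / 6 : ℝ)) := by
        rw [Real.rpow_neg_one]; ring
      _ = 4 * C₂ * t ^ (-(1 / 12) : ℝ) := by
        rw [← Real.rpow_add ht, ← Real.rpow_add ht]; norm_num

theorem sub_meas {Ω : Type u} [MeasurableSpace Ω] {P : Measure Ω} {κ : ℝ≥0}
    {X : ℝ≥0 → Ω → ℤ} (hX : IsWalk P κ X) (t : ℝ≥0) (R : ℕ) :
    ∃ A : Set Ω, MeasurableSet A ∧ {ω | ∀ s ≤ t, |X s ω| ≤ (R : ℤ)} ⊆ A ∧
      ∀ᵐ ω ∂P, ω ∈ A → ∀ s ≤ t, |X s ω| ≤ (R : ℤ) := by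
  have hm : ∀ s, MeasurableSet {ω | |X s ω| ≤ (R : ℤ)} := fun s =>
    hX.meas s (MeasurableSet.of_discrete (s := {z : ℤ | |z| ≤ (R : ℤ)}))
  refine ⟨{ω | |X t ω| ≤ (R : ℤ)} ∩ ⋂ (n : ℕ), ⋂ (_ : TopologicalSpace.denseSeq ℝ≥0 n ≤ t),
    {ω | |X (TopologicalSpace.denseSeq ℝ≥0 n) ω| ≤ (R : ℤ)}, ?_, ?_, ?_⟩
  · exact (hm t).inter (MeasurableSet.iInter fun n => MeasurableSet.iInter fun _ => hm _)
  · intro ω hω
    refine ⟨hω t le_rfl, ?_⟩
    simp only [mem_iInter]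
    exact fun n hn => hω _ hn
  · filter_upwards [hX.rightCont] with ω hω hA s hs
    rcases hs.eq_or_lt with rfl | hs
    · exact hA.1
    have h1 : ∀ᶠ v in 𝓝[>] s, X v ω = X s ω :=
      (hω s).filter_mono (nhdsWithin_mono _ Ioi_subset_Ici_self)
    obtain ⟨v, hv1, hv2⟩ := (mem_nhdsGT_iff_exists_Ioo_subset' hs).1 h1
    obtain ⟨q, ⟨n, rfl⟩, hq1, hq2⟩ :=
      (TopologicalSpace.denseRange_denseSeq ℝ≥0).exists_between
        (lt_min (mem_Ioi.1 hv1) hs)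
    have h2 := hv2 ⟨hq1, hq2.trans_le (min_le_left _ _)⟩
    have h3 := hA.2
    simp only [mem_iInter] at h3
    have h4 := h3 n (hq2.trans_le (min_le_right _ _)).le
    simp only [mem_ofPred_eq] at h2 h4
    rwa [h2] at h4

theorem supX_le {Ω : Type u} {X : ℝ≥0 → Ω → ℤ} {t : ℝ≥0} {ω : Ω} {c : ℝ} (hc : 0 ≤ c) :
    supX X t ω ≤ ENNReal.ofReal c ↔ ∀ s ≤ t, |(X s ω : ℝ)| ≤ c := by
  unfold supX
  rw [iSup₂_le_iff]
  refine forall₂_congr fun s hs => ?_
  rw [← ENNReal.ofReal_natCast, ENNReal.ofReal_le_ofReal_iff hc, Nat.cast_natAbs, Int.cast_abs]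

theorem cond_le {Ω : Type u} [MeasurableSpace Ω] {P : Measure Ω} [IsProbabilityMeasure P]
    {κ : ℝ≥0} {X : ℝ≥0 → Ω → ℤ} (hX : IsWalk P κ X) (t : ℝ≥0) (S : Set Ω) (hS : P S ≠ 0)
    {c : ℝ} (hc : 0 ≤ c) {b : ℝ≥0∞}
    (h : P ({ω | ∀ s ≤ t, |X s ω| ≤ ((⌊c⌋₊ : ℕ) : ℤ)} ∩ S) ≤ b * P S) :
    (ProbabilityTheory.cond P S) {ω | supX X t ω ≤ ENNReal.ofReal c} ≤ b := by
  obtain ⟨A, hA, hA1, hA2⟩ := sub_meas hX t ⌊c⌋₊
  have h1 : {ω | supX X t ω ≤ ENNReal.ofReal c} ⊆ A := by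
    intro ω hω
    apply hA1
    intro s hs
    have h2 := (supX_le hc).1 hω s hs
    have h3 : (((X s ω).natAbs : ℕ) : ℝ) ≤ c := by
      rw [Nat.cast_natAbs, Int.cast_abs]; exact h2
    have h4 := Nat.le_floor h3
    have h5 : (((X s ω).natAbs : ℕ) : ℤ) ≤ ((⌊c⌋₊ : ℕ) : ℤ) := by exact_mod_cast h4
    rwa [Int.natCast_natAbs] at h5
  refine (measure_mono h1).trans ?_
  rw [cond_apply' hA]
  have h2 : P (S ∩ A) ≤ b * P S := by
    refine le_trans (measure_mono_ae ?_) h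
    filter_upwards [hA2] with ω hω hmem
    exact ⟨hω hmem.2, hmem.1⟩
  calc (P S)⁻¹ * P (S ∩ A) ≤ (P S)⁻¹ * (b * P S) := by gcongr
    _ = b * ((P S)⁻¹ * P S) := by ring
    _ = b := by rw [ENNReal.inv_mul_cancel hS (measure_ne_top _ _), mul_one]

theorem taskQ : Pool.Agent.H143R3.MT.TaskQ.{u} := by
  intro hMain hPos κ ρ ν hκ hρ Ω _ P _ X N Y hM
  obtain ⟨C₁, C₂, R0, hR0, hmain⟩ := hMain κ ρ ν hκ hρ
  obtain ⟨ε, hε, B, hB, hev⟩ := key C₁ C₂ R0
  have hcoe : Tendsto (fun t : ℝ≥0 => (t : ℝ)) atTop atTop := NNReal.tendsto_coe_atTop.2 tendsto_id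
  have hpos : ∀ t, P (alive X N Y t) ≠ 0 := fun t => (hPos Ω P κ ρ ν X N Y hM t).ne'
  have hB' : Tendsto (fun t : ℝ≥0 => ENNReal.ofReal (B t)) atTop (𝓝 0) := by
    have := ENNReal.tendsto_ofReal (hB.comp hcoe)
    simpa using this
  have hev' := hcoe.eventually hev
  have hbound : ∀ᶠ t : ℝ≥0 in atTop, (ProbabilityTheory.cond P (alive X N Y t))
      {ω | supX X t ω ≤ ENNReal.ofReal (ε * ((t : ℝ) * Real.log t) ^ (1 / 3 : ℝ))} ≤
        ENNReal.ofReal (B t) := by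
    filter_upwards [hev'] with t ht
    obtain ⟨hlog, ht0, h1, h2, h3⟩ := ht
    have hc : 0 ≤ ε * ((t : ℝ) * Real.log t) ^ (1 / 3 : ℝ) := by positivity
    refine cond_le hM.walk t _ (hpos t) hc ?_
    refine (hmain _ h1 t ?_ Ω P X N Y hM).trans ?_
    · rw [← NNReal.coe_le_coe]
      push_cast
      exact h2
    · gcongr
  have hfirst : Tendsto (fun t : ℝ≥0 => (ProbabilityTheory.cond P (alive X N Y t))
      {ω | supX X t ω ≤ ENNReal.ofReal (ε * ((t : ℝ) * Real.log t) ^ (1 / 3 : ℝ))})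
      atTop (𝓝 0) :=
    tendsto_of_tendsto_of_tendsto_of_le_of_le' tendsto_const_nhds hB'
      (Eventually.of_forall fun _ => zero_le) hbound
  have hlogt : Tendsto (fun t : ℝ≥0 => Real.log t) atTop atTop :=
    Real.tendsto_log_atTop.comp hcoe
  have hscale : ∀ b : ℝ, Tendsto (fun t : ℝ≥0 => (ProbabilityTheory.cond P (alive X N Y t))
      {ω | supX X t ω ≤ ENNReal.ofReal (b * (t : ℝ) ^ (1 / 3 : ℝ))}) atTop (𝓝 0) := by
    intro b
    refine tendsto_of_tendsto_of_tendsto_of_le_of_le' tendsto_const_nhds hfirst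
      (Eventually.of_forall fun _ => zero_le) ?_
    have h1 : Tendsto (fun t : ℝ≥0 => ε * (Real.log t) ^ (1 / 3 : ℝ)) atTop atTop :=
      ((tendsto_rpow_atTop (show (0 : ℝ) < 1 / 3 by norm_num)).comp hlogt).const_mul_atTop hε
    filter_upwards [h1.eventually_ge_atTop b, hlogt.eventually_ge_atTop 0] with t ht ht2
    refine measure_mono fun ω hω => ?_
    refine le_trans hω (ENNReal.ofReal_le_ofReal ?_)
    rw [Real.mul_rpow t.coe_nonneg ht2]
    have h3 : 0 ≤ (t : ℝ) ^ (1 / 3 : ℝ) := by positivity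
    calc b * (t : ℝ) ^ (1 / 3 : ℝ) ≤ (ε * (Real.log t) ^ (1 / 3 : ℝ)) * (t : ℝ) ^ (1 / 3 : ℝ) := by
          gcongr
      _ = _ := by ring
  refine ⟨⟨ε, hε, hfirst⟩, ?_, ?_⟩
  · intro hF
    obtain ⟨a, b, ha, hab, hF⟩ := hF (1 / 2) (by norm_num)
    have h1 : ∀ᶠ t : ℝ≥0 in atTop, (ProbabilityTheory.cond P (alive X N Y t))
      {ω | supX X t ω ≤ ENNReal.ofReal (b * (t : ℝ) ^ (1 / 3 : ℝ))} <
        ENNReal.ofReal (1 - 1 / 2) :=
      (hscale b).eventually_lt_const (by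
        rw [ENNReal.ofReal_pos]; norm_num)
    obtain ⟨t, ht1, ht2⟩ := (hF.and h1).exists
    have h2 := ht1.trans (measure_mono (show {ω | ENNReal.ofReal (a * (t : ℝ) ^ (1 / 3 : ℝ)) ≤
      supX X t ω ∧ supX X t ω ≤ ENNReal.ofReal (b * (t : ℝ) ^ (1 / 3 : ℝ))} ⊆
      {ω | supX X t ω ≤ ENNReal.ofReal (b * (t : ℝ) ^ (1 / 3 : ℝ))} from fun ω hω => hω.2))
    exact absurd h2 (not_le.2 ht2)
  · rintro ⟨μ, hμ, hlim⟩
    -- a ball of positive measure
    obtain ⟨r, hr0, hr⟩ : ∃ r : ℝ, 0 < r ∧ 0 < μ (Metric.closedBall (0 : ℝ × ℝ) r) := by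
      by_contra hcon
      push Not at hcon
      have h1 : μ (⋃ n : ℕ, Metric.closedBall (0 : ℝ × ℝ) (n + 1)) = 0 := by
        rw [measure_iUnion_null_iff]
        intro n
        exact le_antisymm (hcon (n + 1) (by positivity)) (zero_le)
      have h2 : (⋃ n : ℕ, Metric.closedBall (0 : ℝ × ℝ) (n + 1)) = univ := by
        refine eq_univ_of_forall fun x => ?_
        rw [mem_iUnion]
        obtain ⟨n, hn⟩ := exists_nat_ge ‖x‖
        exact ⟨n, by rw [mem_closedBall_zero_iff]; linarith⟩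
      rw [h2, measure_univ] at h1
      exact one_ne_zero h1
    -- the bump
    let f0 : ℝ × ℝ → ℝ := fun x => max 0 (min 1 (2 - ‖x‖ / r))
    have hf0c : Continuous f0 := by fun_prop
    have hf00 : ∀ x, 0 ≤ f0 x := fun x => le_max_left _ _
    have hf01 : ∀ x, f0 x ≤ 1 := fun x => max_le zero_le_one (min_le_left _ _)
    have hf02 : ∀ x, f0 x ≠ 0 → ‖x‖ ≤ 2 * r := by
      intro x hx
      by_contra hcon
      push Not at hcon
      apply hx
      have : 2 - ‖x‖ / r ≤ 0 := by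
        rw [sub_nonpos, le_div_iff₀ hr0]; linarith
      exact max_eq_left ((min_le_right _ _).trans this)
    have hf03 : ∀ x ∈ Metric.closedBall (0 : ℝ × ℝ) r, f0 x = 1 := by
      intro x hx
      rw [mem_closedBall_zero_iff] at hx
      have : 1 ≤ 2 - ‖x‖ / r := by
        have : ‖x‖ / r ≤ 1 := (div_le_one hr0).2 hx
        linarith
      show max 0 (min 1 (2 - ‖x‖ / r)) = 1
      rw [min_eq_left this]
      exact max_eq_right zero_le_one
    let f : BoundedContinuousFunction (ℝ × ℝ) ℝ := BoundedContinuousFunction.ofNormedAddCommGroup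
      f0 hf0c 1 (fun x => by
        rw [Real.norm_eq_abs, abs_of_nonneg (hf00 x)]; exact hf01 x)
    have hfe : ∀ x, f x = f0 x := fun x => rfl
    have hfint : 0 < ∫ x, f x ∂μ := by
      have h1 : (μ (Metric.closedBall (0 : ℝ × ℝ) r)).toReal ≤ ∫ x, f x ∂μ := by
        have h2 : (μ (Metric.closedBall (0 : ℝ × ℝ) r)).toReal =
            ∫ x, (Metric.closedBall (0 : ℝ × ℝ) r).indicator (fun _ => (1 : ℝ)) x ∂μ := by
          rw [integral_indicator_const _ Metric.isClosed_closedBall.measurableSet]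
          simp [Measure.real]
        rw [h2]
        refine integral_mono_of_nonneg (Eventually.of_forall fun x => ?_) (f.integrable μ)
          (Eventually.of_forall fun x => ?_)
        · exact indicator_nonneg (fun _ _ => zero_le_one) x
        · by_cases hx : x ∈ Metric.closedBall (0 : ℝ × ℝ) r
          · simp only [indicator_of_mem hx]
            rw [hfe, hf03 x hx]
          · simp only [indicator_of_notMem hx]
            exact hf00 x
      refine lt_of_lt_of_le ?_ h1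
      exact ENNReal.toReal_pos hr.ne' (measure_ne_top _ _)
    have hzero : Tendsto (fun t : ℝ≥0 => ∫ ω, f (W X t ω)
        ∂(ProbabilityTheory.cond P (alive X N Y t))) atTop (𝓝 0) := by
      rw [tendsto_zero_iff_enorm_tendsto_zero]
      refine tendsto_of_tendsto_of_tendsto_of_le_of_le' tendsto_const_nhds (hscale (2 * r))
        (Eventually.of_forall fun _ => zero_le) ?_
      filter_upwards [hcoe.eventually_gt_atTop 0] with t ht
      refine (enorm_integral_le_lintegral_enorm _).trans ?_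
      set S : Set Ω := {ω | supX X t ω ≤ ENNReal.ofReal (2 * r * (t : ℝ) ^ (1 / 3 : ℝ))} with hS
      have hae : ∀ᵐ ω ∂(ProbabilityTheory.cond P (alive X N Y t)),
          ‖f (W X t ω)‖ₑ ≤ S.indicator 1 ω := by
        have h1 : ∀ᵐ ω ∂(ProbabilityTheory.cond P (alive X N Y t)),
            ∀ v, ((fun s => X s ω) '' Set.Iic v).Finite :=
          cond_absolutelyContinuous.ae_le hM.walk.finite
        filter_upwards [h1] with ω hω
        by_cases hf : f0 (W X t ω) = 0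
        · rw [hfe, hf]; simp
        have h2 := hf02 _ hf
        have h3 : ω ∈ S := by
          rw [hS, mem_ofPred_eq, supX_le (by positivity)]
          intro s hs
          have hfin := hω t
          have hmem : X s ω ∈ (fun s => X s ω) '' Set.Iic t := ⟨s, hs, rfl⟩
          have hlo := csInf_le hfin.bddBelow hmem
          have hhi := le_csSup hfin.bddAbove hmem
          have ht3 : 0 < (t : ℝ) ^ (1 / 3 : ℝ) := by positivity
          have hinv : (t : ℝ) ^ (-(1 / 3) : ℝ) = ((t : ℝ) ^ (1 / 3 : ℝ))⁻¹ :=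
            Real.rpow_neg t.coe_nonneg _
          have hn1 : |(t : ℝ) ^ (-(1 / 3) : ℝ) *
              ((sInf ((fun s => X s ω) '' Set.Iic t) : ℤ) : ℝ)| ≤ 2 * r :=
            (norm_fst_le (W X t ω)).trans h2
          have hn2 : |(t : ℝ) ^ (-(1 / 3) : ℝ) *
              ((sSup ((fun s => X s ω) '' Set.Iic t) : ℤ) : ℝ)| ≤ 2 * r :=
            (norm_snd_le (W X t ω)).trans h2
          rw [hinv, abs_mul, abs_of_pos (inv_pos.2 ht3), inv_mul_le_iff₀ ht3] at hn1 hn2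
          have hlo' : ((sInf ((fun s => X s ω) '' Set.Iic t) : ℤ) : ℝ) ≤ (X s ω : ℝ) := by
            exact_mod_cast hlo
          have hhi' : (X s ω : ℝ) ≤ ((sSup ((fun s => X s ω) '' Set.Iic t) : ℤ) : ℝ) := by
            exact_mod_cast hhi
          rw [abs_le] at hn1 hn2 ⊢
          constructor
          · nlinarith [hn1.1]
          · nlinarith [hn2.2]
        rw [indicator_of_mem h3, Pi.one_apply, hfe, Real.enorm_eq_ofReal (hf00 _)]
        exact ENNReal.ofReal_le_one.2 (hf01 _)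
      refine (lintegral_mono_ae hae).trans ?_
      exact lintegral_indicator_one_le S
    have := tendsto_nhds_unique (hlim f) hzero
    exact hfint.ne' this

end Pool.Agent.H886R3.MTQ
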